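import Pool.Agent.Lib.LFA.Rows

/-! # Row R0: holomorphic dependence of an integral over `[0,1]` -/

set_option autoImplicit false

namespace Pool.Agent.LFA

open Filter Topology Set Complex MeasureTheory

theorem r0 : R0 := by
  intro U hU g hg hd w₀ hw₀
  obtain ⟨ρ, hρ, hball⟩ := Metric.isOpen_iff.mp hU w₀ hw₀
  obtain ⟨r, hr⟩ : ∃ r : ℝ, r = ρ / 4 := ⟨_, rfl⟩
  have hr0 : 0 < r := by rw [hr]; positivity
  have hcb : Metric.closedBall w₀ (2 * r) ⊆ U := by
    intro z hz
    apply hball
    rw [Metric.mem_closedBall] at hz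
    rw [Metric.mem_ball]
    linarith
  have hbU : Metric.ball w₀ r ⊆ U := by
    intro z hz
    apply hcb
    rw [Metric.mem_ball] at hz
    rw [Metric.mem_closedBall]
    linarith
  -- a bound on a compact set
  obtain ⟨M, hM⟩ : ∃ M : ℝ, ∀ p ∈ Metric.closedBall w₀ (2 * r) ×ˢ Icc (0 : ℝ) 1,
      ‖g p.1 p.2‖ ≤ M :=
    ((isCompact_closedBall w₀ (2 * r)).prod isCompact_Icc).exists_bound_of_continuousOn
      (hg.mono (prod_mono hcb le_rfl))
  have hΙ : Set.uIoc (0 : ℝ) 1 ⊆ Icc 0 1 := by
    rw [uIoc_of_le zero_le_one]; exact Ioc_subset_Icc_self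
  have hcont : ∀ w ∈ U, ContinuousOn (fun u => g w u) (Icc (0 : ℝ) 1) := by
    intro w hw
    have h1 : ContinuousOn (fun u : ℝ => ((w, u) : ℂ × ℝ)) (Icc (0 : ℝ) 1) := by fun_prop
    exact hg.comp h1 (fun u hu => ⟨hw, hu⟩)
  have hmeas : ∀ w ∈ U, AEStronglyMeasurable (fun u => g w u)
      (volume.restrict (Set.uIoc (0 : ℝ) 1)) := by
    intro w hw
    exact ((hcont w hw).mono hΙ).aestronglyMeasurable measurableSet_uIoc
  have hder : ∀ u ∈ Set.uIoc (0 : ℝ) 1, ∀ w ∈ U,
      HasDerivAt (fun w => g w u) (deriv (fun w => g w u) w) w := by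
    intro u hu w hw
    exact ((hd u (hΙ hu)).differentiableAt (hU.mem_nhds hw)).hasDerivAt
  have key := intervalIntegral.hasDerivAt_integral_of_dominated_loc_of_deriv_le
    (μ := volume) (a := (0 : ℝ)) (b := 1) (F := g) (F' := fun w u => deriv (fun w => g w u) w)
    (x₀ := w₀) (s := Metric.ball w₀ r) (bound := fun _ => M / r) (Metric.ball_mem_nhds w₀ hr0)
    ?_ ?_ ?_ ?_ ?_ ?_
  · exact key.2.differentiableAt.differentiableWithinAt
  · filter_upwards [hU.mem_nhds hw₀] with w hw
    exact hmeas w hw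
  · apply ContinuousOn.intervalIntegrable
    rw [uIcc_of_le zero_le_one]
    exact hcont w₀ hw₀
  · -- the derivative is a limit of difference quotients
    obtain ⟨q, hq⟩ : ∃ q : ℕ → ℂ, q = fun n : ℕ => ((r / ((n : ℝ) + 1) : ℝ) : ℂ) := ⟨_, rfl⟩
    have hq0 : ∀ n, q n ≠ 0 := by
      intro n
      rw [hq]
      simp only [ne_eq, ofReal_eq_zero]
      positivity
    have hqt : Tendsto q atTop (𝓝 0) := by
      rw [hq]
      have h1 : Tendsto (fun n : ℕ => r / (n + 1 : ℝ)) atTop (𝓝 0) :=
        tendsto_const_div_atTop_nhds_zero_nat r |>.comp (tendsto_add_atTop_nat 1) |>.congr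
          fun n => by simp
      have h2 := (Complex.continuous_ofReal.tendsto 0).comp h1
      rw [ofReal_zero] at h2
      exact h2
    have hqU : ∀ n, w₀ + q n ∈ U := by
      intro n
      apply hcb
      rw [Metric.mem_closedBall, dist_eq_norm, add_sub_cancel_left, hq]
      simp only [norm_real, Real.norm_eq_abs]
      have : 0 < (n : ℝ) + 1 := by positivity
      rw [abs_of_pos (by positivity), div_le_iff₀ this]
      have : (0 : ℝ) ≤ n := Nat.cast_nonneg _
      nlinarith
    refine aestronglyMeasurable_of_tendsto_ae (u := atTop)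
      (f := fun n u => (q n)⁻¹ * (g (w₀ + q n) u - g w₀ u)) ?_ ?_
    · intro n
      exact ((hmeas _ (hqU n)).sub (hmeas _ hw₀)).const_mul _
    · rw [ae_restrict_iff' measurableSet_uIoc]
      refine ae_of_all _ fun u hu => ?_
      have h1 := (hder u hu w₀ hw₀).tendsto_slope
      have h2 : Tendsto (fun n => w₀ + q n) atTop (𝓝[≠] w₀) := by
        rw [tendsto_nhdsWithin_iff]
        constructor
        · have := (tendsto_const_nhds (x := w₀)).add hqt
          simpa using this
        · refine Eventually.of_forall fun n => ?_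
          simp only [mem_compl_iff, mem_singleton_iff, add_eq_left]
          exact hq0 n
      have h3 := h1.comp h2
      refine h3.congr fun n => ?_
      simp only [Function.comp, slope, vsub_eq_sub, add_sub_cancel_left, smul_eq_mul]
  · refine ae_of_all _ fun u hu w hw => ?_
    apply norm_deriv_le_of_forall_mem_sphere_norm_le hr0
    · apply DifferentiableOn.diffContOnCl
      refine (hd u (hΙ hu)).mono fun z hz => hcb ?_
      have hz' := Metric.closure_ball_subset_closedBall hz
      rw [Metric.mem_closedBall] at hz' ⊢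
      rw [Metric.mem_ball] at hw
      calc dist z w₀ ≤ dist z w + dist w w₀ := dist_triangle _ _ _
        _ ≤ 2 * r := by linarith
    · intro z hz
      apply hM (z, u)
      refine ⟨?_, hΙ hu⟩
      rw [mem_sphere_iff_norm] at hz
      rw [Metric.mem_ball, dist_eq_norm] at hw
      simp only [Metric.mem_closedBall, dist_eq_norm]
      calc ‖z - w₀‖ = ‖(z - w) + (w - w₀)‖ := by congr 1; ring
        _ ≤ ‖z - w‖ + ‖w - w₀‖ := norm_add_le _ _
        _ ≤ 2 * r := by linarith
  · exact intervalIntegrable_const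
  · exact ae_of_all _ fun u hu w hw => hder u hu w (hbU hw)

end Pool.Agent.LFA
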