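import Pool.Agent.Lib.LFA.Defs

/-! exact statements of the rows (props) -/

set_option autoImplicit false

namespace Pool.Agent.LFA

open Filter Topology Set Complex MeasureTheory

/-- R0: holomorphic dependence of an integral over `[0,1]` -/
def R0 : Prop := ∀ (U : Set ℂ), IsOpen U → ∀ g : ℂ → ℝ → ℂ,
  ContinuousOn (fun p : ℂ × ℝ => g p.1 p.2) (U ×ˢ Icc (0 : ℝ) 1) →
  (∀ u ∈ Icc (0 : ℝ) 1, DifferentiableOn ℂ (fun w => g w u) U) →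
  DifferentiableOn ℂ (fun w => ∫ u in (0 : ℝ)..1, g w u) U

/-- R1: maximum principle in a strip for the averages of `|f|^β` -/
def R1 : Prop := ∀ (a b β B M : ℝ), a < b → 2 ≤ β → ∀ (U : Set ℂ), IsOpen U →
  {w : ℂ | a ≤ w.re ∧ w.re ≤ b} ⊆ U → ∀ f : ℂ → ℝ → ℂ,
  ContinuousOn (fun p : ℂ × ℝ => f p.1 p.2) (U ×ˢ Icc (0 : ℝ) 1) →
  (∀ u ∈ Icc (0 : ℝ) 1, DifferentiableOn ℂ (fun w => f w u) U) →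
  (∀ w : ℂ, a ≤ w.re → w.re ≤ b → ∀ u ∈ Icc (0 : ℝ) 1, ‖f w u‖ ≤ M) →
  (∀ w : ℂ, w.re = a ∨ w.re = b → ∫ u in (0 : ℝ)..1, ‖f w u‖ ^ β ≤ B) →
  ∀ w : ℂ, a ≤ w.re → w.re ≤ b → ∫ u in (0 : ℝ)..1, ‖f w u‖ ^ β ≤ B

/-- R2: master inequality -/
def R2 : Prop := ∀ (x β : ℝ), 2 ≤ β → ∃ C : ℝ, 0 < C ∧ ∀ δ T : ℝ, 0 ≤ δ → δ ≤ 1 / 4 →
  1 + |x| ≤ T → ∀ w : ℂ, -δ ≤ w.re → w.re ≤ 1 / 4 → |w.im| ≤ 1 →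
  V β x T w ≤ C * (1 + T ^ (β * δ) * (T⁻¹ *
    ∫ y in (0 : ℝ)..(4 * T), ‖riemannZeta (1 / 2 + (δ : ℂ) + I * y)‖ ^ β))

/-- R3: one bounded line gives a bounded half plane -/
def R3 : Prop := ∀ (x β K0 : ℝ), 2 ≤ β → 0 ≤ K0 → BoundedAt β x K0 →
  ∀ A : ℝ, ∃ C : ℝ, ∀ B : ℝ, ∃ T0 : ℝ, 3 ≤ T0 ∧ ∀ T : ℝ, T0 ≤ T → ∀ z : ℂ, -A ≤ z.re → ‖z‖ ≤ B →
    V β x T (z / Real.log T) ≤ C * Real.log T ^ (β ^ 2 / 4)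

/-- R4: the lower bound of the expected order on the line -/
def R4 : Prop := ∀ (x β : ℝ), 2 ≤ β → ∃ c T0 : ℝ, 0 < c ∧ ∀ T : ℝ, T0 ≤ T →
  c * Real.log T ^ (β ^ 2 / 4) ≤ V β x T 0

/-- R5a: holomorphic in each shift -/
def R5a : Prop := ∀ (k : ℕ) (x T : ℝ), 3 ≤ T → ∀ (z w : Fin k → ℂ),
  (∀ j, ‖z j‖ < Real.log T / 2) → (∀ j, ‖w j‖ < Real.log T / 2) → ∀ j : Fin k,
  DifferentiableOn ℂ (fun s => shifted k x T (Function.update z j s) w)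
      (Metric.ball 0 (Real.log T / 2)) ∧
  DifferentiableOn ℂ (fun s => shifted k x T z (Function.update w j s))
      (Metric.ball 0 (Real.log T / 2))

/-- R5a': holomorphic on the diagonal -/
def R5a' : Prop := ∀ (k : ℕ) (x T : ℝ), 3 ≤ T →
  DifferentiableOn ℂ (fun s => shifted k x T (fun _ => s) (fun _ => s))
      (Metric.ball 0 (Real.log T / 2))

/-- R5b: the shifted moment is bounded by moments -/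
def R5b : Prop := ∀ (k : ℕ) (x T M : ℝ), 1 ≤ k → 3 ≤ T → ∀ (z w : Fin k → ℂ),
  (∀ j, ‖z j‖ < Real.log T / 2) → (∀ j, ‖w j‖ < Real.log T / 2) →
  (∀ j, V (2 * k) x T (z j / Real.log T) ≤ M * Real.log T ^ (k ^ 2)) →
  (∀ j, V (2 * k) x T ((starRingEnd ℂ) (w j) / Real.log T) ≤ M * Real.log T ^ (k ^ 2)) →
  ‖shifted k x T z w‖ ≤ M

/-- R6: Schwarz lemma with several zeros in a disk -/
def R6 : Prop := ∀ (c : ℂ) (r C : ℝ), 0 < r → ∀ (f : ℂ → ℂ),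
  DifferentiableOn ℂ f (Metric.closedBall c r) → (∀ z ∈ Metric.closedBall c r, ‖f z‖ ≤ C) →
  ∀ F : Finset ℂ, (∀ s ∈ F, s ∈ Metric.ball c r ∧ f s = 0) → ∀ z ∈ Metric.ball c r,
  ‖f z‖ ≤ C * ∏ s ∈ F, (r * ‖z - s‖ / ‖(r : ℂ) ^ 2 - (starRingEnd ℂ) (s - c) * (z - c)‖)

/-- R7: divergence makes the Blaschke product of a half plane small -/
def R7 : Prop := ∀ S : Set ℂ, Plenty S → ∀ A B ε : ℝ, 1 ≤ A → B < A → 0 < ε →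
  ∃ F : Finset ℂ, (∀ s ∈ F, s ∈ S) ∧ ∃ ρ0 : ℝ, 0 < ρ0 ∧ ∀ r : ℝ, ρ0 ≤ r → ∀ z : ℂ, ‖z‖ ≤ B →
    z ∈ Metric.ball ((r - A : ℝ) : ℂ) r ∧ (∀ s ∈ F, s ∈ Metric.ball ((r - A : ℝ) : ℂ) r) ∧
    ∏ s ∈ F, (r * ‖z - s‖ / ‖(r : ℂ) ^ 2 - (starRingEnd ℂ) (s - (r - A : ℝ)) * (z - (r - A : ℝ))‖) ≤ ε

/-- R8: Vitali and Blaschke: convergence on a plentiful set spreads -/
def R8 : Prop := ∀ (S : Set ℂ), Plenty S → ∀ G : ℝ → ℂ → ℂ,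
  (∀ R : ℝ, ∃ T0 : ℝ, ∀ T : ℝ, T0 ≤ T → DifferentiableOn ℂ (G T) (Metric.ball 0 R)) →
  (∀ A : ℝ, ∃ C : ℝ, ∀ B : ℝ, ∃ T0 : ℝ, ∀ T : ℝ, T0 ≤ T → ∀ z : ℂ, -A ≤ z.re → ‖z‖ ≤ B →
    ‖G T z‖ ≤ C) →
  (∀ s ∈ S, ∃ l : ℂ, Tendsto (fun T => G T s) atTop (𝓝 l)) →
  ∃ f : ℂ → ℂ, Differentiable ℂ f ∧ ∀ z : ℂ, Tendsto (fun T => G T z) atTop (𝓝 (f z))

/-- main theorem -/
def MAIN : Prop :=
  (∀ x β : ℝ, 2 ≤ β → (∃ K : ℝ, 0 ≤ K ∧ BoundedAt β x K) → ∀ K : ℝ, BoundedAt β x K) ∧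
  (∀ (k : ℕ) (x : ℝ) (S : Set ℂ), 1 ≤ k → Plenty S → (∃ K : ℝ, (K : ℂ) ∈ S) →
    (∀ s ∈ S, ∃ l : ℂ, Tendsto (fun T => shifted k x T (fun _ => s) (fun _ => s)) atTop (𝓝 l)) →
    ∃ f : ℂ → ℂ, Differentiable ℂ f ∧
      (∀ z : ℂ, Tendsto (fun T => shifted k x T (fun _ => z) (fun _ => z)) atTop (𝓝 (f z))) ∧
      0 < (f 0).re ∧ (f 0).im = 0) ∧
  (∀ (k : ℕ) (x : ℝ) (S : Set ℂ), 1 ≤ k → Plenty S → (∃ K : ℝ, (K : ℂ) ∈ S) →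
    (∀ z w : Fin k → ℂ, (∀ j, z j ∈ S) → (∀ j, w j ∈ S) →
      ∃ l : ℂ, Tendsto (fun T => shifted k x T z w) atTop (𝓝 l)) →
    ∀ z w : Fin k → ℂ, ∃ l : ℂ, Tendsto (fun T => shifted k x T z w) atTop (𝓝 l))

end Pool.Agent.LFA
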