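import Mathlib
import Pool.Agent.Lib.LFA.Rows

/-! Row R1: the maximum principle in a strip for the averages of `|f|^β`. -/

set_option autoImplicit false

namespace Pool.Agent.LFA

open Filter Topology Set Complex MeasureTheory Asymptotics

namespace R1x

/-- Young's inequality in the form used here. -/
theorem young {β x y : ℝ} (hβ : 2 ≤ β) (hx : 0 ≤ x) (hy : 0 ≤ y) :
    x * y ^ (β - 1) ≤ x ^ β / β + (1 - 1 / β) * y ^ β := by
  have hβ0 : 0 < β := by linarith
  have hβ1 : 0 < β - 1 := by linarith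
  have hpq : β.HolderConjugate (β / (β - 1)) :=
    Real.HolderConjugate.conjExponent (by linarith)
  have h := Real.young_inequality_of_nonneg hx (Real.rpow_nonneg hy (β - 1)) hpq
  have h1 : (y ^ (β - 1)) ^ (β / (β - 1)) = y ^ β := by
    rw [← Real.rpow_mul hy]
    congr 1
    field_simp
  have h2 : y ^ β / (β / (β - 1)) = (1 - 1 / β) * y ^ β := by
    field_simp
  rw [h1, h2] at h
  exact h

end R1x

theorem r1 (h0 : R0) : R1 := by
  intro a b β B M hab hβ U hU hUs f hfc hfd hfM hfB w0 hw0a hw0b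
  have hβ0 : 0 < β := by linarith
  have hsub : {w : ℂ | a ≤ w.re ∧ w.re ≤ b} ⊆ U := hUs
  -- slices are continuous
  have hslice : ∀ w ∈ U, ContinuousOn (fun u => f w u) (Icc (0 : ℝ) 1) := by
    intro w hw
    exact hfc.comp (f := fun u : ℝ => (w, u)) (by fun_prop) (fun u hu => ⟨hw, hu⟩)
  have hw0U : w0 ∈ U := hsub ⟨hw0a, hw0b⟩
  have hc0 := hslice w0 hw0U
  have hnc : ∀ w ∈ U, ContinuousOn (fun u => ‖f w u‖ ^ β) (Icc (0 : ℝ) 1) := fun w hw =>
    (hslice w hw).norm.rpow_const fun _ _ => Or.inr hβ0.le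
  set g : ℝ → ℂ := fun u => (starRingEnd ℂ) (f w0 u) * ((‖f w0 u‖ ^ (β - 2) : ℝ) : ℂ) with hg
  have hgc : ContinuousOn g (Icc (0 : ℝ) 1) := by
    refine ContinuousOn.mul (continuous_conj.comp_continuousOn hc0) ?_
    exact continuous_ofReal.comp_continuousOn
      (hc0.norm.rpow_const fun _ _ => Or.inr (by linarith))
  have hgn : ∀ u, ‖g u‖ = ‖f w0 u‖ ^ (β - 1) := by
    intro u
    simp only [hg, norm_mul, RCLike.norm_conj, norm_real]
    rw [Real.norm_of_nonneg (Real.rpow_nonneg (norm_nonneg _) _)]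
    rcases eq_or_lt_of_le (norm_nonneg (f w0 u)) with h | h
    · rw [← h, zero_mul, Real.zero_rpow (by linarith)]
    · rw [← Real.rpow_one_add' h.le (by linarith)]
      congr 1
      ring
  set Φ : ℂ → ℂ := fun w => ∫ u in (0 : ℝ)..1, f w u * g u with hΦ
  have hΦd : DifferentiableOn ℂ Φ U := by
    refine h0 U hU (fun w u => f w u * g u) ?_ ?_
    · refine hfc.mul ?_
      exact hgc.comp continuous_snd.continuousOn fun p hp => hp.2
    · intro u hu
      exact (hfd u hu).mul_const _
  set I : ℝ := ∫ u in (0 : ℝ)..1, ‖f w0 u‖ ^ β with hI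
  have hint : ∀ w ∈ U, IntervalIntegrable (fun u => ‖f w u‖ ^ β) volume 0 1 := by
    intro w hw
    refine ContinuousOn.intervalIntegrable ?_
    rw [uIcc_of_le zero_le_one]
    exact hnc w hw
  -- the bound of `Φ`
  have hbd : ∀ w ∈ U, ‖Φ w‖ ≤ (∫ u in (0 : ℝ)..1, ‖f w u‖ ^ β) / β + (1 - 1 / β) * I := by
    intro w hw
    have h1 : ‖Φ w‖ ≤ ∫ u in (0 : ℝ)..1, ‖f w u * g u‖ :=
      intervalIntegral.norm_integral_le_integral_norm zero_le_one
    have h2 : ∫ u in (0 : ℝ)..1, ‖f w u * g u‖ ≤
        ∫ u in (0 : ℝ)..1, (‖f w u‖ ^ β / β + (1 - 1 / β) * ‖f w0 u‖ ^ β) := by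
      refine intervalIntegral.integral_mono_on zero_le_one ?_ ?_ fun u _ => ?_
      · refine ContinuousOn.intervalIntegrable ?_
        rw [uIcc_of_le zero_le_one]
        exact ((hslice w hw).mul hgc).norm
      · exact ((hint w hw).div_const _).add ((hint w0 hw0U).const_mul _)
      · rw [norm_mul, hgn]
        exact R1x.young hβ (norm_nonneg _) (norm_nonneg _)
    have h3 : ∫ u in (0 : ℝ)..1, (‖f w u‖ ^ β / β + (1 - 1 / β) * ‖f w0 u‖ ^ β) =
        (∫ u in (0 : ℝ)..1, ‖f w u‖ ^ β) / β + (1 - 1 / β) * I := by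
      rw [intervalIntegral.integral_add ((hint w hw).div_const _)
        ((hint w0 hw0U).const_mul _), intervalIntegral.integral_div,
        intervalIntegral.integral_const_mul]
    linarith
  have hM0 : 0 ≤ M := (norm_nonneg _).trans (hfM w0 hw0a hw0b 0 ⟨le_rfl, zero_le_one⟩)
  -- the line bound
  have hline : ∀ w : ℂ, w.re = a ∨ w.re = b → ‖Φ w‖ ≤ B / β + (1 - 1 / β) * I := by
    intro w hw
    have hwU : w ∈ U := by
      refine hsub ?_
      rcases hw with h | h
      · exact ⟨h.ge, h.le.trans hab.le⟩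
      · exact ⟨hab.le.trans h.ge, h.le⟩
    refine (hbd w hwU).trans ?_
    have := hfB w hw
    gcongr
  have hpl : ‖Φ w0‖ ≤ B / β + (1 - 1 / β) * I := by
    refine PhragmenLindelof.vertical_strip (a := a) (b := b) ?_ ?_
      (fun z hz => hline z (Or.inl hz)) (fun z hz => hline z (Or.inr hz)) hw0a hw0b
    · refine (hΦd.mono ?_).diffContOnCl
      rw [closure_preimage_re, closure_Ioo hab.ne]
      intro z hz
      exact hsub ⟨hz.1, hz.2⟩
    · refine ⟨0, by positivity, 0, ?_⟩
      refine IsBigO.of_bound (M ^ β / β + (1 - 1 / β) * I) ?_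
      filter_upwards [mem_inf_of_right (mem_principal_self _)] with z hz
      have hz : a < z.re ∧ z.re < b := hz
      have hzU : z ∈ U := hsub ⟨hz.1.le, hz.2.le⟩
      have h1 := hbd z hzU
      have h2 : ∫ u in (0 : ℝ)..1, ‖f z u‖ ^ β ≤ ∫ u in (0 : ℝ)..1, M ^ β := by
        refine intervalIntegral.integral_mono_on zero_le_one (hint z hzU) (by simp)
          fun u hu => ?_
        exact Real.rpow_le_rpow (norm_nonneg _) (hfM z hz.1.le hz.2.le u hu) hβ0.le
      rw [intervalIntegral.integral_const] at h2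
      simp only [sub_zero, smul_eq_mul, one_mul] at h2
      simp only [zero_mul, Real.exp_zero, norm_one, mul_one]
      refine h1.trans ?_
      gcongr
  have hΦ0 : Φ w0 = (I : ℂ) := by
    simp only [hΦ, hI]
    rw [← intervalIntegral.integral_ofReal]
    refine intervalIntegral.integral_congr fun u _ => ?_
    simp only [hg]
    rw [← mul_assoc, mul_conj, normSq_eq_norm_sq, ← ofReal_mul]
    congr 1
    rcases eq_or_lt_of_le (norm_nonneg (f w0 u)) with h | h
    · rw [← h, Real.zero_rpow hβ0.ne']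
      ring
    · rw [← Real.rpow_natCast, ← Real.rpow_add h]
      congr 1
      push_cast
      ring
  have hIn : 0 ≤ I := by
    refine intervalIntegral.integral_nonneg zero_le_one fun u _ => ?_
    exact Real.rpow_nonneg (norm_nonneg _) _
  rw [hΦ0, norm_real, Real.norm_of_nonneg hIn] at hpl
  have : I / β ≤ B / β := by
    have e : (1 - 1 / β) * I = I - I / β := by ring
    linarith
  exact (div_le_div_iff_of_pos_right hβ0).1 this

end Pool.Agent.LFA
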