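import Pool.Agent.Lib.LFA.Rows

/-! Law from afar: equicontinuity in the distance, real exponents. -/

set_option autoImplicit false

namespace Pool.Agent.LFA

open Filter Topology Set Complex MeasureTheory

namespace R10x

/-- Hölder against `|a|^(β-1)` on `[0,1]` -/
lemma holder {β : ℝ} (hβ : 2 ≤ β) {a b : ℝ → ℝ} (ha : ContinuousOn a (Icc 0 1))
    (hb : ContinuousOn b (Icc 0 1)) (ha0 : ∀ u ∈ Icc (0 : ℝ) 1, 0 ≤ a u)
    (hb0 : ∀ u ∈ Icc (0 : ℝ) 1, 0 ≤ b u) :
    ∫ u in (0 : ℝ)..1, b u * a u ^ (β - 1)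
      ≤ (∫ u in (0 : ℝ)..1, b u ^ β) ^ (1 / β) * (∫ u in (0 : ℝ)..1, a u ^ β) ^ (1 - 1 / β) := by
  have hβ0 : 0 < β := by linarith
  have hpq : β.HolderConjugate (β / (β - 1)) := by
    rw [Real.holderConjugate_iff]
    refine ⟨by linarith, ?_⟩
    field_simp
    ring
  rw [intervalIntegral.integral_of_le zero_le_one, intervalIntegral.integral_of_le zero_le_one,
    intervalIntegral.integral_of_le zero_le_one, ← integral_Icc_eq_integral_Ioc,
    ← integral_Icc_eq_integral_Ioc, ← integral_Icc_eq_integral_Ioc]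
  have hmem : ∀ᵐ u ∂(volume.restrict (Icc (0 : ℝ) 1)), u ∈ Icc (0 : ℝ) 1 :=
    ae_restrict_mem measurableSet_Icc
  have hg : ContinuousOn (fun u => a u ^ (β - 1)) (Icc 0 1) :=
    ha.rpow_const (fun u _ => Or.inr (by linarith))
  have hmB : MemLp b (ENNReal.ofReal β) (volume.restrict (Icc (0 : ℝ) 1)) := by
    obtain ⟨M, hM⟩ := isCompact_Icc.exists_bound_of_continuousOn hb
    exact MemLp.of_bound (hb.aestronglyMeasurable measurableSet_Icc) M
      (hmem.mono fun u hu => hM u hu)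
  have hmG : MemLp (fun u => a u ^ (β - 1)) (ENNReal.ofReal (β / (β - 1)))
      (volume.restrict (Icc (0 : ℝ) 1)) := by
    obtain ⟨M, hM⟩ := isCompact_Icc.exists_bound_of_continuousOn hg
    exact MemLp.of_bound (hg.aestronglyMeasurable measurableSet_Icc) M
      (hmem.mono fun u hu => hM u hu)
  have h := MeasureTheory.integral_mul_le_Lp_mul_Lq_of_nonneg hpq
    (hmem.mono fun u hu => hb0 u hu)
    (hmem.mono fun u hu => Real.rpow_nonneg (ha0 u hu) _) hmB hmG
  refine h.trans (le_of_eq ?_)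
  congr 1
  have e1 : ∫ u in Icc (0 : ℝ) 1, (a u ^ (β - 1)) ^ (β / (β - 1)) = ∫ u in Icc (0 : ℝ) 1, a u ^ β := by
    refine setIntegral_congr_fun measurableSet_Icc fun u hu => ?_
    rw [← Real.rpow_mul (ha0 u hu)]
    congr 1
    field_simp
    exact div_self (by linarith)
  rw [e1]
  congr 1
  field_simp

/-- Lipschitz bound of the norm of a holomorphic family -/
lemma lip (h0 : R0) {β : ℝ} (hβ : 2 ≤ β) {U : Set ℂ} (hU : IsOpen U) {f : ℂ → ℝ → ℂ}
    (hc : ContinuousOn (fun p : ℂ × ℝ => f p.1 p.2) (U ×ˢ Icc (0 : ℝ) 1))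
    (hd : ∀ u ∈ Icc (0 : ℝ) 1, DifferentiableOn ℂ (fun w => f w u) U)
    {w1 w2 : ℂ} {ρ B : ℝ} (hρ : 0 < ρ) (hball : Metric.closedBall w1 ρ ⊆ U)
    (hw : ‖w2 - w1‖ ≤ ρ / 2)
    (hB : ∀ w ∈ Metric.closedBall w1 ρ, ∫ u in (0 : ℝ)..1, ‖f w u‖ ^ β ≤ B) :
    (∫ u in (0 : ℝ)..1, ‖f w1 u‖ ^ β) ^ (1 / β)
      ≤ (∫ u in (0 : ℝ)..1, ‖f w2 u‖ ^ β) ^ (1 / β) + 2 / ρ * B ^ (1 / β) * ‖w2 - w1‖ := by
  have hβ0 : 0 < β := by linarith
  have hw1 : w1 ∈ U := hball (Metric.mem_closedBall_self hρ.le)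
  have hcw : ∀ w ∈ U, ContinuousOn (fun u => f w u) (Icc (0 : ℝ) 1) := fun w hw' =>
    hc.comp (f := fun u : ℝ => (w, u)) (by fun_prop) (fun u hu => ⟨hw', hu⟩)
  have hnn : ∀ w, 0 ≤ ∫ u in (0 : ℝ)..1, ‖f w u‖ ^ β := fun w =>
    intervalIntegral.integral_nonneg zero_le_one fun u _ => Real.rpow_nonneg (norm_nonneg _) _
  set A : ℝ := ∫ u in (0 : ℝ)..1, ‖f w1 u‖ ^ β with hA
  have hA0 : 0 ≤ A := hnn w1
  have hB0 : 0 ≤ B := (hnn w1).trans (hB w1 (Metric.mem_closedBall_self hρ.le))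
  rcases hA0.eq_or_lt with hA00 | hApos
  · rw [← hA00, Real.zero_rpow (by positivity)]
    have := hnn w2
    positivity
  -- the test function
  set g : ℝ → ℂ := fun u => (starRingEnd ℂ) (f w1 u) * ((‖f w1 u‖ ^ (β - 2) : ℝ) : ℂ) with hg
  have hgc : ContinuousOn g (Icc (0 : ℝ) 1) := by
    have h1 := hcw w1 hw1
    refine (Complex.continuous_conj.comp_continuousOn h1).mul
      (Complex.continuous_ofReal.comp_continuousOn ?_)
    exact h1.norm.rpow_const fun u _ => Or.inr (by linarith)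
  have hgn : ∀ u, ‖g u‖ = ‖f w1 u‖ ^ (β - 1) := by
    intro u
    rw [hg]
    simp only
    rw [norm_mul, Complex.norm_conj, Complex.norm_real, Real.norm_of_nonneg (by positivity)]
    rcases (norm_nonneg (f w1 u)).eq_or_lt with h | h
    · rw [← h, zero_mul, Real.zero_rpow (by linarith)]
    · nth_rewrite 1 [← Real.rpow_one ‖f w1 u‖]
      rw [← Real.rpow_add h]
      congr 1
      ring
  set Ψ : ℂ → ℂ := fun w => ∫ u in (0 : ℝ)..1, f w u * g u with hΨ
  have hΨd : DifferentiableOn ℂ Ψ U := by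
    refine h0 U hU (fun w u => f w u * g u) ?_ (fun u hu => (hd u hu).mul_const _)
    exact hc.mul (hgc.comp continuousOn_snd fun p hp => hp.2)
  have hΨb : ∀ w ∈ U, ‖Ψ w‖ ≤ (∫ u in (0 : ℝ)..1, ‖f w u‖ ^ β) ^ (1 / β) * A ^ (1 - 1 / β) := by
    intro w hw'
    refine (intervalIntegral.norm_integral_le_integral_norm zero_le_one).trans ?_
    have h1 := holder hβ (hcw w1 hw1).norm (hcw w hw').norm (fun u _ => norm_nonneg _)
      (fun u _ => norm_nonneg _)
    refine le_trans (le_of_eq ?_) h1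
    refine intervalIntegral.integral_congr fun u _ => ?_
    rw [norm_mul, hgn]
  have hΨ1 : Ψ w1 = (A : ℂ) := by
    rw [hΨ, hA]
    simp only
    rw [← intervalIntegral.integral_ofReal]
    refine intervalIntegral.integral_congr fun u _ => ?_
    simp only [hg]
    rw [← mul_assoc, Complex.mul_conj, Complex.normSq_eq_norm_sq, ← Complex.ofReal_mul]
    congr 1
    rcases (norm_nonneg (f w1 u)).eq_or_lt with h | h
    · rw [← h, Real.zero_rpow (by linarith : β ≠ 0)]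
      ring
    · rw [← Real.rpow_natCast, ← Real.rpow_add h]
      congr 1
      push_cast
      ring
  have hMb : ∀ w ∈ Metric.closedBall w1 ρ, ‖Ψ w‖ ≤ B ^ (1 / β) * A ^ (1 - 1 / β) := by
    intro w hw'
    refine (hΨb w (hball hw')).trans ?_
    have := hB w hw'
    have h2 := hnn w
    gcongr
  have hder : ∀ w ∈ Metric.closedBall w1 (ρ / 2),
      ‖deriv Ψ w‖ ≤ B ^ (1 / β) * A ^ (1 - 1 / β) / (ρ / 2) := by
    intro w hw'
    have hsub : Metric.closedBall w (ρ / 2) ⊆ Metric.closedBall w1 ρ := by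
      refine Metric.closedBall_subset_closedBall' ?_
      rw [Metric.mem_closedBall] at hw'
      linarith
    refine Complex.norm_deriv_le_of_forall_mem_sphere_norm_le (by positivity) ?_ fun z hz =>
      hMb z (hsub (Metric.sphere_subset_closedBall hz))
    exact (hΨd.mono (hsub.trans hball)).diffContOnCl_ball (le_refl _) |> fun h => h
  have hdiff : ‖Ψ w2 - Ψ w1‖ ≤ B ^ (1 / β) * A ^ (1 - 1 / β) / (ρ / 2) * ‖w2 - w1‖ := by
    refine (convex_closedBall w1 (ρ / 2)).norm_image_sub_le_of_norm_deriv_le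
      (fun w hw' => ?_) hder (Metric.mem_closedBall_self (by positivity)) ?_
    · refine (hΨd.differentiableAt (hU.mem_nhds (hball ?_)))
      exact Metric.closedBall_subset_closedBall (by linarith) hw'
    · rw [Metric.mem_closedBall, dist_eq_norm]
      exact hw
  have hw2 : w2 ∈ U := hball (by
    rw [Metric.mem_closedBall, dist_eq_norm]; linarith)
  have h3 : A ≤ (∫ u in (0 : ℝ)..1, ‖f w2 u‖ ^ β) ^ (1 / β) * A ^ (1 - 1 / β)
      + B ^ (1 / β) * A ^ (1 - 1 / β) / (ρ / 2) * ‖w2 - w1‖ := by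
    have h4 : ‖Ψ w1‖ ≤ ‖Ψ w2‖ + ‖Ψ w2 - Ψ w1‖ := by
      have := norm_sub_le (Ψ w2) (Ψ w2 - Ψ w1)
      rwa [sub_sub_cancel] at this
    have h7 : ‖Ψ w1‖ = A := by rw [hΨ1, Complex.norm_real, Real.norm_of_nonneg hA0]
    rw [← h7]
    rw [← h7] at hdiff
    exact h4.trans (add_le_add (by rw [h7]; exact hΨb w2 hw2) hdiff)
  have h5 : A ^ (1 / β) * A ^ (1 - 1 / β) = A := by
    rw [← Real.rpow_add hApos]
    simp
  have h6 : 0 < A ^ (1 - 1 / β) := Real.rpow_pos_of_pos hApos _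
  refine le_of_mul_le_mul_right ?_ h6
  rw [h5]
  refine h3.trans (le_of_eq ?_)
  field_simp

lemma ne_one {T : ℝ} {z : ℂ} (hL : 0 < Real.log T) (hz : ‖z‖ < Real.log T / 2) (y : ℝ) :
    1 / 2 + z / Real.log T + I * (y : ℂ) ≠ 1 := by
  intro h
  have h1 : (z / Real.log T).re = 1 / 2 := by
    have := congrArg Complex.re h
    simp at this
    have h2 : (z / (Real.log T : ℂ)).re = z.re / Real.log T := Complex.div_ofReal_re z _
    rw [h2]
    linarith
  have h2 : (z / (Real.log T : ℂ)).re = z.re / Real.log T := Complex.div_ofReal_re z _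
  rw [h2] at h1
  have h3 : z.re < Real.log T / 2 := (le_abs_self _).trans_lt ((Complex.abs_re_le_norm z).trans_lt hz)
  rw [div_eq_iff hL.ne'] at h1
  linarith

/-- the scaled moment -/
noncomputable def Rn (β x K T : ℝ) : ℝ :=
  V β x T ((K / Real.log T : ℝ) : ℂ) / Real.log T ^ (β ^ 2 / 4)

lemma V_nonneg (β x T : ℝ) (w : ℂ) : 0 ≤ V β x T w :=
  intervalIntegral.integral_nonneg zero_le_one fun u _ => Real.rpow_nonneg (norm_nonneg _) _

lemma equi (h0 : R0) (h3 : R3) {x β K0 : ℝ} (hβ : 2 ≤ β) (hK0 : 0 ≤ K0)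
    (hb : BoundedAt β x K0) (A : ℝ) : ∃ C T0 : ℝ, 0 < C ∧ ∀ T : ℝ, T0 ≤ T → ∀ K K' : ℝ, |K| ≤ A →
      |K' - K| ≤ 1 / 2 → Rn β x K T ^ (1 / β) ≤ Rn β x K' T ^ (1 / β) + C * |K' - K| := by
  have hβ0 : 0 < β := by linarith
  obtain ⟨C, hC⟩ := h3 x β K0 hβ hK0 hb (|A| + 1)
  obtain ⟨T0, hT3, hT0⟩ := hC (|A| + 1)
  refine ⟨2 * |C| ^ (1 / β) + 1, max T0 (Real.exp (2 * (|A| + 2))), by positivity,
    fun T hT K K' hK hKK => ?_⟩
  have hT1 : T0 ≤ T := (le_max_left _ _).trans hT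
  have hT4 : 3 ≤ T := hT3.trans hT1
  have hL : 0 < Real.log T := Real.log_pos (by linarith)
  have hA : |A| + 2 ≤ Real.log T / 2 := by
    have : 2 * (|A| + 2) ≤ Real.log T := by
      rw [Real.le_log_iff_exp_le (by linarith)]
      exact (le_max_right _ _).trans hT
    linarith
  have hKA : |K| ≤ |A| := hK.trans (le_abs_self _)
  set U : Set ℂ := Metric.ball 0 (Real.log T / 2) with hU
  set f : ℂ → ℝ → ℂ := fun z u => riemannZeta (1 / 2 + z / Real.log T + I * (x + u * T)) with hf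
  have hne : ∀ z ∈ U, ∀ u : ℝ, 1 / 2 + z / Real.log T + I * (x + u * T) ≠ (1 : ℂ) := by
    intro z hz u
    have h1 : ‖z‖ < Real.log T / 2 := by simpa [hU] using hz
    have := ne_one hL h1 (x + u * T)
    push_cast at this
    exact this
  have hc : ContinuousOn (fun p : ℂ × ℝ => f p.1 p.2) (U ×ˢ Icc (0 : ℝ) 1) := by
    intro p hp
    refine ContinuousAt.continuousWithinAt ?_
    have h1 := (differentiableAt_riemannZeta (hne p.1 hp.1 p.2)).continuousAt
    refine ContinuousAt.comp (f := fun p : ℂ × ℝ =>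
      (1 / 2 + p.1 / Real.log T + I * (x + p.2 * T) : ℂ)) (x := p) h1 ?_
    fun_prop
  have hd : ∀ u ∈ Icc (0 : ℝ) 1, DifferentiableOn ℂ (fun w => f w u) U := by
    intro u _ z hz
    refine DifferentiableAt.differentiableWithinAt ?_
    have h1 := differentiableAt_riemannZeta (hne z hz u)
    refine DifferentiableAt.comp (f := fun z : ℂ =>
      (1 / 2 + z / Real.log T + I * (x + u * T) : ℂ)) z h1 ?_
    fun_prop
  have hV : ∀ z : ℂ, ∫ u in (0 : ℝ)..1, ‖f z u‖ ^ β = V β x T (z / Real.log T) := fun z => rfl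
  have hVr : ∀ K : ℝ, V β x T ((K / Real.log T : ℝ) : ℂ) = V β x T ((K : ℂ) / Real.log T) := by
    intro K
    rw [Complex.ofReal_div]
  have hnorm : ‖((K' : ℝ) : ℂ) - ((K : ℝ) : ℂ)‖ = |K' - K| := by
    rw [← Complex.ofReal_sub, Complex.norm_real, Real.norm_eq_abs]
  have hsub : ∀ w ∈ Metric.closedBall ((K : ℝ) : ℂ) 1, -(|A| + 1) ≤ w.re ∧ ‖w‖ ≤ |A| + 1 := by
    intro w hw
    rw [Metric.mem_closedBall, dist_eq_norm] at hw
    have h1 : ‖w‖ ≤ ‖w - ((K : ℝ) : ℂ)‖ + ‖((K : ℝ) : ℂ)‖ := by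
      have := norm_add_le (w - ((K : ℝ) : ℂ)) ((K : ℝ) : ℂ)
      rwa [sub_add_cancel] at this
    rw [Complex.norm_real, Real.norm_eq_abs] at h1
    have h2 : ‖w‖ ≤ |A| + 1 := by linarith
    refine ⟨?_, h2⟩
    have := Complex.abs_re_le_norm w
    have := neg_abs_le w.re
    linarith
  have hmain := lip h0 hβ Metric.isOpen_ball hc hd (w1 := (K : ℂ)) (w2 := (K' : ℂ)) (ρ := 1)
    (B := C * Real.log T ^ (β ^ 2 / 4)) one_pos
    (fun w hw => by
      rw [Metric.mem_ball, dist_zero_right]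
      linarith [(hsub w hw).2]) (by rw [hnorm]; linarith)
    (fun w hw => by
      rw [hV]
      exact hT0 T hT1 w (hsub w hw).1 (hsub w hw).2)
  rw [hV, hV, hnorm] at hmain
  set Q : ℝ := Real.log T ^ (β ^ 2 / 4) with hQ
  have hQ0 : 0 < Q := Real.rpow_pos_of_pos hL _
  have hCn : 0 ≤ C := by
    have h1 := hT0 T hT1 (K : ℂ) (hsub _ (Metric.mem_closedBall_self zero_le_one)).1
      (hsub _ (Metric.mem_closedBall_self zero_le_one)).2
    have h2 := (V_nonneg β x T ((K : ℂ) / Real.log T)).trans h1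
    exact nonneg_of_mul_nonneg_left h2 hQ0
  unfold Rn
  rw [← hQ, hVr, hVr, Real.div_rpow (V_nonneg _ _ _ _) hQ0.le,
    Real.div_rpow (V_nonneg _ _ _ _) hQ0.le]
  have hq : 0 < Q ^ (1 / β) := Real.rpow_pos_of_pos hQ0 _
  rw [div_le_iff₀ hq, add_mul, div_mul_cancel₀ _ hq.ne']
  refine hmain.trans ?_
  rw [Real.mul_rpow hCn hQ0.le, abs_of_nonneg hCn]
  have h9 : 0 ≤ |K' - K| := abs_nonneg _
  nlinarith [mul_nonneg h9 hq.le]

end R10x

open R10x

/-- the distances at which the law holds form a closed set, for every real exponent -/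
theorem r10 (h0 : R0) (h3 : R3) {x β Ks : ℝ} (hβ : 2 ≤ β)
    (h : ∀ ε : ℝ, 0 < ε → ∃ K : ℝ, 0 ≤ K ∧ |K - Ks| < ε ∧
      ∃ l : ℝ, Tendsto (fun T => Rn β x K T) atTop (𝓝 l)) :
    ∃ l : ℝ, Tendsto (fun T => Rn β x Ks T) atTop (𝓝 l) := by
  have hβ0 : 0 < β := by linarith
  -- one bounded line
  obtain ⟨K0, hK0, -, l0, hl0⟩ := h 1 one_pos
  have hb : BoundedAt β x K0 := by
    obtain ⟨T1, hT1⟩ := eventually_atTop.mp (hl0.eventually (gt_mem_nhds (lt_add_one l0)))
    refine ⟨l0 + 1, max T1 3, fun T hT => ?_⟩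
    have h2 := (hT1 T ((le_max_left _ _).trans hT)).le
    have hL : 0 < Real.log T := Real.log_pos (by linarith [(le_max_right T1 3).trans hT])
    unfold Rn at h2
    rwa [div_le_iff₀ (by positivity)] at h2
  obtain ⟨C, T0, hC, heq⟩ := equi h0 h3 hβ hK0 hb (|Ks| + 1)
  set N : ℝ → ℝ → ℝ := fun K T => Rn β x K T ^ (1 / β) with hN
  have hRn : ∀ K T, 0 ≤ T → 1 ≤ T → 0 ≤ Rn β x K T := by
    intro K T _ h1
    unfold Rn
    have := V_nonneg β x T ((K / Real.log T : ℝ) : ℂ)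
    have h2 : 0 ≤ Real.log T := Real.log_nonneg h1
    positivity
  have hcau : CauchySeq (fun T : ℝ => N Ks T) := by
    rw [Metric.cauchySeq_iff']
    intro ε hε
    obtain ⟨K, hK, hKK, l, hl⟩ := h (min (1 / 2) (ε / (8 * C))) (by positivity)
    have hK1 : |K - Ks| < 1 / 2 := hKK.trans_le (min_le_left _ _)
    have hK2 : C * |K - Ks| ≤ ε / 8 := by
      have := hKK.le.trans (min_le_right _ _)
      rw [le_div_iff₀ (by positivity)] at this
      nlinarith
    have hlN : Tendsto (fun T => N K T) atTop (𝓝 (l ^ (1 / β))) :=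
      hl.rpow_const (Or.inr (by positivity))
    obtain ⟨T1, hT1⟩ := eventually_atTop.mp (Metric.tendsto_nhds.mp hlN (ε / 8) (by positivity))
    have hnear : ∀ T, max T0 T1 ≤ T → |N Ks T - l ^ (1 / β)| ≤ ε / 4 := by
      intro T hT
      have h1 := hT1 T ((le_max_right _ _).trans hT)
      rw [Real.dist_eq, abs_lt] at h1
      have hKA : |K| ≤ |Ks| + 1 := by
        have := abs_sub_abs_le_abs_sub K Ks
        linarith
      have h2 := heq T ((le_max_left _ _).trans hT) Ks K (by linarith) hK1.le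
      have h3 := heq T ((le_max_left _ _).trans hT) K Ks hKA (by rw [abs_sub_comm]; exact hK1.le)
      rw [abs_sub_comm Ks K] at h3
      simp only [hN] at h1 ⊢
      rw [abs_le]
      constructor <;> linarith
    refine ⟨max T0 T1, fun T hT => ?_⟩
    have h1 := hnear T hT
    have h2 := hnear _ (le_refl (max T0 T1))
    rw [Real.dist_eq]
    have h5 : |N Ks T - N Ks (max T0 T1)|
        ≤ |N Ks T - l ^ (1 / β)| + |N Ks (max T0 T1) - l ^ (1 / β)| := by
      rw [abs_sub_comm (N Ks (max T0 T1))]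
      exact abs_sub_le _ _ _
    linarith
  obtain ⟨m, hm⟩ := cauchySeq_tendsto_of_complete hcau
  refine ⟨m ^ β, ?_⟩
  have h1 : Tendsto (fun T => N Ks T ^ β) atTop (𝓝 (m ^ β)) :=
    hm.rpow_const (Or.inr hβ0.le)
  refine h1.congr' ?_
  filter_upwards [eventually_ge_atTop (1 : ℝ)] with T hT
  simp only [hN]
  rw [← Real.rpow_mul (hRn Ks T (by linarith) hT), one_div_mul_cancel hβ0.ne', Real.rpow_one]

end Pool.Agent.LFA
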