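import Pool.Agent.Lib.LFA.Rows
import Pool.Agent.Lib.MP_f9aece_nt_h40.Growth
import Pool.Agent.Lib.MP_f9aece_nt_mp.LeftCore
import Pool.Agent.Lib.MRL.FLa

/-! R2: the master inequality -/

set_option autoImplicit false

namespace Pool.Agent.LFA

open Filter Topology Set Complex MeasureTheory

namespace R2x

open Pool.Agent.Lib.MP_f9aece_nt_h40 (F Z1)

/-- the argument of the zeta function -/
noncomputable def sf (x T : ℝ) (w : ℂ) (u : ℝ) : ℂ := 1 / 2 + w + I * (x + u * T)

lemma sf_re (x T : ℝ) (w : ℂ) (u : ℝ) : (sf x T w u).re = 1 / 2 + w.re := by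
  simp [sf]

lemma sf_im (x T : ℝ) (w : ℂ) (u : ℝ) : (sf x T w u).im = w.im + (x + u * T) := by
  simp [sf]

/-- the auxiliary function -/
noncomputable def f (x T : ℝ) (w : ℂ) (u : ℝ) : ℂ := Complex.exp (w ^ 2) * F (sf x T w u)

lemma norm_exp_sq (w : ℂ) : ‖Complex.exp (w ^ 2)‖ = Real.exp (w.re ^ 2 - w.im ^ 2) := by
  rw [Complex.norm_exp]
  congr 1
  simp [sq]

lemma norm_le_parts (s : ℂ) : ‖s‖ ≤ |s.re| + |s.im| := Complex.norm_le_abs_re_add_abs_im s

lemma F_eq {s : ℂ} (hs : s ≠ 1) : F s = (s - 1) * riemannZeta s / (s + 1) := by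
  unfold F
  rw [Pool.Agent.Lib.MP_f9aece_nt_h40.Z1_eq hs]

/-- `|F| ≤ |ζ|` -/
lemma norm_F_le {s : ℂ} (hs : 0 < s.re) (h1 : s ≠ 1) : ‖F s‖ ≤ ‖riemannZeta s‖ := by
  rw [F_eq h1, norm_div, norm_mul]
  have h2 := Pool.Agent.Lib.MP_f9aece_nt_h40.norm_sub_one_le hs
  have h3 := Pool.Agent.Lib.MP_f9aece_nt_h40.one_le_norm_add_one hs
  rw [div_le_iff₀ (by linarith)]
  have := norm_nonneg (riemannZeta s)
  nlinarith

/-- `|ζ| ≤ 9 |F|` in the region `0 < Re s ≤ 3/4` -/
lemma zeta_le_F {s : ℂ} (hs : 0 < s.re) (h1 : s.re ≤ 3 / 4) : ‖riemannZeta s‖ ≤ 9 * ‖F s‖ := by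
  have hne : s ≠ 1 := by
    intro h
    rw [h] at h1
    norm_num at h1
  have h2 : 1 / 4 ≤ ‖s - 1‖ := by
    have h3 : |(s - 1).re| ≤ ‖s - 1‖ := Complex.abs_re_le_norm _
    have h4 : (s - 1).re = s.re - 1 := by simp
    rw [h4, abs_of_neg (by linarith)] at h3
    linarith
  have h5 : ‖s + 1‖ ≤ ‖s - 1‖ + 2 := by
    have : s + 1 = (s - 1) + 2 := by ring
    rw [this]
    refine (norm_add_le _ _).trans ?_
    simp
  have h6 : ‖s + 1‖ ≤ 9 * ‖s - 1‖ := by linarith
  have h7 := Pool.Agent.Lib.MP_f9aece_nt_h40.one_le_norm_add_one hs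
  rw [F_eq hne, norm_div, norm_mul, mul_div_assoc', le_div_iff₀ (by linarith)]
  have := norm_nonneg (riemannZeta s)
  nlinarith

lemma abs_mul_exp_le (Y : ℝ) : |Y| * Real.exp (-Y ^ 2) ≤ 1 := by
  have h1 : Y ^ 2 + 1 ≤ Real.exp (Y ^ 2) := Real.add_one_le_exp _
  rw [Real.exp_neg, ← div_eq_mul_inv, div_le_one (Real.exp_pos _)]
  have h2 : |Y| ≤ Y ^ 2 + 1 := by
    rw [← sq_abs]
    nlinarith [sq_nonneg (|Y| - 1), abs_nonneg Y]
  linarith

lemma exp_le_one' (Y : ℝ) : Real.exp (-Y ^ 2) ≤ 1 :=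
  Real.exp_le_one_iff.2 (by nlinarith [sq_nonneg Y])

/-- crude bound for the auxiliary function in the strip -/
lemma norm_f_le (x T : ℝ) (hT : 0 ≤ T) (w : ℂ) (h1 : -(1 / 4) ≤ w.re) (h2 : w.re ≤ 3 / 2) {u : ℝ}
    (hu : u ∈ Icc (0 : ℝ) 1) :
    ‖f x T w u‖ ≤ Real.exp (w.re ^ 2) * (6 * (4 + |x| + T)) := by
  have hs : 0 < (sf x T w u).re := by rw [sf_re]; linarith
  have h3 := Pool.Agent.Lib.MP_f9aece_nt_h40.F_bound hs
  have h4 : ‖sf x T w u‖ ≤ 2 + |w.im| + |x| + T := by
    refine (norm_le_parts _).trans ?_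
    rw [sf_re, sf_im, abs_of_pos (by linarith)]
    have h5 : |w.im + (x + u * T)| ≤ |w.im| + (|x| + T) := by
      refine (abs_add_le _ _).trans (add_le_add le_rfl ((abs_add_le _ _).trans (add_le_add le_rfl ?_)))
      rw [abs_mul, abs_of_nonneg hu.1, abs_of_nonneg hT]
      nlinarith [hu.2]
    linarith
  unfold f
  rw [norm_mul, norm_exp_sq]
  have h6 : Real.exp (w.re ^ 2 - w.im ^ 2) = Real.exp (w.re ^ 2) * Real.exp (-w.im ^ 2) := by
    rw [← Real.exp_add, sub_eq_add_neg]
  rw [h6, mul_assoc]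
  refine mul_le_mul_of_nonneg_left ?_ (Real.exp_pos _).le
  have h7 := abs_mul_exp_le w.im
  have h8 := exp_le_one' w.im
  have h9 := Real.exp_pos (-w.im ^ 2)
  have h10 : ‖F (sf x T w u)‖ ≤ 6 * (3 + |x| + T) + 6 * |w.im| := by linarith
  calc Real.exp (-w.im ^ 2) * ‖F (sf x T w u)‖
      ≤ Real.exp (-w.im ^ 2) * (6 * (3 + |x| + T) + 6 * |w.im|) :=
        mul_le_mul_of_nonneg_left h10 h9.le
    _ = (6 * (3 + |x| + T)) * Real.exp (-w.im ^ 2) + 6 * (|w.im| * Real.exp (-w.im ^ 2)) := by ring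
    _ ≤ (6 * (3 + |x| + T)) * 1 + 6 * 1 := by
        have := abs_nonneg x
        gcongr
    _ = 6 * (4 + |x| + T) := by ring

/-- the bound on the right line -/
lemma norm_f_right (x T : ℝ) (w : ℂ) (h : w.re = 3 / 2) (u : ℝ) :
    ‖f x T w u‖ ≤ 2 * Real.exp (9 / 4) := by
  have hs : (sf x T w u).re = 2 := by rw [sf_re, h]; norm_num
  have hne : sf x T w u ≠ 1 := by
    intro h1
    rw [h1] at hs
    norm_num at hs
  have h1 := (norm_F_le (by rw [hs]; norm_num) hne).trans
    (Pool.Agent.MRL.FL.norm_zeta_two_le (by rw [hs]))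
  unfold f
  rw [norm_mul, norm_exp_sq, mul_comm]
  refine mul_le_mul h1 (Real.exp_le_exp.2 ?_) (Real.exp_pos _).le (by norm_num)
  rw [h]
  nlinarith [sq_nonneg w.im]

lemma exp_sixteenth : Real.exp (1 / 16) ≤ 1.1 := by
  have h := Real.exp_bound_div_one_sub_of_interval (x := 1 / 16) (by norm_num) (by norm_num)
  refine h.trans (by norm_num)

/-- the bound on the left line -/
lemma norm_f_left {x T δ : ℝ} (hδ0 : 0 ≤ δ) (hδ : δ ≤ 1 / 4) (hT : 1 + |x| ≤ T) {w : ℂ}
    (h : w.re = -δ) {u : ℝ} (hu : u ∈ Icc (0 : ℝ) 1) :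
    ‖f x T w u‖ ≤ 30 ∨ (|w.im| ≤ T ∧ ‖f x T w u‖ ≤
      6 * T ^ δ * ‖riemannZeta (1 / 2 + (δ : ℂ) + I * ((w.im + (x + u * T) : ℝ) : ℂ))‖) := by
  have hx := abs_nonneg x
  have hT0 : 0 < T := by linarith
  have hs : 0 < (sf x T w u).re := by rw [sf_re, h]; linarith
  set y : ℝ := w.im + (x + u * T) with hy
  have hyb : |y| ≤ |w.im| + (|x| + T) := by
    refine (abs_add_le _ _).trans (add_le_add le_rfl ((abs_add_le _ _).trans (add_le_add le_rfl ?_)))
    rw [abs_mul, abs_of_nonneg hu.1, abs_of_nonneg hT0.le]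
    nlinarith [hu.2]
  have hFs := Pool.Agent.Lib.MP_f9aece_nt_h40.F_bound hs
  have hsn : ‖sf x T w u‖ ≤ 1 / 2 + |y| := by
    refine (norm_le_parts _).trans ?_
    rw [sf_re, sf_im, h, abs_of_pos (by linarith)]
    linarith
  have hexp : Real.exp (w.re ^ 2 - w.im ^ 2) = Real.exp (δ ^ 2) * Real.exp (-w.im ^ 2) := by
    rw [← Real.exp_add, h]; congr 1; ring
  have hexp2 : Real.exp (δ ^ 2) ≤ 1.1 := by
    refine le_trans (Real.exp_le_exp.2 ?_) exp_sixteenth
    nlinarith
  have he0 := Real.exp_pos (-w.im ^ 2)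
  have he1 := exp_le_one' w.im
  have he2 := Real.exp_pos (δ ^ 2)
  have hfn : ‖f x T w u‖ = Real.exp (δ ^ 2) * Real.exp (-w.im ^ 2) * ‖F (sf x T w u)‖ := by
    unfold f
    rw [norm_mul, norm_exp_sq, hexp]
  by_cases hY : |w.im| ≤ T
  · by_cases hy2 : |y| < 2
    · left
      rw [hfn]
      have h1 : ‖F (sf x T w u)‖ ≤ 21 := by linarith
      calc Real.exp (δ ^ 2) * Real.exp (-w.im ^ 2) * ‖F (sf x T w u)‖
          ≤ 1.1 * 1 * 21 := by gcongr
        _ ≤ 30 := by norm_num
    · right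
      refine ⟨hY, ?_⟩
      push Not at hy2
      have hne : sf x T w u ≠ 1 := by
        intro h1
        have := congrArg Complex.re h1
        rw [sf_re, h] at this
        norm_num at this
        linarith
      have h1 := norm_F_le hs hne
      have h2 := Pool.Agent.Lib.MP2.zeta_left_le (t := y) (x := δ) hy2 hδ0 hδ
      have h3 : sf x T w u = 1 / 2 - (δ : ℂ) + I * (y : ℂ) := by
        apply Complex.ext
        · rw [sf_re, h]; simp; ring
        · rw [sf_im]; simp [hy]
      rw [← h3] at h2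
      have h4 : |y| ^ δ ≤ 2 * T ^ δ := by
        have h5 : |y| ≤ 3 * T := by linarith
        calc |y| ^ δ ≤ (3 * T) ^ δ := Real.rpow_le_rpow (abs_nonneg _) h5 hδ0
          _ = 3 ^ δ * T ^ δ := Real.mul_rpow (by norm_num) hT0.le
          _ ≤ 2 * T ^ δ := by
              gcongr
              calc (3 : ℝ) ^ δ ≤ (3 : ℝ) ^ (1 / 4 : ℝ) :=
                    Real.rpow_le_rpow_of_exponent_le (by norm_num) hδ
                _ ≤ (2 ^ (4 : ℝ)) ^ (1 / 4 : ℝ) := Real.rpow_le_rpow (by norm_num) (by norm_num) (by norm_num)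
                _ = 2 := by
                    rw [← Real.rpow_mul (by norm_num)]; norm_num
      have h5 : Real.exp (4 * δ) ≤ 2.7182818286 := by
        refine le_trans (Real.exp_le_exp.2 (by linarith)) Real.exp_one_lt_d9.le
      rw [hfn]
      have h6 : ‖F (sf x T w u)‖ ≤ 2.7182818286 * (2 * T ^ δ) *
          ‖riemannZeta (1 / 2 + (δ : ℂ) + I * (y : ℂ))‖ := by
        refine h1.trans (h2.trans ?_)
        gcongr
      calc Real.exp (δ ^ 2) * Real.exp (-w.im ^ 2) * ‖F (sf x T w u)‖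
          ≤ 1.1 * 1 * (2.7182818286 * (2 * T ^ δ) *
            ‖riemannZeta (1 / 2 + (δ : ℂ) + I * (y : ℂ))‖) := by gcongr
        _ = (1.1 * 2.7182818286 * 2) * (T ^ δ *
            ‖riemannZeta (1 / 2 + (δ : ℂ) + I * (y : ℂ))‖) := by ring
        _ ≤ 6 * (T ^ δ * ‖riemannZeta (1 / 2 + (δ : ℂ) + I * (y : ℂ))‖) := by
            gcongr
            norm_num
        _ = _ := by ring
  · left
    push Not at hY
    rw [hfn]
    have h1 : |y| ≤ 3 * |w.im| := by linarith
    have h2 : ‖F (sf x T w u)‖ ≤ 9 + 18 * |w.im| := by linarith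
    have h3 := abs_mul_exp_le w.im
    calc Real.exp (δ ^ 2) * Real.exp (-w.im ^ 2) * ‖F (sf x T w u)‖
        ≤ 1.1 * Real.exp (-w.im ^ 2) * (9 + 18 * |w.im|) := by gcongr
      _ = 1.1 * (9 * Real.exp (-w.im ^ 2) + 18 * (|w.im| * Real.exp (-w.im ^ 2))) := by ring
      _ ≤ 1.1 * (9 * 1 + 18 * 1) := by gcongr
      _ ≤ 30 := by norm_num

lemma zeta_cont {δ : ℝ} (hδ : δ ≤ 1 / 4) :
    Continuous fun y : ℝ => riemannZeta (1 / 2 + (δ : ℂ) + I * (y : ℂ)) := by
  refine continuous_iff_continuousAt.2 fun y => ?_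
  have hne : (1 / 2 + (δ : ℂ) + I * (y : ℂ)) ≠ 1 := by
    intro h
    have := congrArg Complex.re h
    simp at this
    linarith
  exact ContinuousAt.comp (f := fun y : ℝ => (1 / 2 + (δ : ℂ) + I * (y : ℂ)))
    (differentiableAt_riemannZeta hne).continuousAt (by fun_prop)

lemma zeta_even (δ y : ℝ) : ‖riemannZeta (1 / 2 + (δ : ℂ) + I * ((-y : ℝ) : ℂ))‖ =
    ‖riemannZeta (1 / 2 + (δ : ℂ) + I * (y : ℂ))‖ := by
  rw [← Complex.norm_conj (riemannZeta (1 / 2 + (δ : ℂ) + I * (y : ℂ))), ← riemannZeta_conj]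
  congr 2
  apply Complex.ext <;> simp

/-- the integral over a window is bounded by the integral over `[0, 4T]` -/
lemma window_le {T : ℝ} (hT : 0 < T) {g : ℝ → ℝ} (hg : Continuous g) (h0 : ∀ y, 0 ≤ g y)
    (he : ∀ y, g (-y) = g y) {a : ℝ} (h1 : -(2 * T) ≤ a) (h2 : a ≤ 2 * T) :
    ∫ u in (0 : ℝ)..1, g (a + u * T) ≤ 2 * (T⁻¹ * ∫ y in (0 : ℝ)..(4 * T), g y) := by
  have hi : ∀ c d : ℝ, IntervalIntegrable g volume c d := fun c d => hg.intervalIntegrable c d
  have e1 : ∫ u in (0 : ℝ)..1, g (a + u * T) = T⁻¹ * ∫ y in a..(a + T), g y := by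
    have := intervalIntegral.integral_comp_add_mul (a := 0) (b := 1) g hT.ne' a
    simp only [smul_eq_mul, mul_zero, add_zero, mul_one] at this
    rw [← this]
    exact intervalIntegral.integral_congr fun u _ => by
      show g (a + u * T) = g (a + T * u)
      rw [mul_comm]
  have e2 : ∫ y in a..(a + T), g y ≤ ∫ y in (-(4 * T))..(4 * T), g y := by
    rw [← intervalIntegral.integral_add_adjacent_intervals (hi (-(4 * T)) a) (hi a (4 * T)),
      ← intervalIntegral.integral_add_adjacent_intervals (hi a (a + T)) (hi (a + T) (4 * T))]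
    have p1 : 0 ≤ ∫ y in (-(4 * T))..a, g y :=
      intervalIntegral.integral_nonneg (by linarith) fun y _ => h0 y
    have p2 : 0 ≤ ∫ y in (a + T)..(4 * T), g y :=
      intervalIntegral.integral_nonneg (by linarith) fun y _ => h0 y
    linarith
  have e3 : ∫ y in (-(4 * T))..(4 * T), g y = 2 * ∫ y in (0 : ℝ)..(4 * T), g y := by
    rw [← intervalIntegral.integral_add_adjacent_intervals (hi (-(4 * T)) 0) (hi 0 (4 * T))]
    have : ∫ y in (-(4 * T))..0, g y = ∫ y in (0 : ℝ)..(4 * T), g y := by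
      have h := intervalIntegral.integral_comp_neg (a := 0) (b := 4 * T) g
      rw [neg_zero] at h
      rw [← h]
      exact intervalIntegral.integral_congr fun y _ => he y
    rw [this]
    ring
  rw [e1]
  calc T⁻¹ * ∫ y in a..(a + T), g y ≤ T⁻¹ * (2 * ∫ y in (0 : ℝ)..(4 * T), g y) := by
        refine mul_le_mul_of_nonneg_left (e2.trans e3.le) (by positivity)
    _ = _ := by ring

lemma f_contOn (x T : ℝ) : ContinuousOn (fun p : ℂ × ℝ => f x T p.1 p.2)
    ({w : ℂ | -(1 / 2) < w.re} ×ˢ Icc (0 : ℝ) 1) := by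
  intro p hp
  have hs : 0 < (sf x T p.1 p.2).re := by
    rw [sf_re]
    have : -(1 / 2) < p.1.re := hp.1
    linarith
  have h1 : ContinuousAt (fun p : ℂ × ℝ => F (sf x T p.1 p.2)) p := by
    refine ContinuousAt.comp (f := fun p : ℂ × ℝ => sf x T p.1 p.2)
      (Pool.Agent.Lib.MP_f9aece_nt_h40.F_continuousAt hs) ?_
    unfold sf
    fun_prop
  exact (ContinuousAt.mul (by fun_prop) h1).continuousWithinAt

lemma f_diffOn (x T : ℝ) (u : ℝ) :
    DifferentiableOn ℂ (fun w => f x T w u) {w : ℂ | -(1 / 2) < w.re} := by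
  intro w hw
  have hs : 0 < (sf x T w u).re := by
    rw [sf_re]
    have : -(1 / 2) < w.re := hw
    linarith
  have h1 : DifferentiableAt ℂ (fun w => F (sf x T w u)) w := by
    refine DifferentiableAt.comp (f := fun w => sf x T w u) w
      (Pool.Agent.Lib.MP_f9aece_nt_h40.F_analyticAt hs).differentiableAt ?_
    unfold sf
    fun_prop
  exact (DifferentiableAt.mul (by fun_prop) h1).differentiableWithinAt

lemma f_cont_u (x T β : ℝ) (hβ : 2 ≤ β) {w : ℂ} (hw : -(1 / 2) < w.re) :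
    ContinuousOn (fun u : ℝ => ‖f x T w u‖ ^ β) (Icc 0 1) := by
  refine ContinuousOn.rpow_const ?_ fun _ _ => Or.inr (by linarith)
  refine ContinuousOn.norm ?_
  exact (f_contOn x T).comp (f := fun u : ℝ => (w, u)) (by fun_prop) fun u hu => ⟨hw, hu⟩

end R2x

open R2x in
theorem r2 (h1 : R1) : R2 := by
  intro x β hβ
  have hβ0 : 0 ≤ β := by linarith
  set K : ℝ := (2 * Real.exp (9 / 4)) ^ β + 30 ^ β + 2 * 6 ^ β with hK
  have hK0 : 0 < K := by positivity
  refine ⟨(9 * Real.exp 1) ^ β * K, by positivity, ?_⟩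
  intro δ T hδ0 hδ hT w hw1 hw2 hw3
  have hx := abs_nonneg x
  have hT0 : 0 < T := by linarith
  set g : ℝ → ℝ := fun y => ‖riemannZeta (1 / 2 + (δ : ℂ) + I * (y : ℂ))‖ ^ β with hg
  have hgc : Continuous g := (zeta_cont hδ).norm.rpow_const fun _ => Or.inr hβ0
  have hg0 : ∀ y, 0 ≤ g y := fun y => by positivity
  have hge : ∀ y, g (-y) = g y := fun y => by
    simp only [hg]
    rw [zeta_even]
  set J : ℝ := T⁻¹ * ∫ y in (0 : ℝ)..(4 * T), g y with hJ
  have hJ0 : 0 ≤ J := by
    refine mul_nonneg (by positivity) (intervalIntegral.integral_nonneg (by linarith) fun y _ => hg0 y)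
  have hTβ : 0 ≤ T ^ (β * δ) := by positivity
  set B : ℝ := K * (1 + T ^ (β * δ) * J) with hB
  have hBK : K ≤ B := by
    rw [hB]
    nlinarith [mul_nonneg hTβ hJ0]
  -- the boundary
  have hbd : ∀ z : ℂ, z.re = -δ ∨ z.re = 3 / 2 → ∫ u in (0 : ℝ)..1, ‖f x T z u‖ ^ β ≤ B := by
    rintro z (hz | hz)
    · have hci := f_cont_u x T β hβ (w := z) (by rw [hz]; linarith)
      by_cases hY : |z.im| ≤ T
      · have hpt : ∀ u ∈ Icc (0 : ℝ) 1, ‖f x T z u‖ ^ β ≤
            30 ^ β + 6 ^ β * T ^ (β * δ) * g ((z.im + x) + u * T) := by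
          intro u hu
          rcases norm_f_left hδ0 hδ hT hz hu with h | ⟨-, h⟩
          · refine (Real.rpow_le_rpow (norm_nonneg _) h hβ0).trans ?_
            have : 0 ≤ 6 ^ β * T ^ (β * δ) * g ((z.im + x) + u * T) :=
              mul_nonneg (by positivity) (hg0 _)
            linarith
          · refine (Real.rpow_le_rpow (norm_nonneg _) h hβ0).trans ?_
            rw [Real.mul_rpow (by positivity) (norm_nonneg _), Real.mul_rpow (by norm_num) (by positivity),
              ← Real.rpow_mul hT0.le, mul_comm δ β]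
            have e : (z.im + (x + u * T) : ℝ) = (z.im + x) + u * T := by ring
            rw [e]
            have : (0 : ℝ) ≤ 30 ^ β := by positivity
            linarith
        have hint : ∫ u in (0 : ℝ)..1, ‖f x T z u‖ ^ β ≤
            ∫ u in (0 : ℝ)..1, (30 ^ β + 6 ^ β * T ^ (β * δ) * g ((z.im + x) + u * T)) := by
          refine intervalIntegral.integral_mono_on (by norm_num) ?_ ?_ hpt
          · exact ContinuousOn.intervalIntegrable (by rwa [uIcc_of_le zero_le_one])
          · exact Continuous.intervalIntegrable (by fun_prop) _ _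
        have hsplit : ∫ u in (0 : ℝ)..1, (30 ^ β + 6 ^ β * T ^ (β * δ) * g ((z.im + x) + u * T)) =
            30 ^ β + 6 ^ β * T ^ (β * δ) * ∫ u in (0 : ℝ)..1, g ((z.im + x) + u * T) := by
          rw [intervalIntegral.integral_add (by simp)
            (Continuous.intervalIntegrable (by fun_prop) _ _), intervalIntegral.integral_const_mul]
          simp
        have hab := abs_le.1 hY
        have hab2 := abs_le.1 (le_refl |x|)
        have hwin := window_le hT0 hgc hg0 hge (a := z.im + x) (by linarith) (by linarith)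
        rw [hsplit] at hint
        refine hint.trans ?_
        calc 30 ^ β + 6 ^ β * T ^ (β * δ) * ∫ u in (0 : ℝ)..1, g ((z.im + x) + u * T)
            ≤ 30 ^ β + 6 ^ β * T ^ (β * δ) * (2 * J) := by
              gcongr
          _ ≤ B := by
              rw [hB, hK]
              have q1 : (0 : ℝ) ≤ (2 * Real.exp (9 / 4)) ^ β := by positivity
              have q2 : (0 : ℝ) ≤ 30 ^ β := by positivity
              have q3 : (0 : ℝ) ≤ 6 ^ β := by positivity
              have q4 := mul_nonneg hTβ hJ0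
              nlinarith [mul_nonneg q1 q4, mul_nonneg q2 q4, mul_nonneg q3 q4]
      · have hpt : ∀ u ∈ Icc (0 : ℝ) 1, ‖f x T z u‖ ^ β ≤ 30 ^ β := by
          intro u hu
          rcases norm_f_left hδ0 hδ hT hz hu with h | ⟨h, -⟩
          · exact Real.rpow_le_rpow (norm_nonneg _) h hβ0
          · exact absurd h hY
        have hint : ∫ u in (0 : ℝ)..1, ‖f x T z u‖ ^ β ≤ ∫ _u in (0 : ℝ)..1, (30 : ℝ) ^ β := by
          refine intervalIntegral.integral_mono_on (by norm_num) ?_ (by simp) hpt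
          exact ContinuousOn.intervalIntegrable (by rwa [uIcc_of_le zero_le_one])
        simp only [intervalIntegral.integral_const, sub_zero, one_smul] at hint
        refine hint.trans (le_trans ?_ hBK)
        rw [hK]
        have q1 : (0 : ℝ) ≤ (2 * Real.exp (9 / 4)) ^ β := by positivity
        have q3 : (0 : ℝ) ≤ 6 ^ β := by positivity
        linarith
    · have hci := f_cont_u x T β hβ (w := z) (by rw [hz]; norm_num)
      have hint : ∫ u in (0 : ℝ)..1, ‖f x T z u‖ ^ β ≤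
          ∫ _u in (0 : ℝ)..1, (2 * Real.exp (9 / 4)) ^ β := by
        refine intervalIntegral.integral_mono_on (by norm_num) ?_ (by simp) fun u _ =>
          Real.rpow_le_rpow (norm_nonneg _) (norm_f_right x T z hz u) hβ0
        exact ContinuousOn.intervalIntegrable (by rwa [uIcc_of_le zero_le_one])
      simp only [intervalIntegral.integral_const, sub_zero, one_smul] at hint
      refine hint.trans (le_trans ?_ hBK)
      rw [hK]
      have q2 : (0 : ℝ) ≤ 30 ^ β := by positivity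
      have q3 : (0 : ℝ) ≤ 6 ^ β := by positivity
      linarith
  -- the strip
  have hU : IsOpen {w : ℂ | -(1 / 2) < w.re} := isOpen_lt continuous_const Complex.continuous_re
  have key := h1 (-δ) (3 / 2) β B (Real.exp (9 / 4) * (6 * (4 + |x| + T))) (by linarith) hβ
    {w : ℂ | -(1 / 2) < w.re} hU (fun z hz => by
      have : -δ ≤ z.re := hz.1
      show -(1 / 2) < z.re
      linarith) (f x T) (f_contOn x T) (fun u _ => f_diffOn x T u) (fun z hz1 hz2 u hu => by
      refine (norm_f_le x T hT0.le z (by linarith) hz2 hu).trans ?_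
      refine mul_le_mul_of_nonneg_right (Real.exp_le_exp.2 ?_) (by positivity)
      nlinarith) hbd w hw1 (by linarith)
  -- the conclusion
  have hwre : -(1 / 2) < w.re := by linarith
  have hpt : ∀ u ∈ Icc (0 : ℝ) 1, ‖riemannZeta (1 / 2 + w + I * (x + u * T))‖ ^ β ≤
      (9 * Real.exp 1) ^ β * ‖f x T w u‖ ^ β := by
    intro u hu
    rw [← Real.mul_rpow (by positivity) (norm_nonneg _)]
    refine Real.rpow_le_rpow (norm_nonneg _) ?_ hβ0
    have hs : 0 < (sf x T w u).re := by rw [sf_re]; linarith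
    have h2 := zeta_le_F hs (by rw [sf_re]; linarith)
    have h3 : ‖f x T w u‖ = Real.exp (w.re ^ 2 - w.im ^ 2) * ‖Pool.Agent.Lib.MP_f9aece_nt_h40.F (sf x T w u)‖ := by
      unfold f
      rw [norm_mul, norm_exp_sq]
    have h4 : Real.exp (-1) ≤ Real.exp (w.re ^ 2 - w.im ^ 2) := by
      refine Real.exp_le_exp.2 ?_
      have : w.im ^ 2 ≤ 1 := by
        rw [← sq_abs]
        nlinarith [abs_nonneg w.im]
      nlinarith [sq_nonneg w.re]
    have h5 : 1 ≤ Real.exp 1 * Real.exp (w.re ^ 2 - w.im ^ 2) := by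
      calc (1 : ℝ) = Real.exp 1 * Real.exp (-1) := by rw [← Real.exp_add]; norm_num
        _ ≤ _ := mul_le_mul_of_nonneg_left h4 (Real.exp_pos _).le
    change ‖riemannZeta (sf x T w u)‖ ≤ _
    refine h2.trans ?_
    rw [h3]
    have := norm_nonneg (Pool.Agent.Lib.MP_f9aece_nt_h40.F (sf x T w u))
    nlinarith [mul_le_mul_of_nonneg_right h5 this]
  have hzc : ContinuousOn (fun u : ℝ => ‖riemannZeta (1 / 2 + w + I * (x + u * T))‖ ^ β) (Icc 0 1) := by
    refine ContinuousOn.rpow_const (ContinuousOn.norm ?_) fun _ _ => Or.inr hβ0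
    intro u _
    have hne : (1 / 2 + w + I * (x + u * T)) ≠ 1 := by
      intro h
      have := congrArg Complex.re h
      simp at this
      linarith
    exact (ContinuousAt.comp (f := fun u : ℝ => (1 / 2 + w + I * (x + u * T)))
      (differentiableAt_riemannZeta hne).continuousAt (by fun_prop)).continuousWithinAt
  have hfc := f_cont_u x T β hβ hwre
  unfold V
  calc ∫ u in (0 : ℝ)..1, ‖riemannZeta (1 / 2 + w + I * (x + u * T))‖ ^ β
      ≤ ∫ u in (0 : ℝ)..1, (9 * Real.exp 1) ^ β * ‖f x T w u‖ ^ β := by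
        refine intervalIntegral.integral_mono_on (by norm_num) ?_ ?_ hpt
        · exact ContinuousOn.intervalIntegrable (by rwa [uIcc_of_le zero_le_one])
        · exact (ContinuousOn.intervalIntegrable (by rwa [uIcc_of_le zero_le_one])).const_mul _
    _ = (9 * Real.exp 1) ^ β * ∫ u in (0 : ℝ)..1, ‖f x T w u‖ ^ β :=
        intervalIntegral.integral_const_mul _ _
    _ ≤ (9 * Real.exp 1) ^ β * B := mul_le_mul_of_nonneg_left key (by positivity)
    _ = _ := by rw [hB]; ring

end Pool.Agent.LFA
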