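import Pool.Agent.Lib.LFA.Rows

/-!
# Law from afar, row R3: a bound on one line gives a bound in every half plane
-/

set_option autoImplicit false

namespace Pool.Agent.LFA

open Filter Topology Set Complex MeasureTheory

namespace R3x

/-- the line is in the domain of continuity -/
lemma cont_line {δ : ℝ} (hδ : δ ≤ 1 / 4) :
    Continuous fun y : ℝ => riemannZeta (1 / 2 + (δ : ℂ) + I * y) := by
  rw [continuous_iff_continuousAt]
  intro t
  have hne : 1 / 2 + (δ : ℂ) + I * t ≠ 1 := by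
    intro h
    have h1 := congrArg Complex.re h
    simp at h1
    norm_num at h1
    linarith
  have h1 : ContinuousAt riemannZeta (1 / 2 + (δ : ℂ) + I * t) :=
    (differentiableAt_riemannZeta hne).continuousAt
  have h2 : ContinuousAt (fun t : ℝ => 1 / 2 + (δ : ℂ) + I * t) t := by fun_prop
  exact ContinuousAt.comp (f := fun t : ℝ => 1 / 2 + (δ : ℂ) + I * t) h1 h2

lemma cont_pow {δ β : ℝ} (hδ : δ ≤ 1 / 4) (hβ : 0 ≤ β) :
    Continuous fun y : ℝ => ‖riemannZeta (1 / 2 + (δ : ℂ) + I * y)‖ ^ β :=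
  (cont_line hδ).norm.rpow_const fun _ => Or.inr hβ

lemma V_eq {β x T δ : ℝ} (hT : 0 < T) :
    T * V β x T (δ : ℂ) = ∫ y in x..(x + T), ‖riemannZeta (1 / 2 + (δ : ℂ) + I * y)‖ ^ β := by
  have h2 := intervalIntegral.integral_comp_mul_add (a := 0) (b := 1)
    (fun t : ℝ => ‖riemannZeta (1 / 2 + (δ : ℂ) + I * t)‖ ^ β) hT.ne' x
  simp only [mul_zero, zero_add, mul_one, smul_eq_mul] at h2
  have h3 : V β x T (δ : ℂ) = ∫ u in (0 : ℝ)..1,
      ‖riemannZeta (1 / 2 + (δ : ℂ) + I * ((T * u + x : ℝ) : ℂ))‖ ^ β := by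
    unfold V
    refine intervalIntegral.integral_congr fun u _ => ?_
    congr 3
    push_cast
    ring
  rw [h3, h2, add_comm T x, ← mul_assoc, mul_inv_cancel₀ hT.ne', one_mul]

lemma V_nonneg (β x T : ℝ) (w : ℂ) : 0 ≤ V β x T w := by
  unfold V
  exact intervalIntegral.integral_nonneg zero_le_one fun u _ => by positivity

/-- covering of `[0, 4T]` -/
lemma cover {f : ℝ → ℝ} (hf : Continuous f) (h0 : ∀ y, 0 ≤ f y) {x T : ℝ} (hT : 0 < T) :
    ∫ y in (0 : ℝ)..(4 * T), f y ≤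
      (∫ y in (0 : ℝ)..|x|, f y) + ∫ y in x..(x + (4 * T + |x|)), f y := by
  have hi : ∀ a b : ℝ, IntervalIntegrable f volume a b := fun a b => hf.intervalIntegrable a b
  rcases le_or_gt 0 x with hx | hx
  · rw [abs_of_nonneg hx, intervalIntegral.integral_add_adjacent_intervals (hi _ _) (hi _ _)]
    refine intervalIntegral.integral_mono_interval le_rfl (by positivity) (by linarith) ?_ (hi _ _)
    exact Eventually.of_forall h0
  · rw [abs_of_neg hx]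
    have h1 : x + (4 * T + -x) = 4 * T := by ring
    rw [h1, ← intervalIntegral.integral_add_adjacent_intervals (hi x 0) (hi 0 (4 * T))]
    have h2 : 0 ≤ ∫ y in (0 : ℝ)..(-x), f y :=
      intervalIntegral.integral_nonneg (by linarith) fun y _ => h0 y
    have h3 : 0 ≤ ∫ y in x..(0 : ℝ), f y :=
      intervalIntegral.integral_nonneg hx.le fun y _ => h0 y
    linarith

/-- a bound near the real axis -/
lemma zeta_bdd (x : ℝ) : ∃ M : ℝ, 1 ≤ M ∧ ∀ δ t : ℝ, 0 ≤ δ → δ ≤ 1 / 4 → 0 ≤ t → t ≤ |x| →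
    ‖riemannZeta (1 / 2 + (δ : ℂ) + I * t)‖ ≤ M := by
  have hcomp : IsCompact (Set.Icc (0 : ℝ) (1 / 4) ×ˢ Set.Icc (0 : ℝ) |x|) :=
    isCompact_Icc.prod isCompact_Icc
  have hcont : ContinuousOn (fun z : ℝ × ℝ => ‖riemannZeta (1 / 2 + (z.1 : ℂ) + I * z.2)‖)
      (Set.Icc (0 : ℝ) (1 / 4) ×ˢ Set.Icc (0 : ℝ) |x|) := by
    intro z hz
    have hne : 1 / 2 + (z.1 : ℂ) + I * z.2 ≠ 1 := by
      intro h
      have h1 := congrArg Complex.re h
      simp at h1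
      have h2 := hz.1.2
      norm_num at h1
      linarith
    have hd : ContinuousAt riemannZeta (1 / 2 + (z.1 : ℂ) + I * z.2) :=
      (differentiableAt_riemannZeta hne).continuousAt
    have hp : ContinuousAt (fun z : ℝ × ℝ => 1 / 2 + (z.1 : ℂ) + I * z.2) z := by
      fun_prop
    exact (ContinuousAt.comp (f := fun z : ℝ × ℝ => 1 / 2 + (z.1 : ℂ) + I * z.2)
      (g := riemannZeta) hd hp).norm.continuousWithinAt
  obtain ⟨M, hM⟩ := hcomp.exists_bound_of_continuousOn hcont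
  refine ⟨max 1 M, le_max_left _ _, fun δ t h0 h1 h2 h3 => ?_⟩
  have := hM (δ, t) ⟨⟨h0, h1⟩, ⟨h2, h3⟩⟩
  rw [Real.norm_of_nonneg (norm_nonneg _)] at this
  exact this.trans (le_max_right _ _)

/-- the integral over `[0, 4T]` and the moment at `4T + |x|` -/
lemma int_le (x β : ℝ) (hβ : 0 ≤ β) : ∃ B : ℝ, 0 ≤ B ∧ ∀ δ T : ℝ, 0 ≤ δ → δ ≤ 1 / 4 → 0 < T →
    ∫ y in (0 : ℝ)..(4 * T), ‖riemannZeta (1 / 2 + (δ : ℂ) + I * y)‖ ^ β ≤
      B + (4 * T + |x|) * V β x (4 * T + |x|) (δ : ℂ) := by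
  obtain ⟨M, hM1, hM⟩ := zeta_bdd x
  refine ⟨|x| * M ^ β, by positivity, fun δ T h0 h1 hT => ?_⟩
  have hTh : 0 < 4 * T + |x| := by positivity
  rw [V_eq hTh]
  refine (cover (cont_pow h1 hβ) (fun y => by positivity) (x := x) hT).trans ?_
  have h2 : ∫ y in (0 : ℝ)..|x|, ‖riemannZeta (1 / 2 + (δ : ℂ) + I * y)‖ ^ β ≤
      ∫ _y in (0 : ℝ)..|x|, M ^ β := by
    refine intervalIntegral.integral_mono_on (abs_nonneg x)
      ((cont_pow h1 hβ).intervalIntegrable _ _) (by simp) fun y hy => ?_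
    exact Real.rpow_le_rpow (norm_nonneg _) (hM δ y h0 h1 hy.1 hy.2) hβ
  rw [intervalIntegral.integral_const, sub_zero, smul_eq_mul] at h2
  linarith

/-- elementary facts on the logarithms -/
lemma log_facts {x T : ℝ} (h5 : 5 ≤ T) (hx : 1 + |x| ≤ T) :
    1 ≤ Real.log T ∧ Real.log T ≤ Real.log (4 * T + |x|) ∧
      Real.log (4 * T + |x|) ≤ Real.log T + Real.log 5 ∧
      Real.log (4 * T + |x|) ≤ 2 * Real.log T := by
  have hT0 : 0 < T := by linarith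
  have hx0 := abs_nonneg x
  have h1 : 1 ≤ Real.log T := by
    rw [Real.le_log_iff_exp_le hT0]
    have := Real.exp_one_lt_d9
    linarith
  have h2 : Real.log T ≤ Real.log (4 * T + |x|) := Real.log_le_log hT0 (by linarith)
  have h3 : Real.log (4 * T + |x|) ≤ Real.log (T * 5) :=
    Real.log_le_log (by linarith) (by linarith)
  rw [Real.log_mul hT0.ne' (by norm_num)] at h3
  have h4 : Real.log 5 ≤ Real.log T := Real.log_le_log (by norm_num) h5
  exact ⟨h1, h2, h3, by linarith⟩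

/-- from one line to the left of it -/
lemma main1 (h2 : R2) {x β K : ℝ} (hβ : 2 ≤ β) (hK : 0 ≤ K) (hB : BoundedAt β x K) :
    ∃ C T0 : ℝ, 5 ≤ T0 ∧ 1 + |x| ≤ T0 ∧ ∀ T : ℝ, T0 ≤ T → ∀ w : ℂ,
      -(K / Real.log (4 * T + |x|)) ≤ w.re → w.re ≤ 1 / 4 → |w.im| ≤ 1 →
      V β x T w ≤ C * Real.log T ^ (β ^ 2 / 4) := by
  obtain ⟨C2, hC2, hR2⟩ := h2 x β hβ
  obtain ⟨C0, T00, hV⟩ := hB
  obtain ⟨B, hB0, hint⟩ := int_le x β (by linarith)
  refine ⟨C2 * (1 + Real.exp (β * K) * (B + 5 * (|C0| * 2 ^ (β ^ 2 / 4)))),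
    max (max 5 (1 + |x|)) (max T00 (Real.exp (4 * K))),
    (le_max_left _ _).trans (le_max_left _ _), (le_max_right _ _).trans (le_max_left _ _), ?_⟩
  intro T hT w hw1 hw2 hw3
  have hT5 : 5 ≤ T := ((le_max_left _ _).trans (le_max_left _ _)).trans hT
  have hTx : 1 + |x| ≤ T := ((le_max_right _ _).trans (le_max_left _ _)).trans hT
  have hT00 : T00 ≤ T := ((le_max_left _ _).trans (le_max_right _ _)).trans hT
  have hTe : Real.exp (4 * K) ≤ T := ((le_max_right _ _).trans (le_max_right _ _)).trans hT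
  have hT0 : 0 < T := by linarith
  have hx0 := abs_nonneg x
  obtain ⟨hl1, hl2, hl3, hl4⟩ := log_facts hT5 hTx
  obtain ⟨l, hl⟩ : ∃ l, l = Real.log T := ⟨_, rfl⟩
  obtain ⟨lh, hlh⟩ : ∃ lh, lh = Real.log (4 * T + |x|) := ⟨_, rfl⟩
  rw [← hl] at hl1 hl2 hl3 hl4
  rw [← hlh] at hl2 hl3 hl4 hw1
  rw [← hl]
  have hK4 : 4 * K ≤ l := by
    rw [hl, Real.le_log_iff_exp_le hT0]
    exact hTe
  have hlh0 : 0 < lh := by linarith
  obtain ⟨δ, hδ⟩ : ∃ δ, δ = K / lh := ⟨_, rfl⟩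
  rw [← hδ] at hw1
  have hδ0 : 0 ≤ δ := by rw [hδ]; positivity
  have hδ4 : δ ≤ 1 / 4 := by
    rw [hδ, div_le_iff₀ hlh0]
    linarith
  have hδl : δ * l ≤ K := by
    have h1 : δ * l ≤ δ * lh := mul_le_mul_of_nonneg_left hl2 hδ0
    have h3 : δ * lh = K := by rw [hδ]; field_simp
    linarith
  obtain ⟨Λ, hΛ⟩ : ∃ Λ, Λ = l ^ (β ^ 2 / 4) := ⟨_, rfl⟩
  have hβ4 : 0 ≤ β ^ 2 / 4 := by positivity
  have hΛ1 : 1 ≤ Λ := by rw [hΛ]; exact Real.one_le_rpow hl1 hβ4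
  rw [← hΛ]
  have h1 := hR2 δ T hδ0 hδ4 hTx w hw1 hw2 hw3
  have h3 := hint δ T hδ0 hδ4 hT0
  -- the moment at `4T + |x|`
  have h4 : V β x (4 * T + |x|) (δ : ℂ) ≤ |C0| * 2 ^ (β ^ 2 / 4) * Λ := by
    have h5 := hV (4 * T + |x|) (by linarith)
    rw [← hlh, ← hδ] at h5
    refine h5.trans ?_
    have h6 : lh ^ (β ^ 2 / 4) ≤ 2 ^ (β ^ 2 / 4) * Λ := by
      rw [hΛ, ← Real.mul_rpow (by norm_num) (by linarith)]
      exact Real.rpow_le_rpow hlh0.le hl4 hβ4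
    calc C0 * lh ^ (β ^ 2 / 4) ≤ |C0| * lh ^ (β ^ 2 / 4) :=
          mul_le_mul_of_nonneg_right (le_abs_self _) (by positivity)
      _ ≤ |C0| * (2 ^ (β ^ 2 / 4) * Λ) := mul_le_mul_of_nonneg_left h6 (abs_nonneg _)
      _ = _ := by ring
  have h5 : (4 * T + |x|) * V β x (4 * T + |x|) (δ : ℂ) ≤
      (5 * T) * (|C0| * 2 ^ (β ^ 2 / 4) * Λ) :=
    mul_le_mul (by linarith) h4 (V_nonneg _ _ _ _) (by positivity)
  have h6 : T⁻¹ * (∫ y in (0 : ℝ)..(4 * T), ‖riemannZeta (1 / 2 + (δ : ℂ) + I * y)‖ ^ β) ≤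
      (B + 5 * (|C0| * 2 ^ (β ^ 2 / 4))) * Λ := by
    have h7 : T⁻¹ * (∫ y in (0 : ℝ)..(4 * T), ‖riemannZeta (1 / 2 + (δ : ℂ) + I * y)‖ ^ β) ≤
        T⁻¹ * (B + (5 * T) * (|C0| * 2 ^ (β ^ 2 / 4) * Λ)) :=
      mul_le_mul_of_nonneg_left (by linarith) (by positivity)
    refine h7.trans ?_
    have h8 : T⁻¹ * (B + (5 * T) * (|C0| * 2 ^ (β ^ 2 / 4) * Λ)) =
        T⁻¹ * B + 5 * (|C0| * 2 ^ (β ^ 2 / 4)) * Λ := by
      field_simp
    have h9 : T⁻¹ * B ≤ B * Λ := by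
      have h10 : T⁻¹ ≤ 1 := inv_le_one_of_one_le₀ (by linarith)
      calc T⁻¹ * B ≤ 1 * B := mul_le_mul_of_nonneg_right h10 hB0
        _ = B * 1 := by ring
        _ ≤ B * Λ := mul_le_mul_of_nonneg_left hΛ1 hB0
    rw [h8]
    linarith
  have h7 : T ^ (β * δ) ≤ Real.exp (β * K) := by
    rw [Real.rpow_def_of_pos hT0, ← hl]
    apply Real.exp_le_exp.2
    have : β * (δ * l) ≤ β * K := mul_le_mul_of_nonneg_left hδl (by linarith)
    linarith
  have h8 : 0 ≤ T⁻¹ * (∫ y in (0 : ℝ)..(4 * T), ‖riemannZeta (1 / 2 + (δ : ℂ) + I * y)‖ ^ β) :=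
    mul_nonneg (by positivity) (intervalIntegral.integral_nonneg (by linarith)
      fun y _ => by positivity)
  have h9 : T ^ (β * δ) *
      (T⁻¹ * (∫ y in (0 : ℝ)..(4 * T), ‖riemannZeta (1 / 2 + (δ : ℂ) + I * y)‖ ^ β)) ≤
      Real.exp (β * K) * ((B + 5 * (|C0| * 2 ^ (β ^ 2 / 4))) * Λ) :=
    mul_le_mul h7 h6 h8 (Real.exp_pos _).le
  refine h1.trans ?_
  calc C2 * (1 + T ^ (β * δ) * (T⁻¹ *
        (∫ y in (0 : ℝ)..(4 * T), ‖riemannZeta (1 / 2 + (δ : ℂ) + I * y)‖ ^ β)))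
      ≤ C2 * (Λ + Real.exp (β * K) * ((B + 5 * (|C0| * 2 ^ (β ^ 2 / 4))) * Λ)) :=
        mul_le_mul_of_nonneg_left (by linarith) hC2.le
    _ = _ := by ring

/-- the line can be moved to the right -/
lemma move (h2 : R2) {x β K K' : ℝ} (hβ : 2 ≤ β) (hK : 0 ≤ K) (hK' : 0 ≤ K')
    (hB : BoundedAt β x K) : BoundedAt β x K' := by
  obtain ⟨C, T0, h5, hx, h⟩ := main1 h2 hβ hK hB
  refine ⟨C, max T0 (Real.exp (4 * K')), fun T hT => ?_⟩
  have hT0 : T0 ≤ T := (le_max_left _ _).trans hT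
  have hTe : Real.exp (4 * K') ≤ T := (le_max_right _ _).trans hT
  have hTp : 0 < T := by linarith
  obtain ⟨hl1, hl2, -, -⟩ := log_facts (x := x) (T := T) (by linarith) (by linarith)
  have hK4 : 4 * K' ≤ Real.log T := by
    rw [Real.le_log_iff_exp_le hTp]
    exact hTe
  have hw0 : 0 ≤ K' / Real.log T := by positivity
  refine h T hT0 _ ?_ ?_ ?_
  · rw [Complex.ofReal_re]
    have : 0 ≤ K / Real.log (4 * T + |x|) := div_nonneg hK (by linarith)
    linarith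
  · rw [Complex.ofReal_re, div_le_iff₀ (by linarith)]
    linarith
  · rw [Complex.ofReal_im, abs_zero]
    exact zero_le_one

end R3x

open R3x in
theorem r3 (h2 : R2) : R3 := by
  intro x β K0 hβ hK0 hB A
  obtain ⟨K1, hK1⟩ : ∃ K1, K1 = |A| + 1 := ⟨_, rfl⟩
  have hA0 := abs_nonneg A
  have hAA := le_abs_self A
  have hK10 : 0 ≤ K1 := by rw [hK1]; positivity
  obtain ⟨C, T1, h5, hx, h⟩ := main1 h2 hβ hK10 (move h2 hβ hK0 hK10 hB)
  refine ⟨C, fun B => ?_⟩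
  refine ⟨max T1 (max (Real.exp (|A| * Real.log 5)) (Real.exp (4 * |B|))), ?_, ?_⟩
  · exact le_trans (by linarith) (le_max_left _ _)
  intro T hT z hz1 hz2
  have hTT1 : T1 ≤ T := (le_max_left _ _).trans hT
  have hTA : Real.exp (|A| * Real.log 5) ≤ T :=
    ((le_max_left _ _).trans (le_max_right _ _)).trans hT
  have hTB : Real.exp (4 * |B|) ≤ T := ((le_max_right _ _).trans (le_max_right _ _)).trans hT
  have hTp : 0 < T := by linarith
  obtain ⟨hl1, hl2, hl3, -⟩ := log_facts (x := x) (T := T) (by linarith) (by linarith)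
  obtain ⟨l, hl⟩ : ∃ l, l = Real.log T := ⟨_, rfl⟩
  obtain ⟨lh, hlh⟩ : ∃ lh, lh = Real.log (4 * T + |x|) := ⟨_, rfl⟩
  have hlA : |A| * Real.log 5 ≤ l := by
    rw [hl, Real.le_log_iff_exp_le hTp]
    exact hTA
  have hlB : 4 * |B| ≤ l := by
    rw [hl, Real.le_log_iff_exp_le hTp]
    exact hTB
  have key := h T hTT1 (z / (Real.log T : ℂ))
  rw [← hl] at hl1 hl2 hl3
  rw [← hlh] at hl2 hl3
  rw [← hl, ← hlh] at key
  rw [← hl]
  have hl0 : 0 < l := by linarith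
  have hlh0 : 0 < lh := by linarith
  have hre : (z / (l : ℂ)).re = z.re / l := by rw [Complex.div_ofReal_re]
  have him : (z / (l : ℂ)).im = z.im / l := by rw [Complex.div_ofReal_im]
  have hBB : ‖z‖ ≤ |B| := hz2.trans (le_abs_self B)
  refine key ?_ ?_ ?_
  · rw [hre, neg_le, ← neg_div, div_le_div_iff₀ hl0 hlh0]
    -- -z.re * lh ≤ K1 * l
    have h1 : -z.re ≤ |A| := by linarith
    have h3 : -z.re * lh ≤ |A| * lh := mul_le_mul_of_nonneg_right h1 hlh0.le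
    have h4 : |A| * lh ≤ |A| * (l + Real.log 5) := mul_le_mul_of_nonneg_left hl3 hA0
    have h6 : K1 * l = |A| * l + l := by rw [hK1]; ring
    rw [h6]
    linarith
  · rw [hre, div_le_iff₀ hl0]
    have := (Complex.re_le_norm z).trans hBB
    linarith
  · rw [him, abs_div, abs_of_pos hl0, div_le_one hl0]
    have := (Complex.abs_im_le_norm z).trans hBB
    have := abs_nonneg B
    linarith

end Pool.Agent.LFA
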