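import Pool.Agent.Lib.LFA.R3
import Pool.Agent.Lib.MP_f9aece_nt_n4.NearFinal

/-!
# Law from afar, row R4: the lower bound of the expected order on the line
-/

set_option autoImplicit false

namespace Pool.Agent.LFA

open Filter Topology Set Complex MeasureTheory

namespace R4x

/-- the lower bound at a fixed distance `K / log T` -/
lemma near (x β : ℝ) (hβ : 2 ≤ β) : ∃ K c T0 : ℝ, 0 < K ∧ 0 < c ∧ 5 ≤ T0 ∧
    ∀ T : ℝ, T0 ≤ T → K / Real.log T ≤ 1 / 4 ∧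
      c * Real.log T ^ (β ^ 2 / 4) ≤ V β x T ((K / Real.log T : ℝ) : ℂ) := by
  obtain ⟨N, hN⟩ := exists_nat_ge (β / 2)
  have hN1 : 1 ≤ N := by
    have : (1 : ℝ) ≤ N := by linarith
    exact_mod_cast this
  obtain ⟨C, hC, h⟩ := Pool.Agent.Lib.N4.nearFinal N hN1 x (1 / 2) (by norm_num)
  obtain ⟨A, hA⟩ : ∃ A : ℝ, A = ∏' p : Nat.Primes, ((1 - ((p : ℕ) : ℝ)⁻¹) ^ (β ^ 2 / 4)
        * ∑' i : ℕ, Pool.Agent.Lib.NL.bk (β / 2) i ^ 2 * (((p : ℕ) : ℝ)⁻¹) ^ i) := ⟨_, rfl⟩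
  have hfacts : ∀ T : ℝ, max 5 (max (Real.exp (C ^ 2)) (Real.exp (4 * C))) ≤ T →
      1 ≤ T ∧ 0 < C / Real.log T ∧ C / Real.log T ≤ 1 / C ∧ C / Real.log T ≤ 1 / 4 ∧
        C / Real.log T * Real.log T = C ∧ 0 < Real.log T := by
    intro T hT
    have h5 : 5 ≤ T := (le_max_left _ _).trans hT
    have h1 : Real.exp (C ^ 2) ≤ T := ((le_max_left _ _).trans (le_max_right _ _)).trans hT
    have h2 : Real.exp (4 * C) ≤ T := ((le_max_right _ _).trans (le_max_right _ _)).trans hT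
    have hTp : 0 < T := by linarith
    have h3 : C ^ 2 ≤ Real.log T := by rw [Real.le_log_iff_exp_le hTp]; exact h1
    have h4 : 4 * C ≤ Real.log T := by rw [Real.le_log_iff_exp_le hTp]; exact h2
    have h6 : 0 < Real.log T := by linarith
    refine ⟨by linarith, by positivity, ?_, ?_, by field_simp, h6⟩
    · rw [div_le_div_iff₀ h6 hC]
      nlinarith
    · rw [div_le_iff₀ h6]
      linarith
  have hA0 : 0 < A := by
    obtain ⟨h1, h2, h3, -, h5, -⟩ := hfacts _ le_rfl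
    have h6 := (h β _ _ (by linarith) (by linarith) h2 h3 h1 h5.ge).1
    rw [hA]
    exact h6
  refine ⟨C, 1 / 2 * (A * (2 * C) ^ (-(β ^ 2 / 4))),
    max 5 (max (Real.exp (C ^ 2)) (Real.exp (4 * C))), hC, by positivity, le_max_left _ _,
    fun T hT => ?_⟩
  obtain ⟨h1, h2, h3, h4, h5, h6⟩ := hfacts T hT
  refine ⟨h4, ?_⟩
  have h7 := (h β _ T (by linarith) (by linarith) h2 h3 h1 h5.ge).2.1
  rw [← hA] at h7
  have h8 : Pool.Agent.Lib.NL.momL β x (C / Real.log T) T =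
      V β x T ((C / Real.log T : ℝ) : ℂ) := by
    unfold Pool.Agent.Lib.NL.momL V
    refine intervalIntegral.integral_congr fun u _ => ?_
    congr 3
    ring
  rw [h8] at h7
  refine le_trans (le_of_eq ?_) h7
  have h9 : 2 * (C / Real.log T) = 2 * C * (Real.log T)⁻¹ := by
    rw [div_eq_mul_inv]
    ring
  have h10 : (2 * C * (Real.log T)⁻¹) ^ (-(β ^ 2 / 4)) =
      (2 * C) ^ (-(β ^ 2 / 4)) * Real.log T ^ (β ^ 2 / 4) := by
    rw [Real.mul_rpow (x := 2 * C) (y := (Real.log T)⁻¹) (by positivity) (by positivity),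
      Real.inv_rpow h6.le, Real.rpow_neg h6.le, inv_inv]
  rw [h9, h10]
  ring

end R4x

open R3x R4x in
theorem r4 (h2 : R2) : R4 := by
  intro x β hβ
  obtain ⟨K, c, T1, hK, hc, hT15, hnear⟩ := near x β hβ
  obtain ⟨C2, hC2, hR2⟩ := h2 x β hβ
  obtain ⟨B, hB0, hint⟩ := int_le x β (by linarith)
  have hx0 := abs_nonneg x
  have hβ4 : 0 < β ^ 2 / 4 := by positivity
  -- the error terms are small
  have hev : ∀ᶠ T : ℝ in atTop, 2 * (C2 * (1 + B)) / c ≤ Real.log T ^ (β ^ 2 / 4) :=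
    ((tendsto_rpow_atTop hβ4).comp Real.tendsto_log_atTop).eventually_ge_atTop _
  obtain ⟨T2, hT2⟩ := eventually_atTop.1 hev
  refine ⟨c / (10 * C2 * 2 ^ (β ^ 2 / 4)), 4 * max (max T1 T2) (1 + |x|) + |x|,
    by positivity, fun T' hT' => ?_⟩
  obtain ⟨T, hT⟩ : ∃ T, T = (T' - |x|) / 4 := ⟨_, rfl⟩
  have hT'T : T' = 4 * T + |x| := by rw [hT]; ring
  have hTm : max (max T1 T2) (1 + |x|) ≤ T := by rw [hT]; linarith
  have hTT1 : T1 ≤ T := ((le_max_left _ _).trans (le_max_left _ _)).trans hTm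
  have hTT2 : T2 ≤ T := ((le_max_right _ _).trans (le_max_left _ _)).trans hTm
  have hTx : 1 + |x| ≤ T := (le_max_right _ _).trans hTm
  have hTp : 0 < T := by linarith
  obtain ⟨hl1, hl2, hl3, hl4⟩ := log_facts (x := x) (T := T) (by linarith) hTx
  obtain ⟨hK4, hlow⟩ := hnear T hTT1
  have hsm := hT2 T hTT2
  rw [hT'T]
  obtain ⟨l, hl⟩ : ∃ l, l = Real.log T := ⟨_, rfl⟩
  obtain ⟨lh, hlh⟩ : ∃ lh, lh = Real.log (4 * T + |x|) := ⟨_, rfl⟩
  rw [← hl] at hl1 hl2 hl3 hl4 hK4 hlow hsm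
  rw [← hlh] at hl2 hl3 hl4
  rw [← hlh]
  obtain ⟨Λ, hΛ⟩ : ∃ Λ, Λ = l ^ (β ^ 2 / 4) := ⟨_, rfl⟩
  rw [← hΛ] at hlow hsm
  have hw0 : 0 ≤ K / l := by positivity
  have h3 := hR2 0 T le_rfl (by norm_num) hTx ((K / l : ℝ) : ℂ) (by simpa using hw0)
    (by simpa using hK4) (by simp)
  have h4 := hint 0 T le_rfl (by norm_num) hTp
  rw [mul_zero, Real.rpow_zero, one_mul] at h3
  have h5 : T⁻¹ * (∫ y in (0 : ℝ)..(4 * T), ‖riemannZeta (1 / 2 + ((0 : ℝ) : ℂ) + I * y)‖ ^ β) ≤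
      B + 5 * V β x (4 * T + |x|) ((0 : ℝ) : ℂ) := by
    have h6 : (4 * T + |x|) * V β x (4 * T + |x|) ((0 : ℝ) : ℂ) ≤
        (5 * T) * V β x (4 * T + |x|) ((0 : ℝ) : ℂ) :=
      mul_le_mul_of_nonneg_right (by linarith) (V_nonneg _ _ _ _)
    have h7 : T⁻¹ * (∫ y in (0 : ℝ)..(4 * T),
        ‖riemannZeta (1 / 2 + ((0 : ℝ) : ℂ) + I * y)‖ ^ β) ≤
        T⁻¹ * (B + (5 * T) * V β x (4 * T + |x|) ((0 : ℝ) : ℂ)) :=
      mul_le_mul_of_nonneg_left (by linarith) (by positivity)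
    refine h7.trans ?_
    have h8 : T⁻¹ * (B + (5 * T) * V β x (4 * T + |x|) ((0 : ℝ) : ℂ)) =
        T⁻¹ * B + 5 * V β x (4 * T + |x|) ((0 : ℝ) : ℂ) := by
      field_simp
    have h9 : T⁻¹ * B ≤ 1 * B :=
      mul_le_mul_of_nonneg_right (inv_le_one_of_one_le₀ (by linarith)) hB0
    rw [h8]
    linarith
  have h6 : c * Λ ≤ C2 * (1 + B) + 5 * C2 * V β x (4 * T + |x|) ((0 : ℝ) : ℂ) := by
    have h7 := mul_le_mul_of_nonneg_left (add_le_add_right h5 1) hC2.le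
    have h8 : C2 * (1 + (B + 5 * V β x (4 * T + |x|) ((0 : ℝ) : ℂ))) =
        C2 * (1 + B) + 5 * C2 * V β x (4 * T + |x|) ((0 : ℝ) : ℂ) := by ring
    linarith
  have h7 : 2 * (C2 * (1 + B)) ≤ c * Λ := by
    rw [div_le_iff₀ hc] at hsm
    linarith
  have h8 : c * Λ ≤ 10 * C2 * V β x (4 * T + |x|) ((0 : ℝ) : ℂ) := by linarith
  have h9 : lh ^ (β ^ 2 / 4) ≤ 2 ^ (β ^ 2 / 4) * Λ := by
    rw [hΛ, ← Real.mul_rpow (by norm_num) (by linarith)]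
    exact Real.rpow_le_rpow (by linarith) hl4 hβ4.le
  have h10 : (((0 : ℝ) : ℂ)) = 0 := Complex.ofReal_zero
  rw [h10] at h8
  have h2p : (0 : ℝ) < 2 ^ (β ^ 2 / 4) := by positivity
  rw [div_mul_eq_mul_div, div_le_iff₀ (by positivity)]
  calc c * lh ^ (β ^ 2 / 4) ≤ c * (2 ^ (β ^ 2 / 4) * Λ) := mul_le_mul_of_nonneg_left h9 hc.le
    _ = 2 ^ (β ^ 2 / 4) * (c * Λ) := by ring
    _ ≤ 2 ^ (β ^ 2 / 4) * (10 * C2 * V β x (4 * T + |x|) 0) :=
        mul_le_mul_of_nonneg_left h8 h2p.le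
    _ = _ := by ring

end Pool.Agent.LFA
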