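import Pool.Agent.Lib.LFA.Rows

/-! # Law from afar: rows R5a, R5a' (the shifted moments are holomorphic in the shifts) -/

set_option autoImplicit false

namespace Pool.Agent.LFA

open Filter Topology Set Complex MeasureTheory

namespace R5Ax

/-- no pole: the real part of the shift is smaller than `1/2` -/
lemma ne_one {L : ℝ} (hL : 0 < L) {z : ℂ} (hz : ‖z‖ < L / 2) (y : ℂ) (hy : y.re = 0) :
    1 / 2 + z / L + y ≠ 1 := by
  intro h
  have h1 : (z / (L : ℂ)).re = 1 / 2 := by
    have := congrArg Complex.re h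
    rw [add_re, add_re, hy] at this
    have h0 : ((1 : ℂ) / 2).re = 1 / 2 := by norm_num
    rw [h0, one_re] at this
    linarith
  have h2 : |(z / (L : ℂ)).re| ≤ ‖z / (L : ℂ)‖ := abs_re_le_norm _
  rw [h1, norm_div, Complex.norm_of_nonneg hL.le, abs_of_pos (by norm_num),
    le_div_iff₀ hL] at h2
  linarith

lemma re_zero (x u T : ℝ) : (I * ((x : ℂ) + (u : ℂ) * (T : ℂ))).re = 0 := by
  have : I * ((x : ℂ) + (u : ℂ) * (T : ℂ)) = ((x + u * T : ℝ) : ℂ) * I := by push_cast; ring
  rw [this]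
  simp

/-- the two factors, for `a = 1` and `a = -1` -/
lemma cont_fac {L : ℝ} (hL : 0 < L) (x T : ℝ) (a : ℂ) (ha : a.im = 0) (f : ℂ → ℂ)
    (hf : DifferentiableOn ℂ f (Metric.ball 0 (L / 2)))
    (hb : ∀ s ∈ Metric.ball (0 : ℂ) (L / 2), ‖f s‖ < L / 2) :
    ContinuousOn (fun p : ℂ × ℝ => riemannZeta (1 / 2 + f p.1 / L + a * (I * (x + p.2 * T))))
      (Metric.ball 0 (L / 2) ×ˢ Icc (0 : ℝ) 1) := by
  intro p hp
  have h1 : 1 / 2 + f p.1 / L + a * (I * (x + p.2 * T)) ≠ 1 := by
    refine ne_one hL (hb _ hp.1) _ ?_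
    rw [mul_re, re_zero, ha]
    simp
  have h2 : ContinuousWithinAt (fun p : ℂ × ℝ => f p.1)
      (Metric.ball 0 (L / 2) ×ˢ Icc (0 : ℝ) 1) p :=
    (hf.continuousOn p.1 hp.1).comp continuous_fst.continuousWithinAt fun q hq => hq.1
  have h3 : ContinuousWithinAt (fun p : ℂ × ℝ => 1 / 2 + f p.1 / L + a * (I * (x + p.2 * T)))
      (Metric.ball 0 (L / 2) ×ˢ Icc (0 : ℝ) 1) p :=
    (continuousWithinAt_const.add (h2.div_const _)).add
      (Continuous.continuousWithinAt (by fun_prop))
  exact ContinuousAt.comp_continuousWithinAt (g := riemannZeta)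
    (differentiableAt_riemannZeta h1).continuousAt h3

lemma diff_fac {L : ℝ} (hL : 0 < L) (x T u : ℝ) (a : ℂ) (ha : a.im = 0) (f : ℂ → ℂ)
    (hf : DifferentiableOn ℂ f (Metric.ball 0 (L / 2)))
    (hb : ∀ s ∈ Metric.ball (0 : ℂ) (L / 2), ‖f s‖ < L / 2) :
    DifferentiableOn ℂ (fun s => riemannZeta (1 / 2 + f s / L + a * (I * (x + u * T))))
      (Metric.ball 0 (L / 2)) := by
  intro s hs
  have h1 : 1 / 2 + f s / L + a * (I * (x + u * T)) ≠ 1 := by
    refine ne_one hL (hb _ hs) _ ?_
    rw [mul_re, re_zero, ha]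
    simp
  exact (differentiableAt_riemannZeta h1).comp_differentiableWithinAt s
    ((((hf s hs).div_const _).const_add _).add_const _)

/-- the general statement -/
lemma gen (h0 : R0) (k : ℕ) (x T : ℝ) (hT : 3 ≤ T) (Z W : ℂ → Fin k → ℂ)
    (hZ : ∀ j, DifferentiableOn ℂ (fun s => Z s j) (Metric.ball 0 (Real.log T / 2)))
    (hW : ∀ j, DifferentiableOn ℂ (fun s => W s j) (Metric.ball 0 (Real.log T / 2)))
    (hZb : ∀ s ∈ Metric.ball (0 : ℂ) (Real.log T / 2), ∀ j, ‖Z s j‖ < Real.log T / 2)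
    (hWb : ∀ s ∈ Metric.ball (0 : ℂ) (Real.log T / 2), ∀ j, ‖W s j‖ < Real.log T / 2) :
    DifferentiableOn ℂ (fun s => shifted k x T (Z s) (W s))
      (Metric.ball 0 (Real.log T / 2)) := by
  have hL : 0 < Real.log T := Real.log_pos (by linarith)
  simp only [shifted]
  refine DifferentiableOn.const_mul ?_ _
  have e : ∀ (s : ℂ) (u : ℝ),
      (∏ j, riemannZeta (1 / 2 + Z s j / Real.log T + I * (x + u * T))) *
      ∏ j, riemannZeta (1 / 2 + W s j / Real.log T - I * (x + u * T)) =
      (∏ j, riemannZeta (1 / 2 + Z s j / Real.log T + 1 * (I * (x + u * T)))) *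
      ∏ j, riemannZeta (1 / 2 + W s j / Real.log T + (-1) * (I * (x + u * T))) := by
    intro s u
    simp only [one_mul, neg_mul, sub_eq_add_neg]
  simp only [e]
  refine h0 _ Metric.isOpen_ball (fun s u =>
    (∏ j, riemannZeta (1 / 2 + Z s j / Real.log T + 1 * (I * (x + u * T)))) *
      ∏ j, riemannZeta (1 / 2 + W s j / Real.log T + (-1) * (I * (x + u * T)))) ?_ ?_
  · refine ContinuousOn.mul (continuousOn_finsetProd _ fun j _ => ?_)
      (continuousOn_finsetProd _ fun j _ => ?_)
    · exact cont_fac hL x T 1 (by simp) (fun s => Z s j) (hZ j) fun s hs => hZb s hs j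
    · exact cont_fac hL x T (-1) (by simp) (fun s => W s j) (hW j) fun s hs => hWb s hs j
  · intro u _
    refine DifferentiableOn.mul (DifferentiableOn.fun_finsetProd fun j _ => ?_)
      (DifferentiableOn.fun_finsetProd fun j _ => ?_)
    · exact diff_fac hL x T u 1 (by simp) (fun s => Z s j) (hZ j) fun s hs => hZb s hs j
    · exact diff_fac hL x T u (-1) (by simp) (fun s => W s j) (hW j) fun s hs => hWb s hs j

lemma upd_diff {k : ℕ} (z : Fin k → ℂ) (j i : Fin k) (U : Set ℂ) :
    DifferentiableOn ℂ (fun s => Function.update z j s i) U := by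
  by_cases h : i = j
  · subst h
    simp only [Function.update_self]
    exact differentiableOn_id
  · simp only [Function.update_of_ne h]
    exact differentiableOn_const (z i)

lemma upd_bd {k : ℕ} (z : Fin k → ℂ) (j : Fin k) {r : ℝ} (hz : ∀ j, ‖z j‖ < r) {s : ℂ}
    (hs : s ∈ Metric.ball (0 : ℂ) r) (i : Fin k) : ‖Function.update z j s i‖ < r := by
  by_cases h : i = j
  · subst h
    simpa using hs
  · rw [Function.update_of_ne h]
    exact hz i

end R5Ax

theorem r5a (h0 : R0) : R5a := by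
  intro k x T hT z w hz hw j
  refine ⟨?_, ?_⟩
  · exact R5Ax.gen h0 k x T hT (fun s => Function.update z j s) (fun _ => w)
      (fun i => R5Ax.upd_diff z j i _) (fun i => differentiableOn_const _)
      (fun s hs i => R5Ax.upd_bd z j hz hs i) (fun s _ i => hw i)
  · exact R5Ax.gen h0 k x T hT (fun _ => z) (fun s => Function.update w j s)
      (fun i => differentiableOn_const _) (fun i => R5Ax.upd_diff w j i _)
      (fun s _ i => hz i) (fun s hs i => R5Ax.upd_bd w j hw hs i)

theorem r5a' (h0 : R0) : R5a' := by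
  intro k x T hT
  refine R5Ax.gen h0 k x T hT (fun s _ => s) (fun s _ => s) (fun i => differentiableOn_id)
    (fun i => differentiableOn_id) ?_ ?_
  · intro s hs i; simpa using hs
  · intro s hs i; simpa using hs

end Pool.Agent.LFA
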