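import Pool.Agent.Lib.LFA.Rows

/-! row R5b: the shifted moment is bounded by moments (arithmetic and geometric mean) -/

set_option autoImplicit false

namespace Pool.Agent.LFA

open Filter Topology Set Complex MeasureTheory

namespace R5Bx

/-- geometric mean of `2k` numbers -/
theorem amgm {k : ℕ} (hk : 1 ≤ k) (a b : Fin k → ℝ) (ha : ∀ j, 0 ≤ a j) (hb : ∀ j, 0 ≤ b j) :
    (∏ j, a j) * ∏ j, b j ≤
      1 / (2 * (k : ℝ)) * ∑ j, (a j ^ (2 * (k : ℝ)) + b j ^ (2 * (k : ℝ))) := by
  have hk0 : (0 : ℝ) < k := by exact_mod_cast hk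
  have hp : (0 : ℝ) < 2 * k := by positivity
  have key := Real.geom_mean_le_arith_mean_weighted (Finset.univ : Finset (Fin k ⊕ Fin k))
    (fun _ => 1 / (2 * (k : ℝ)))
    (Sum.elim (fun j => a j ^ (2 * (k : ℝ))) (fun j => b j ^ (2 * (k : ℝ))))
    (fun _ _ => by positivity)
    (by
      rw [Finset.sum_const, Finset.card_univ, Fintype.card_sum, Fintype.card_fin, nsmul_eq_mul]
      push_cast
      field_simp
      ring)
    (by
      rintro (j | j) _
      · exact Real.rpow_nonneg (ha j) _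
      · exact Real.rpow_nonneg (hb j) _)
  have hroot : ∀ x : ℝ, 0 ≤ x → (x ^ (2 * (k : ℝ))) ^ (1 / (2 * (k : ℝ))) = x := by
    intro x hx
    rw [← Real.rpow_mul hx, mul_one_div_cancel hp.ne', Real.rpow_one]
  rw [Fintype.prod_sum_type, Fintype.sum_sum_type] at key
  simp only [Sum.elim_inl, Sum.elim_inr] at key
  have e1 : ∀ j, (a j ^ (2 * (k : ℝ))) ^ (1 / (2 * (k : ℝ))) = a j := fun j => hroot _ (ha j)
  have e2 : ∀ j, (b j ^ (2 * (k : ℝ))) ^ (1 / (2 * (k : ℝ))) = b j := fun j => hroot _ (hb j)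
  simp only [e1, e2] at key
  refine key.trans (le_of_eq ?_)
  rw [Finset.sum_add_distrib, mul_add, Finset.mul_sum, Finset.mul_sum]

/-- the zeta function along a vertical segment to the left of `1` is continuous -/
theorem cont_zeta (c : ℂ) (hc : c.re < 1 / 2) (x T : ℝ) :
    Continuous fun u : ℝ => riemannZeta (1 / 2 + c + I * (x + u * T)) := by
  refine continuous_iff_continuousAt.2 fun u => ?_
  have h1 : (1 / 2 + c + I * (x + u * T) : ℂ) ≠ 1 := by
    intro h
    have := congrArg Complex.re h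
    simp at this
    linarith
  exact ContinuousAt.comp (f := fun u : ℝ => (1 / 2 + c + I * (x + u * T) : ℂ))
    (differentiableAt_riemannZeta h1).continuousAt (by fun_prop)

end R5Bx

open R5Bx in
theorem r5b : R5b := by
  intro k x T M hk hT z w hz hw hVz hVw
  have hk0 : (0 : ℝ) < k := by exact_mod_cast hk
  have hp : (0 : ℝ) < 2 * k := by positivity
  have hL : 0 < Real.log T := Real.log_pos (by linarith)
  have hsm : ∀ v : ℂ, ‖v‖ < Real.log T / 2 → (v / Real.log T).re < 1 / 2 := by
    intro v hv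
    rw [Complex.div_ofReal_re, div_lt_iff₀ hL]
    calc v.re ≤ ‖v‖ := Complex.re_le_norm v
      _ < Real.log T / 2 := hv
      _ = 1 / 2 * Real.log T := by ring
  set a : Fin k → ℝ → ℝ := fun j u => ‖riemannZeta (1 / 2 + z j / Real.log T + I * (x + u * T))‖
    with ha
  set b : Fin k → ℝ → ℝ := fun j u =>
    ‖riemannZeta (1 / 2 + (starRingEnd ℂ) (w j) / Real.log T + I * (x + u * T))‖ with hb
  have hab : ∀ (j : Fin k) (u : ℝ),
      ‖riemannZeta (1 / 2 + w j / Real.log T - I * (x + u * T))‖ = b j u := by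
    intro j u
    have e : (1 / 2 + w j / Real.log T - I * (x + u * T) : ℂ) =
        (starRingEnd ℂ) (1 / 2 + (starRingEnd ℂ) (w j) / Real.log T + I * (x + u * T)) := by
      simp only [map_add, map_div₀, map_mul, Complex.conj_conj, Complex.conj_I,
        Complex.conj_ofReal, map_one, map_ofNat]
      ring
    rw [e, riemannZeta_conj, RCLike.norm_conj]
  have hac : ∀ j, Continuous (a j) := fun j => (cont_zeta _ (hsm _ (hz j)) x T).norm
  have hbc : ∀ j, Continuous (b j) := fun j => (cont_zeta _ (hsm _ (by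
    rw [RCLike.norm_conj]; exact hw j)) x T).norm
  have hpow : ∀ f : ℝ → ℝ, Continuous f → Continuous fun u => f u ^ (2 * (k : ℝ)) :=
    fun f hf => hf.rpow_const fun _ => Or.inr hp.le
  unfold shifted
  rw [norm_mul, norm_inv, norm_pow, Complex.norm_real, Real.norm_of_nonneg hL.le,
    inv_mul_le_iff₀ (by positivity)]
  have h1 : ‖∫ u in (0 : ℝ)..1,
      (∏ j, riemannZeta (1 / 2 + z j / Real.log T + I * (x + u * T))) *
      ∏ j, riemannZeta (1 / 2 + w j / Real.log T - I * (x + u * T))‖ ≤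
      ∫ u in (0 : ℝ)..1, 1 / (2 * (k : ℝ)) * ∑ j, (a j u ^ (2 * (k : ℝ)) + b j u ^ (2 * (k : ℝ))) := by
    refine intervalIntegral.norm_integral_le_of_norm_le zero_le_one
      (Filter.Eventually.of_forall fun u _ => ?_) ?_
    · rw [norm_mul, norm_prod, norm_prod]
      simp only [hab]
      exact amgm hk _ _ (fun j => norm_nonneg _) (fun j => norm_nonneg _)
    · exact (continuous_const.mul (continuous_finsetSum _ fun j _ =>
        (hpow _ (hac j)).add (hpow _ (hbc j)))).intervalIntegrable _ _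
  refine h1.trans ?_
  rw [intervalIntegral.integral_const_mul, intervalIntegral.integral_finsetSum
    (f := fun j u => a j u ^ (2 * (k : ℝ)) + b j u ^ (2 * (k : ℝ)))
    (fun j _ => ((hpow _ (hac j)).add (hpow _ (hbc j))).intervalIntegrable _ _)]
  have h2 : ∀ j : Fin k, ∫ u in (0 : ℝ)..1, (a j u ^ (2 * (k : ℝ)) + b j u ^ (2 * (k : ℝ))) ≤
      2 * (M * Real.log T ^ (k ^ 2)) := by
    intro j
    rw [intervalIntegral.integral_add ((hpow _ (hac j)).intervalIntegrable _ _)
      ((hpow _ (hbc j)).intervalIntegrable _ _)]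
    have e1 := hVz j
    have e2 := hVw j
    unfold V at e1 e2
    simp only [ha, hb]
    linarith
  calc 1 / (2 * (k : ℝ)) * ∑ j : Fin k, ∫ u in (0 : ℝ)..1,
        (a j u ^ (2 * (k : ℝ)) + b j u ^ (2 * (k : ℝ)))
      ≤ 1 / (2 * (k : ℝ)) * ∑ _j : Fin k, 2 * (M * Real.log T ^ (k ^ 2)) := by
        gcongr with j _
        exact h2 j
    _ = Real.log T ^ (k ^ 2) * M := by
        rw [Finset.sum_const, Finset.card_univ, Fintype.card_fin, nsmul_eq_mul]
        field_simp

end Pool.Agent.LFA
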