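import Pool.Agent.Lib.LFA.Rows

/-!
# Law from afar, row R6: Schwarz lemma with several zeros in a disk.  (helper63)
-/

set_option autoImplicit false

namespace Pool.Agent.LFA

open Filter Topology Set Complex MeasureTheory

namespace R6x

/-- On the circle the Blaschke factor has modulus one. -/
theorem circle_eq {r : ℝ} {a b : ℂ} (hb : ‖b‖ = r) :
    ‖(r : ℂ) ^ 2 - (starRingEnd ℂ) a * b‖ = r * ‖b - a‖ := by
  have h1 : (r : ℂ) ^ 2 = (starRingEnd ℂ) b * b := by
    rw [← Complex.normSq_eq_conj_mul_self, Complex.normSq_eq_norm_sq, hb]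
    push_cast
    rfl
  have h2 : (r : ℂ) ^ 2 - (starRingEnd ℂ) a * b = (starRingEnd ℂ) (b - a) * b := by
    rw [h1, map_sub]
    ring
  rw [h2, norm_mul, Complex.norm_conj, hb]
  ring

theorem den_ne {r : ℝ} (hr : 0 < r) {a b : ℂ} (ha : ‖a‖ < r) (hb : ‖b‖ ≤ r) :
    (r : ℂ) ^ 2 - (starRingEnd ℂ) a * b ≠ 0 := by
  intro h
  have h1 : (r : ℂ) ^ 2 = (starRingEnd ℂ) a * b := sub_eq_zero.1 h
  have h2 := congrArg norm h1
  rw [norm_pow, norm_mul, Complex.norm_conj, Complex.norm_real, Real.norm_eq_abs,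
    abs_of_pos hr] at h2
  have h3 : ‖a‖ * ‖b‖ ≤ ‖a‖ * r := mul_le_mul_of_nonneg_left hb (norm_nonneg _)
  nlinarith

theorem main (c : ℂ) (r C : ℝ) (hr : 0 < r) (F : Finset ℂ) : ∀ f : ℂ → ℂ,
    ContinuousOn f (Metric.closedBall c r) → DifferentiableOn ℂ f (Metric.ball c r) →
    (∀ z ∈ Metric.closedBall c r, ‖f z‖ ≤ C) →
    (∀ s ∈ F, s ∈ Metric.ball c r ∧ f s = 0) → ∀ z ∈ Metric.ball c r,
    ‖f z‖ ≤ C * ∏ s ∈ F,
      (r * ‖z - s‖ / ‖(r : ℂ) ^ 2 - (starRingEnd ℂ) (s - c) * (z - c)‖) := by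
  classical
  induction F using Finset.induction_on with
  | empty =>
    intro f _ _ hb _ z hz
    rw [Finset.prod_empty, mul_one]
    exact hb z (Metric.ball_subset_closedBall hz)
  | insert s F hs ih =>
    intro f hc hd hb hF z hz
    obtain ⟨hsb, hs0⟩ := hF s (Finset.mem_insert_self s F)
    have hnb : Metric.ball c r ∈ 𝓝 s := Metric.isOpen_ball.mem_nhds hsb
    have hnc : Metric.closedBall c r ∈ 𝓝 s :=
      mem_of_superset hnb Metric.ball_subset_closedBall
    have hds : DifferentiableAt ℂ f s := hd.differentiableAt hnb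
    set g : ℂ → ℂ := fun z => dslope f s z *
      (((r : ℂ) ^ 2 - (starRingEnd ℂ) (s - c) * (z - c)) / r) with hg
    have hq : Continuous fun z : ℂ => ((r : ℂ) ^ 2 - (starRingEnd ℂ) (s - c) * (z - c)) / r := by
      fun_prop
    have hqd : Differentiable ℂ fun z : ℂ =>
        ((r : ℂ) ^ 2 - (starRingEnd ℂ) (s - c) * (z - c)) / r := by
      fun_prop
    have gc : ContinuousOn g (Metric.closedBall c r) :=
      ((continuousOn_dslope hnc).2 ⟨hc, hds⟩).mul hq.continuousOn
    have gd : DifferentiableOn ℂ g (Metric.ball c r) :=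
      ((Complex.differentiableOn_dslope hnb).2 hd).mul hqd.differentiableOn
    have hsa : ‖s - c‖ < r := mem_ball_iff_norm.1 hsb
    have hrc : ‖(r : ℂ)‖ = r := by rw [Complex.norm_real, Real.norm_eq_abs, abs_of_pos hr]
    have hfac : ∀ w, w ≠ s → ‖g w‖ * (r * ‖w - s‖) =
        ‖f w‖ * ‖(r : ℂ) ^ 2 - (starRingEnd ℂ) (s - c) * (w - c)‖ := by
      intro w hw
      have h1 : ‖w - s‖ ≠ 0 := norm_ne_zero_iff.2 (sub_ne_zero.2 hw)
      simp only [hg]
      rw [dslope_of_ne f hw, slope_def_field, hs0, sub_zero, norm_mul, norm_div, norm_div, hrc]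
      field_simp
    have gb : ∀ w ∈ Metric.closedBall c r, ‖g w‖ ≤ C := by
      have hcl : closure (Metric.ball c r) = Metric.closedBall c r := closure_ball c hr.ne'
      have hfr : frontier (Metric.ball c r) = Metric.sphere c r := frontier_ball c hr.ne'
      intro w hw
      refine Complex.norm_le_of_forall_mem_frontier_norm_le (U := Metric.ball c r)
        Metric.isBounded_ball ⟨gd, by rw [hcl]; exact gc⟩ ?_ (by rwa [hcl])
      intro y hy
      rw [hfr] at hy
      have hy2 : ‖y - c‖ = r := mem_sphere_iff_norm.1 hy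
      have hys : y ≠ s := by
        rintro rfl
        exact absurd hy2 hsa.ne
      have h1 := hfac y hys
      rw [circle_eq hy2] at h1
      have h2 : y - c - (s - c) = y - s := by ring
      rw [h2] at h1
      have h3 : r * ‖y - s‖ ≠ 0 :=
        mul_ne_zero hr.ne' (norm_ne_zero_iff.2 (sub_ne_zero.2 hys))
      have h4 : ‖g y‖ = ‖f y‖ := mul_right_cancel₀ h3 h1
      rw [h4]
      exact hb y (Metric.sphere_subset_closedBall hy)
    have gF : ∀ t ∈ F, t ∈ Metric.ball c r ∧ g t = 0 := by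
      intro t ht
      obtain ⟨h1, h2⟩ := hF t (Finset.mem_insert_of_mem ht)
      refine ⟨h1, ?_⟩
      have hts : t ≠ s := fun h => hs (h ▸ ht)
      simp only [hg]
      rw [dslope_of_ne f hts, slope_def_field, hs0, h2, sub_zero, zero_div, zero_mul]
    have h5 := ih g gc gd gb gF z hz
    rw [Finset.prod_insert hs]
    by_cases hzs : z = s
    · rw [hzs, hs0, norm_zero, sub_self, norm_zero, mul_zero, zero_div, zero_mul, mul_zero]
    · have hza : ‖z - c‖ < r := mem_ball_iff_norm.1 hz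
      have hD : 0 < ‖(r : ℂ) ^ 2 - (starRingEnd ℂ) (s - c) * (z - c)‖ :=
        norm_pos_iff.2 (den_ne hr hsa hza.le)
      have h6 : ‖f z‖ = ‖g z‖ *
          (r * ‖z - s‖ / ‖(r : ℂ) ^ 2 - (starRingEnd ℂ) (s - c) * (z - c)‖) := by
        rw [mul_div_assoc', eq_div_iff hD.ne', hfac z hzs]
      rw [h6]
      calc ‖g z‖ * (r * ‖z - s‖ / ‖(r : ℂ) ^ 2 - (starRingEnd ℂ) (s - c) * (z - c)‖) ≤
            (C * ∏ s ∈ F, (r * ‖z - s‖ / ‖(r : ℂ) ^ 2 - (starRingEnd ℂ) (s - c) * (z - c)‖)) *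
            (r * ‖z - s‖ / ‖(r : ℂ) ^ 2 - (starRingEnd ℂ) (s - c) * (z - c)‖) := by
            gcongr
        _ = _ := by ring

end R6x

/-- **Row R6.** -/
theorem r6 : R6 := by
  intro c r C hr f hd hb F hF z hz
  exact R6x.main c r C hr F f hd.continuousOn (hd.mono Metric.ball_subset_closedBall) hb hF z hz

end Pool.Agent.LFA
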