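import Pool.Agent.Lib.LFA.Rows

/-!
# Law from afar, row R7: the Blaschke product of a half plane.  (helper63)
-/

set_option autoImplicit false

namespace Pool.Agent.LFA

open Filter Topology Set Complex MeasureTheory

namespace R7x

/-- The identity for the Blaschke factor of a disk. -/
theorem factor_id (r : ℝ) (a b : ℂ) :
    ‖(r : ℂ) ^ 2 - (starRingEnd ℂ) a * b‖ ^ 2 =
      (r * ‖b - a‖) ^ 2 + (r ^ 2 - ‖a‖ ^ 2) * (r ^ 2 - ‖b‖ ^ 2) := by
  rw [mul_pow]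
  rw [← Complex.normSq_eq_norm_sq, ← Complex.normSq_eq_norm_sq, ← Complex.normSq_eq_norm_sq,
    ← Complex.normSq_eq_norm_sq]
  simp only [Complex.normSq_apply, Complex.sub_re, Complex.sub_im, Complex.mul_re, Complex.mul_im,
    Complex.conj_re, Complex.conj_im, Complex.ofReal_re, Complex.ofReal_im, pow_two]
  ring

/-- The square of the distance to the centre of the disk. -/
theorem dist_sq (r A : ℝ) (w : ℂ) :
    r ^ 2 - ‖w - ((r - A : ℝ) : ℂ)‖ ^ 2 = 2 * r * (w.re + A) - ‖w + (A : ℂ)‖ ^ 2 := by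
  rw [← Complex.normSq_eq_norm_sq, ← Complex.normSq_eq_norm_sq]
  simp only [Complex.normSq_apply, Complex.sub_re, Complex.sub_im, Complex.add_re, Complex.add_im,
    Complex.ofReal_re, Complex.ofReal_im]
  ring

/-- One factor. -/
theorem factor_le {A B r : ℝ} (hA : 1 ≤ A) (hBA : B < A) {z s : ℂ} (hz : ‖z‖ ≤ B)
    (hs : 0 ≤ s.re) (hr0 : 0 < r) (hr1 : (2 * A) ^ 2 ≤ r * (A - B)) (hr2 : 2 * A ≤ r)
    (hr3 : ‖s + (A : ℂ)‖ ^ 2 ≤ r * (s.re + A)) :
    z ∈ Metric.ball ((r - A : ℝ) : ℂ) r ∧ s ∈ Metric.ball ((r - A : ℝ) : ℂ) r ∧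
    r * ‖z - s‖ / ‖(r : ℂ) ^ 2 - (starRingEnd ℂ) (s - (r - A : ℝ)) * (z - (r - A : ℝ))‖ ≤
      Real.exp (-((A - B) / (64 * A ^ 2) * ((1 + s.re) / (1 + ‖s‖ ^ 2)))) := by
  have hA0 : 0 < A := by linarith
  have hAB : 0 < A - B := by linarith
  have hzr : -B ≤ z.re := by
    have := Complex.abs_re_le_norm z
    have h2 := (abs_le.1 this).1
    linarith
  have hzn : ‖z + (A : ℂ)‖ ≤ 2 * A := by
    refine (norm_add_le _ _).trans ?_
    rw [Complex.norm_real, Real.norm_eq_abs, abs_of_pos hA0]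
    linarith
  have hzA : A - B ≤ z.re + A := by linarith
  have hsA : 1 ≤ s.re + A := by linarith
  -- distances
  have h1 : r * (z.re + A) ≤ r ^ 2 - ‖z - ((r - A : ℝ) : ℂ)‖ ^ 2 := by
    rw [dist_sq]
    have h2 : ‖z + (A : ℂ)‖ ^ 2 ≤ (2 * A) ^ 2 := pow_le_pow_left₀ (norm_nonneg _) hzn 2
    have h3 : r * (A - B) ≤ r * (z.re + A) := mul_le_mul_of_nonneg_left hzA hr0.le
    linarith
  have h2 : r * (s.re + A) ≤ r ^ 2 - ‖s - ((r - A : ℝ) : ℂ)‖ ^ 2 := by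
    rw [dist_sq]
    linarith
  have hzball : ‖z - ((r - A : ℝ) : ℂ)‖ < r := by
    have h3 : 0 < r * (z.re + A) := mul_pos hr0 (by linarith)
    nlinarith [norm_nonneg (z - ((r - A : ℝ) : ℂ))]
  have hsball : ‖s - ((r - A : ℝ) : ℂ)‖ < r := by
    have h3 : 0 < r * (s.re + A) := mul_pos hr0 (by linarith)
    nlinarith [norm_nonneg (s - ((r - A : ℝ) : ℂ))]
  refine ⟨mem_ball_iff_norm.2 hzball, mem_ball_iff_norm.2 hsball, ?_⟩
  set D := ‖(r : ℂ) ^ 2 - (starRingEnd ℂ) (s - (r - A : ℝ)) * (z - (r - A : ℝ))‖ with hD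
  have hid := factor_id r (s - ((r - A : ℝ) : ℂ)) (z - ((r - A : ℝ) : ℂ))
  have hzs : z - ((r - A : ℝ) : ℂ) - (s - ((r - A : ℝ) : ℂ)) = z - s := by ring
  rw [hzs, ← hD] at hid
  -- lower bound of the defect
  have hpr : r ^ 2 * ((A - B) * (s.re + A)) ≤
      (r ^ 2 - ‖s - ((r - A : ℝ) : ℂ)‖ ^ 2) * (r ^ 2 - ‖z - ((r - A : ℝ) : ℂ)‖ ^ 2) := by
    have h4 : 0 ≤ r * (z.re + A) := by
      apply mul_nonneg hr0.le
      linarith
    have h5 : 0 ≤ r * (s.re + A) := by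
      apply mul_nonneg hr0.le
      linarith
    calc r ^ 2 * ((A - B) * (s.re + A)) = (r * (s.re + A)) * (r * (A - B)) := by ring
      _ ≤ (r * (s.re + A)) * (r * (z.re + A)) := by gcongr
      _ ≤ _ := mul_le_mul h2 h1 h4 (h5.trans h2)
  -- upper bound of the denominator
  have hDle : D ≤ r * (2 * A + 2 * ‖s + (A : ℂ)‖) := by
    have e : (r : ℂ) ^ 2 - (starRingEnd ℂ) (s - (r - A : ℝ)) * (z - (r - A : ℝ)) =
        (r : ℂ) * ((z + A) + (starRingEnd ℂ) (s + A)) - (starRingEnd ℂ) (s + A) * (z + A) := by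
      simp only [map_sub, map_add, Complex.conj_ofReal]
      push_cast
      ring
    rw [hD, e]
    refine (norm_sub_le _ _).trans ?_
    rw [norm_mul, norm_mul, Complex.norm_real, Real.norm_eq_abs, abs_of_pos hr0,
      Complex.norm_conj]
    have h5 : ‖(z + (A : ℂ)) + (starRingEnd ℂ) (s + A)‖ ≤ 2 * A + ‖s + (A : ℂ)‖ := by
      refine (norm_add_le _ _).trans ?_
      rw [Complex.norm_conj]
      linarith
    have h6 : ‖s + (A : ℂ)‖ * ‖z + (A : ℂ)‖ ≤ ‖s + (A : ℂ)‖ * r :=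
      mul_le_mul_of_nonneg_left (hzn.trans hr2) (norm_nonneg _)
    have h7 := mul_le_mul_of_nonneg_left h5 hr0.le
    linarith
  have hsn : ‖s + (A : ℂ)‖ ≤ ‖s‖ + A := by
    refine (norm_add_le _ _).trans ?_
    rw [Complex.norm_real, Real.norm_eq_abs, abs_of_pos hA0]
  have hD2 : D ^ 2 ≤ r ^ 2 * (32 * A ^ 2 * (1 + ‖s‖ ^ 2)) := by
    have h8 : D ≤ r * (4 * A * (1 + ‖s‖)) := by
      refine hDle.trans (mul_le_mul_of_nonneg_left ?_ hr0.le)
      have := norm_nonneg s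
      nlinarith
    have h9 : D ^ 2 ≤ (r * (4 * A * (1 + ‖s‖))) ^ 2 :=
      pow_le_pow_left₀ (norm_nonneg _) h8 2
    have h10 : (1 + ‖s‖) ^ 2 ≤ 2 * (1 + ‖s‖ ^ 2) := by nlinarith [sq_nonneg (1 - ‖s‖)]
    calc D ^ 2 ≤ (r * (4 * A * (1 + ‖s‖))) ^ 2 := h9
      _ = r ^ 2 * (16 * A ^ 2 * (1 + ‖s‖) ^ 2) := by ring
      _ ≤ r ^ 2 * (16 * A ^ 2 * (2 * (1 + ‖s‖ ^ 2))) := by gcongr
      _ = _ := by ring
  have hDpos : 0 < D := by
    rw [hD, norm_pos_iff]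
    intro h
    rw [h, norm_zero] at hD
    rw [hD] at hid
    have h11 : 0 < r ^ 2 * ((A - B) * (s.re + A)) := by
      apply mul_pos (by positivity)
      apply mul_pos hAB
      linarith
    nlinarith [sq_nonneg (r * ‖z - s‖)]
  set φ := r * ‖z - s‖ / D with hφ
  have hφ0 : 0 ≤ φ := by positivity
  set u := (A - B) / (32 * A ^ 2) * ((1 + s.re) / (1 + ‖s‖ ^ 2)) with hu
  have hφ2 : φ ^ 2 ≤ 1 - u := by
    have h12 : φ ^ 2 = 1 - (r ^ 2 - ‖s - ((r - A : ℝ) : ℂ)‖ ^ 2) *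
        (r ^ 2 - ‖z - ((r - A : ℝ) : ℂ)‖ ^ 2) / D ^ 2 := by
      rw [hφ, div_pow, eq_sub_iff_add_eq, ← add_div, ← hid, div_self (by positivity)]
    rw [h12]
    have h13 : u ≤ (r ^ 2 - ‖s - ((r - A : ℝ) : ℂ)‖ ^ 2) *
        (r ^ 2 - ‖z - ((r - A : ℝ) : ℂ)‖ ^ 2) / D ^ 2 := by
      rw [le_div_iff₀ (by positivity)]
      refine le_trans ?_ hpr
      have hu0 : 0 ≤ u := by
        rw [hu]
        have : 0 ≤ 1 + s.re := by linarith
        positivity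
      calc u * D ^ 2 ≤ u * (r ^ 2 * (32 * A ^ 2 * (1 + ‖s‖ ^ 2))) := by gcongr
        _ = r ^ 2 * ((A - B) * (1 + s.re)) := by
          rw [hu]
          have h14 : (1 + ‖s‖ ^ 2) ≠ 0 := by positivity
          field_simp
        _ ≤ r ^ 2 * ((A - B) * (s.re + A)) :=
          mul_le_mul_of_nonneg_left (mul_le_mul_of_nonneg_left (by linarith) hAB.le)
            (by positivity)
    linarith
  have hexp : φ ^ 2 ≤ Real.exp (-(u / 2)) ^ 2 := by
    rw [← Real.exp_nat_mul]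
    refine hφ2.trans ?_
    have := Real.add_one_le_exp (-u)
    have e : ((2 : ℕ) : ℝ) * -(u / 2) = -u := by push_cast; ring
    rw [e]
    linarith
  have hfin := le_of_sq_le_sq hexp (Real.exp_pos _).le
  refine hfin.trans (le_of_eq ?_)
  congr 1
  rw [hu]
  field_simp
  ring

theorem exists_finset {S : Set ℂ} (hS : Plenty S) (M : ℝ) : ∃ F : Finset ℂ, (∀ s ∈ F, s ∈ S) ∧
    M ≤ ∑ s ∈ F, (1 + s.re) / (1 + ‖s‖ ^ 2) := by
  classical
  by_contra h
  push Not at h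
  refine hS.2 (summable_of_sum_le (c := M) (fun s => ?_) fun F => ?_)
  · have := hS.1 s s.2
    have h1 : 0 ≤ 1 + (s : ℂ).re := by linarith
    positivity
  · have h1 := h (F.map (Function.Embedding.subtype _)) (by
      intro s hs
      rw [Finset.mem_map] at hs
      obtain ⟨t, -, rfl⟩ := hs
      exact t.2)
    rw [Finset.sum_map] at h1
    exact h1.le

end R7x

open R7x in
/-- **Row R7.** -/
theorem r7 : R7 := by
  intro S hS A B ε hA hBA hε
  have hA0 : 0 < A := by linarith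
  have hAB : 0 < A - B := by linarith
  set κ : ℝ := (A - B) / (64 * A ^ 2) with hκ
  have hκ0 : 0 < κ := by positivity
  obtain ⟨F, hF, hsum⟩ := exists_finset hS (-(Real.log ε) / κ)
  set ρ0 : ℝ := 2 * A + (2 * A) ^ 2 / (A - B) + ∑ s ∈ F, ‖s + (A : ℂ)‖ ^ 2 with hρ
  have hsum0 : 0 ≤ ∑ s ∈ F, ‖s + (A : ℂ)‖ ^ 2 := Finset.sum_nonneg fun _ _ => sq_nonneg _
  have hq0 : 0 ≤ (2 * A) ^ 2 / (A - B) := by positivity
  refine ⟨F, hF, ρ0, by linarith, ?_⟩
  intro r hr z hz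
  have hr0 : 0 < r := by linarith
  have hr1 : (2 * A) ^ 2 ≤ r * (A - B) := by
    rw [← div_le_iff₀ hAB]
    linarith
  have hr2 : 2 * A ≤ r := by linarith
  have hr3 : ∀ s ∈ F, ‖s + (A : ℂ)‖ ^ 2 ≤ r * (s.re + A) := by
    intro s hs
    have h1 : ‖s + (A : ℂ)‖ ^ 2 ≤ ∑ s ∈ F, ‖s + (A : ℂ)‖ ^ 2 :=
      Finset.single_le_sum (f := fun s : ℂ => ‖s + (A : ℂ)‖ ^ 2) (fun _ _ => sq_nonneg _) hs
    have h2 : 1 ≤ s.re + A := by
      have := hS.1 s (hF s hs)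
      linarith
    have h3 : r ≤ r * (s.re + A) := by nlinarith
    linarith
  have hfac := fun s (hs : s ∈ F) => factor_le hA hBA hz (hS.1 s (hF s hs)) hr0 hr1 hr2 (hr3 s hs)
  have hzball : z ∈ Metric.ball ((r - A : ℝ) : ℂ) r := by
    rw [mem_ball_iff_norm]
    have hzr : -B ≤ z.re := by
      have := Complex.abs_re_le_norm z
      have h2 := (abs_le.1 this).1
      linarith
    have hzn : ‖z + (A : ℂ)‖ ≤ 2 * A := by
      refine (norm_add_le _ _).trans ?_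
      rw [Complex.norm_real, Real.norm_eq_abs, abs_of_pos hA0]
      linarith
    have h1 := dist_sq r A z
    have h2 : ‖z + (A : ℂ)‖ ^ 2 ≤ (2 * A) ^ 2 := pow_le_pow_left₀ (norm_nonneg _) hzn 2
    have h3 : r * (A - B) ≤ r * (z.re + A) := mul_le_mul_of_nonneg_left (by linarith) hr0.le
    have h4 : 0 < r * (A - B) := by positivity
    nlinarith [norm_nonneg (z - ((r - A : ℝ) : ℂ))]
  refine ⟨hzball, fun s hs => (hfac s hs).2.1, ?_⟩
  calc ∏ s ∈ F, (r * ‖z - s‖ / ‖(r : ℂ) ^ 2 - (starRingEnd ℂ) (s - (r - A : ℝ)) *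
        (z - (r - A : ℝ))‖)
      ≤ ∏ s ∈ F, Real.exp (-(κ * ((1 + s.re) / (1 + ‖s‖ ^ 2)))) := by
        refine Finset.prod_le_prod (fun s _ => by positivity) fun s hs => (hfac s hs).2.2
    _ = Real.exp (-(κ * ∑ s ∈ F, (1 + s.re) / (1 + ‖s‖ ^ 2))) := by
        rw [← Real.exp_sum, Finset.mul_sum, ← Finset.sum_neg_distrib]
    _ ≤ Real.exp (Real.log ε) := by
        rw [Real.exp_le_exp]
        rw [div_le_iff₀ hκ0] at hsum
        linarith
    _ = ε := Real.exp_log hε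

end Pool.Agent.LFA
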