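import Pool.Agent.Lib.LFA.Rows

/-! Row R8: convergence on a plentiful set spreads to the whole plane. -/

set_option autoImplicit false

namespace Pool.Agent.LFA

open Filter Topology Set Complex MeasureTheory

namespace R8x

/-- Interpolation with a bound on a compact set. -/
theorem interp (F : Finset ℂ) (K : Set ℂ) (hK : IsCompact K) : ∃ M : ℝ, 0 < M ∧
    ∀ d : ℂ → ℂ, ∃ p : ℂ → ℂ, Differentiable ℂ p ∧ (∀ s ∈ F, p s = d s) ∧
      ∀ z ∈ K, ‖p z‖ ≤ M * ∑ s ∈ F, ‖d s‖ := by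
  have h : ∀ s : ℂ, ∃ M : ℝ, 0 ≤ M ∧ ∀ z ∈ K, ‖(Lagrange.basis F id s).eval z‖ ≤ M := by
    intro s
    obtain ⟨M, hM⟩ := hK.exists_bound_of_continuousOn
      ((Lagrange.basis F id s).continuous.continuousOn)
    exact ⟨max M 0, le_max_right _ _, fun z hz => (hM z hz).trans (le_max_left _ _)⟩
  choose M hM0 hM using h
  refine ⟨∑ s ∈ F, M s + 1, by
    have := Finset.sum_nonneg (fun s (_ : s ∈ F) => hM0 s)
    linarith, fun d =>
    ⟨fun z => ∑ s ∈ F, d s * (Lagrange.basis F id s).eval z, ?_, ?_, ?_⟩⟩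
  · apply Differentiable.fun_sum
    intro s _
    exact (Polynomial.differentiable _).const_mul _
  · intro s hs
    beta_reduce
    rw [Finset.sum_eq_single s]
    · have h1 := Lagrange.eval_basis_self (v := (id : ℂ → ℂ)) (s := F) (injOn_id _) hs
      rw [id] at h1
      rw [h1, mul_one]
    · intro s' _ hne
      have h1 := Lagrange.eval_basis_of_ne (v := (id : ℂ → ℂ)) hne hs
      rw [id] at h1
      rw [h1, mul_zero]
    · intro h; exact absurd hs h
  · intro z hz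
    refine (norm_sum_le _ _).trans ?_
    rw [Finset.mul_sum]
    apply Finset.sum_le_sum
    intro s hs
    rw [norm_mul, mul_comm]
    gcongr
    refine (hM s z hz).trans ?_
    have := Finset.single_le_sum (fun s _ => hM0 s) hs
    linarith

theorem cauchy (h6 : R6) (h7 : R7) (S : Set ℂ) (hS : Plenty S) (G : ℝ → ℂ → ℂ)
    (h1 : ∀ R : ℝ, ∃ T0 : ℝ, ∀ T : ℝ, T0 ≤ T → DifferentiableOn ℂ (G T) (Metric.ball 0 R))
    (h2 : ∀ A : ℝ, ∃ C : ℝ, ∀ B : ℝ, ∃ T0 : ℝ, ∀ T : ℝ, T0 ≤ T → ∀ z : ℂ, -A ≤ z.re → ‖z‖ ≤ B →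
      ‖G T z‖ ≤ C)
    (h3 : ∀ s ∈ S, ∃ l : ℂ, Tendsto (fun T => G T s) atTop (𝓝 l))
    (R : ℝ) (hR : 0 ≤ R) (ε : ℝ) (hε : 0 < ε) :
    ∃ T1 : ℝ, ∀ T T' : ℝ, T1 ≤ T → T1 ≤ T' → ∀ z : ℂ, ‖z‖ ≤ R → ‖G T z - G T' z‖ ≤ ε := by
  obtain ⟨A, hA⟩ : ∃ A : ℝ, A = R + 1 := ⟨_, rfl⟩
  obtain ⟨C₀, hC₀⟩ := h2 A
  obtain ⟨C, hC⟩ : ∃ C : ℝ, C = max C₀ 1 := ⟨_, rfl⟩
  have hC1 : 1 ≤ C := by rw [hC]; exact le_max_right _ _
  have hCC : C₀ ≤ C := by rw [hC]; exact le_max_left _ _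
  have hε' : 0 < ε / (2 * (2 * C + 1)) := by positivity
  obtain ⟨F, hFS, ρ0, hρ0, hF⟩ := h7 S hS A R (ε / (2 * (2 * C + 1))) (by linarith) (by linarith)
    hε'
  have hF' := hF ρ0 le_rfl
  obtain ⟨M, hM0, hM⟩ := interp F (Metric.closedBall ((ρ0 - A : ℝ) : ℂ) ρ0)
    (isCompact_closedBall _ _)
  obtain ⟨T₂, hT₂⟩ := hC₀ (2 * ρ0 + A)
  obtain ⟨T₃, hT₃⟩ := h1 (2 * ρ0 + A + 1)
  choose! l hl using h3
  have he : 0 < min 1 (ε / 2) / (2 * M * (F.card + 1)) := by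
    have : 0 < min 1 (ε / 2) := lt_min one_pos (by positivity)
    positivity
  have h4 : ∀ᶠ T in atTop, ∀ s ∈ F, ‖G T s - l s‖ ≤ min 1 (ε / 2) / (2 * M * (F.card + 1)) := by
    rw [Filter.eventually_all_finset]
    intro s hs
    have h5 := (tendsto_iff_norm_sub_tendsto_zero.1 (hl s (hFS s hs)))
    exact h5.eventually_le_const he
  obtain ⟨T₄, hT₄⟩ := eventually_atTop.1 h4
  -- points of the closed ball
  have hball : ∀ w ∈ Metric.closedBall ((ρ0 - A : ℝ) : ℂ) ρ0, -A ≤ w.re ∧ ‖w‖ ≤ 2 * ρ0 + A := by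
    intro w hw
    rw [mem_closedBall_iff_norm] at hw
    constructor
    · have h5 := (Complex.abs_re_le_norm _).trans hw
      rw [Complex.sub_re, Complex.ofReal_re] at h5
      have := (abs_le.1 h5).1
      linarith
    · have h5 : ‖w‖ ≤ ‖w - ((ρ0 - A : ℝ) : ℂ)‖ + ‖((ρ0 - A : ℝ) : ℂ)‖ := by
        simpa using norm_add_le (w - ((ρ0 - A : ℝ) : ℂ)) ((ρ0 - A : ℝ) : ℂ)
      have h6 : ‖((ρ0 - A : ℝ) : ℂ)‖ ≤ ρ0 + A := by
        rw [Complex.norm_real, Real.norm_eq_abs, abs_le]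
        constructor <;> linarith
      linarith
  refine ⟨max T₂ (max T₃ T₄), fun T T' hT hT' z hz => ?_⟩
  have a2 : T₂ ≤ T := (le_max_left _ _).trans hT
  have a2' : T₂ ≤ T' := (le_max_left _ _).trans hT'
  have a3 : T₃ ≤ T := ((le_max_left _ _).trans (le_max_right _ _)).trans hT
  have a3' : T₃ ≤ T' := ((le_max_left _ _).trans (le_max_right _ _)).trans hT'
  have a4 : T₄ ≤ T := ((le_max_right _ _).trans (le_max_right _ _)).trans hT
  have a4' : T₄ ≤ T' := ((le_max_right _ _).trans (le_max_right _ _)).trans hT'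
  have hsum : M * ∑ s ∈ F, ‖G T s - G T' s‖ ≤ min 1 (ε / 2) := by
    have h5 : ∀ s ∈ F, ‖G T s - G T' s‖
        ≤ 2 * (min 1 (ε / 2) / (2 * M * (F.card + 1))) := by
      intro s hs
      have b1 := hT₄ T a4 s hs
      have b2 := hT₄ T' a4' s hs
      calc ‖G T s - G T' s‖ = ‖(G T s - l s) - (G T' s - l s)‖ := by congr 1; ring
        _ ≤ ‖G T s - l s‖ + ‖G T' s - l s‖ := norm_sub_le _ _
        _ ≤ _ := by linarith
    have h6 := Finset.sum_le_sum h5
    rw [Finset.sum_const, nsmul_eq_mul] at h6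
    have hm : 0 < min 1 (ε / 2) := lt_min one_pos (by positivity)
    calc M * ∑ s ∈ F, ‖G T s - G T' s‖
        ≤ M * (F.card * (2 * (min 1 (ε / 2) / (2 * M * (F.card + 1))))) := by gcongr
      _ = min 1 (ε / 2) * (F.card / (F.card + 1)) := by field_simp
      _ ≤ min 1 (ε / 2) * 1 := by
          gcongr
          rw [div_le_one (by positivity)]
          linarith
      _ = _ := mul_one _
  obtain ⟨p, hp, hpF, hpK⟩ := hM (fun s => G T s - G T' s)
  have hdiff : ∀ T : ℝ, T₃ ≤ T → DifferentiableOn ℂ (G T)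
      (Metric.closedBall ((ρ0 - A : ℝ) : ℂ) ρ0) := by
    intro T hT
    refine (hT₃ T hT).mono ?_
    intro w hw
    rw [mem_ball_zero_iff]
    have := (hball w hw).2
    linarith
  have h5 := h6 ((ρ0 - A : ℝ) : ℂ) ρ0 (2 * C + 1) hρ0 (fun z => G T z - G T' z - p z)
    (((hdiff T a3).sub (hdiff T' a3')).sub hp.differentiableOn) (by
      intro w hw
      have b1 := hT₂ T a2 w (hball w hw).1 (hball w hw).2
      have b2 := hT₂ T' a2' w (hball w hw).1 (hball w hw).2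
      have b3 := hpK w hw
      have b4 : min 1 (ε / 2) ≤ 1 := min_le_left _ _
      calc ‖G T w - G T' w - p w‖ ≤ ‖G T w - G T' w‖ + ‖p w‖ := norm_sub_le _ _
        _ ≤ ‖G T w‖ + ‖G T' w‖ + ‖p w‖ := by gcongr; exact norm_sub_le _ _
        _ ≤ _ := by linarith) F (by
      intro s hs
      exact ⟨(hF' z hz).2.1 s hs, by rw [hpF s hs, sub_self]⟩) z (hF' z hz).1
  have h7 : ‖G T z - G T' z - p z‖ ≤ ε / 2 := by
    refine h5.trans ?_
    calc _ ≤ (2 * C + 1) * (ε / (2 * (2 * C + 1))) := by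
          apply mul_le_mul_of_nonneg_left (hF' z hz).2.2 (by linarith)
      _ = ε / 2 := by
          have : (2 * C + 1) ≠ 0 := by positivity
          field_simp
  have h8 := hpK z (Metric.ball_subset_closedBall (hF' z hz).1)
  have h9 : min 1 (ε / 2) ≤ ε / 2 := min_le_right _ _
  calc ‖G T z - G T' z‖ = ‖(G T z - G T' z - p z) + p z‖ := by congr 1; ring
    _ ≤ ‖G T z - G T' z - p z‖ + ‖p z‖ := norm_add_le _ _
    _ ≤ _ := by linarith

end R8x

open R8x in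
theorem r8 (h6 : R6) (h7 : R7) : R8 := by
  intro S hS G h1 h2 h3
  have hc := cauchy h6 h7 S hS G h1 h2 h3
  have h4 : ∀ z : ℂ, ∃ l : ℂ, Tendsto (fun T => G T z) atTop (𝓝 l) := by
    intro z
    apply cauchySeq_tendsto_of_complete
    rw [Metric.cauchySeq_iff]
    intro ε hε
    obtain ⟨T1, hT1⟩ := hc ‖z‖ (norm_nonneg _) (ε / 2) (by positivity)
    exact ⟨T1, fun m hm n hn => by
      rw [dist_eq_norm]; exact (hT1 m n hm hn z le_rfl).trans_lt (by linarith)⟩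
  choose f hf using h4
  refine ⟨f, fun z => ?_, hf⟩
  have h5 : TendstoUniformlyOn (fun T => G T) f atTop (Metric.ball 0 (‖z‖ + 1)) := by
    rw [Metric.tendstoUniformlyOn_iff]
    intro ε hε
    obtain ⟨T1, hT1⟩ := hc (‖z‖ + 1) (by positivity) (ε / 2) (by positivity)
    filter_upwards [eventually_ge_atTop T1] with T hT w hw
    have hw' : ‖w‖ ≤ ‖z‖ + 1 := (mem_ball_zero_iff.1 hw).le
    have h6 : ‖G T w - f w‖ ≤ ε / 2 := by
      refine le_of_tendsto ((tendsto_const_nhds.sub (hf w)).norm) ?_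
      filter_upwards [eventually_ge_atTop T1] with T' hT'
      exact hT1 T T' hT hT' w hw'
    rw [dist_comm, dist_eq_norm]; linarith
  obtain ⟨T0, hT0⟩ := h1 (‖z‖ + 1)
  have h6 : DifferentiableOn ℂ f (Metric.ball 0 (‖z‖ + 1)) := by
    refine h5.tendstoLocallyUniformlyOn.differentiableOn ?_ Metric.isOpen_ball
    filter_upwards [eventually_ge_atTop T0] with T hT using hT0 T hT
  exact h6.differentiableAt (Metric.isOpen_ball.mem_nhds (by
    rw [mem_ball_zero_iff]; linarith))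

end Pool.Agent.LFA
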