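import Pool.Agent.Lib.LFA.Final
import Pool.Agent.Lib.LFA.R0
import Pool.Agent.Lib.LFA.R1
import Pool.Agent.Lib.LFA.R2
import Pool.Agent.Lib.LFA.R3
import Pool.Agent.Lib.LFA.R4
import Pool.Agent.Lib.LFA.R5A
import Pool.Agent.Lib.LFA.R5B
import Pool.Agent.Lib.LFA.R6
import Pool.Agent.Lib.LFA.R7
import Pool.Agent.Lib.LFA.R8
import Pool.Agent.Lib.LFA.R10

/-! Law from afar: all rows together. -/

set_option autoImplicit false

namespace Pool.Agent.LFA

theorem h2 : R2 := r2 (r1 r0)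

theorem main : MAIN := final_of (r3 h2) (r4 h2) (r5a r0) (r5a' r0) r5b (r8 r6 r7)

end Pool.Agent.LFA
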