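import Mathlib

/-!
# Law from afar: definitions

Moments of the zeta function at distance `K / log T` from the critical line, and their
analytic continuation in `K`.
-/

set_option autoImplicit false

namespace Pool.Agent.LFA

open Filter Topology Set Complex MeasureTheory

/-- The average of `|ζ(1/2 + w + i(x + uT))|^β` over `u` in `[0,1]`, for a complex shift `w`. -/
noncomputable def V (β x T : ℝ) (w : ℂ) : ℝ :=
  ∫ u in (0 : ℝ)..1, ‖riemannZeta (1 / 2 + w + I * (x + u * T))‖ ^ β

/-- The moment of order `β` at distance `K / log T` from the line has the expected order. -/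
def BoundedAt (β x K : ℝ) : Prop :=
  ∃ C T0 : ℝ, ∀ T : ℝ, T0 ≤ T → V β x T ((K / Real.log T : ℝ) : ℂ) ≤ C * Real.log T ^ (β ^ 2 / 4)

/-- `(log T)^(-k²) E ∏_j ζ(1/2 + z_j/log T + iy) ζ(1/2 + w_j/log T - iy)`, `y = x + uT`,
`u` uniform in `[0,1]`. -/
noncomputable def shifted (k : ℕ) (x T : ℝ) (z w : Fin k → ℂ) : ℂ :=
  ((Real.log T : ℂ) ^ (k ^ 2))⁻¹ * ∫ u in (0 : ℝ)..1,
    (∏ j, riemannZeta (1 / 2 + z j / Real.log T + I * (x + u * T))) *
      ∏ j, riemannZeta (1 / 2 + w j / Real.log T - I * (x + u * T))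

/-- the divergence condition of Blaschke and Müntz for a set in the closed right half plane -/
def Plenty (S : Set ℂ) : Prop :=
  (∀ s ∈ S, 0 ≤ s.re) ∧ ¬ Summable (fun s : S => (1 + (s : ℂ).re) / (1 + ‖(s : ℂ)‖ ^ 2))

end Pool.Agent.LFA
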