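import Pool.Agent.Lib.LFA.Rows

/-! Law from afar: assembly from the rows. -/

set_option autoImplicit false

namespace Pool.Agent.LFA

open Filter Topology Set Complex MeasureTheory

namespace R9x

lemma expo (k : ℕ) (L : ℝ) : L ^ ((2 * (k : ℝ)) ^ 2 / 4) = L ^ (k ^ 2) := by
  rw [← Real.rpow_natCast L (k ^ 2)]
  congr 1
  push_cast
  ring

lemma shifted_real (k : ℕ) (x T K : ℝ) :
    shifted k x T (fun _ => (K : ℂ)) (fun _ => (K : ℂ))
      = ((V (2 * k) x T ((K / Real.log T : ℝ) : ℂ) / Real.log T ^ (k ^ 2) : ℝ) : ℂ) := by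
  unfold shifted V
  have key : ∫ u in (0 : ℝ)..1,
      (∏ _j : Fin k, riemannZeta (1 / 2 + (K : ℂ) / Real.log T + I * (x + u * T))) *
      ∏ _j : Fin k, riemannZeta (1 / 2 + (K : ℂ) / Real.log T - I * (x + u * T))
      = ((∫ u in (0 : ℝ)..1, ‖riemannZeta (1 / 2 + ((K / Real.log T : ℝ) : ℂ)
        + I * (x + u * T))‖ ^ (2 * (k : ℝ)) : ℝ) : ℂ) := by
    rw [← intervalIntegral.integral_ofReal]
    refine intervalIntegral.integral_congr fun u _ => ?_
    simp only [Finset.prod_const, Finset.card_univ, Fintype.card_fin]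
    rw [Complex.ofReal_div]
    set a : ℂ := riemannZeta (1 / 2 + (K : ℂ) / (Real.log T : ℂ) + I * (x + u * T)) with ha
    have h1 : riemannZeta (1 / 2 + (K : ℂ) / (Real.log T : ℂ) - I * (x + u * T))
        = (starRingEnd ℂ) a := by
      rw [ha, ← riemannZeta_conj]
      congr 1
      simp only [map_add, map_mul, map_div₀, map_one, Complex.conj_ofReal, Complex.conj_I]
      have : (starRingEnd ℂ) (2 : ℂ) = 2 := Complex.conj_ofNat 2
      rw [this]
      ring
    rw [h1, ← mul_pow, Complex.mul_conj, Complex.normSq_eq_norm_sq]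
    have h2 : ‖a‖ ^ (2 * (k : ℝ)) = (‖a‖ ^ 2) ^ k := by
      have : (2 * (k : ℝ)) = ((2 * k : ℕ) : ℝ) := by push_cast; ring
      rw [this, Real.rpow_natCast, pow_mul]
    rw [h2]
    push_cast
    rfl
  have fin : ∀ Q : ℝ, ((Real.log T : ℂ) ^ (k ^ 2))⁻¹ * (Q : ℂ)
      = ((Q / Real.log T ^ (k ^ 2) : ℝ) : ℂ) := by
    intro Q
    push_cast
    ring
  rw [key]
  exact fin _

lemma bounded_of_tendsto {k : ℕ} {x K : ℝ} {l : ℂ}
    (h : Tendsto (fun T => shifted k x T (fun _ => (K : ℂ)) (fun _ => (K : ℂ))) atTop (𝓝 l)) :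
    BoundedAt (2 * k) x K := by
  have h1 : ∀ᶠ T : ℝ in atTop, ‖shifted k x T (fun _ => (K : ℂ)) (fun _ => (K : ℂ))‖ < ‖l‖ + 1 :=
    h.norm.eventually (gt_mem_nhds (by linarith))
  obtain ⟨T1, hT1⟩ := eventually_atTop.mp h1
  refine ⟨‖l‖ + 1, max T1 3, fun T hT => ?_⟩
  have h2 := hT1 T ((le_max_left _ _).trans hT)
  have h3 : (3 : ℝ) ≤ T := (le_max_right _ _).trans hT
  have hL : 0 < Real.log T := Real.log_pos (by linarith)
  rw [shifted_real, Complex.norm_real, Real.norm_eq_abs] at h2
  have h4 := (le_abs_self _).trans h2.le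
  rw [div_le_iff₀ (by positivity)] at h4
  rw [expo]
  exact h4

/-- uniform bound of the shifted moments -/
lemma shifted_bound (r3 : R3) (r5b : R5b) {k : ℕ} (hk : 1 ≤ k) {x K : ℝ} (hK : 0 ≤ K)
    (hb : BoundedAt (2 * k) x K) (A : ℝ) : ∃ C : ℝ, ∀ B : ℝ, ∃ T0 : ℝ, 3 ≤ T0 ∧ ∀ T : ℝ, T0 ≤ T →
      ∀ z w : Fin k → ℂ, (∀ j, -A ≤ (z j).re ∧ ‖z j‖ ≤ B) → (∀ j, -A ≤ (w j).re ∧ ‖w j‖ ≤ B) →
      ‖shifted k x T z w‖ ≤ C := by
  have hk' : (1 : ℝ) ≤ k := by exact_mod_cast hk
  obtain ⟨C, hC⟩ := r3 x (2 * k) K (by linarith) hK hb A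
  refine ⟨C, fun B => ?_⟩
  obtain ⟨T0, hT3, hT0⟩ := hC B
  refine ⟨max T0 (Real.exp (2 * |B| + 1)), hT3.trans (le_max_left _ _), fun T hT z w hz hw => ?_⟩
  have h1 : T0 ≤ T := (le_max_left _ _).trans hT
  have h2 : 2 * |B| + 1 ≤ Real.log T := by
    rw [Real.le_log_iff_exp_le (by linarith)]
    exact (le_max_right _ _).trans hT
  have hB := le_abs_self B
  refine r5b k x T C hk (hT3.trans h1) z w (fun j => ?_) (fun j => ?_) (fun j => ?_) (fun j => ?_)
  · have := (hz j).2; linarith
  · have := (hw j).2; linarith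
  · have := hT0 T h1 (z j) (hz j).1 (hz j).2
    rwa [expo] at this
  · have := hT0 T h1 ((starRingEnd ℂ) (w j)) (by rw [Complex.conj_re]; exact (hw j).1)
      (by rw [Complex.norm_conj]; exact (hw j).2)
    rwa [expo] at this

lemma exp_le {R T : ℝ} (hT : Real.exp (2 * R) ≤ T) : R ≤ Real.log T / 2 := by
  have : 2 * R ≤ Real.log T := by
    rw [Real.le_log_iff_exp_le (lt_of_lt_of_le (Real.exp_pos _) hT)]
    exact hT
  linarith

end R9x

open R9x

theorem final_of (r3 : R3) (r4 : R4) (r5a : R5a) (r5a' : R5a') (r5b : R5b) (r8 : R8) : MAIN := by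
  refine ⟨?_, ?_, ?_⟩
  · rintro x β hβ ⟨K0, hK0, hb⟩ K
    obtain ⟨C, hC⟩ := r3 x β K0 hβ hK0 hb |K|
    obtain ⟨T0, hT3, hT0⟩ := hC |K|
    refine ⟨C, T0, fun T hT => ?_⟩
    have := hT0 T hT (K : ℂ) (by rw [Complex.ofReal_re]; exact neg_abs_le K)
      (by rw [Complex.norm_real, Real.norm_eq_abs])
    push_cast
    exact this
  · rintro k x S hk hS ⟨K, hKS⟩ hconv
    have hK : 0 ≤ K := by simpa using hS.1 _ hKS
    obtain ⟨l, hl⟩ := hconv _ hKS
    have hb := bounded_of_tendsto hl
    obtain ⟨f, hf, hlim⟩ := r8 S hS (fun T s => shifted k x T (fun _ => s) (fun _ => s))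
      (fun R => ⟨max 3 (Real.exp (2 * R)), fun T hT => (r5a' k x T ((le_max_left _ _).trans hT)).mono
        (Metric.ball_subset_ball (exp_le ((le_max_right _ _).trans hT)))⟩)
      (fun A => by
        obtain ⟨C, hC⟩ := shifted_bound r3 r5b hk hK hb A
        refine ⟨C, fun B => ?_⟩
        obtain ⟨T0, _, hT0⟩ := hC B
        exact ⟨T0, fun T hT z hz hz' => hT0 T hT _ _ (fun _ => ⟨hz, hz'⟩) (fun _ => ⟨hz, hz'⟩)⟩)
      hconv
    refine ⟨f, hf, hlim, ?_⟩
    obtain ⟨c, T0, hc, hT0⟩ := r4 x (2 * k) (by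
      have : (1 : ℝ) ≤ k := by exact_mod_cast hk
      linarith)
    have h0 := hlim 0
    have hre : ∀ T : ℝ, shifted k x T (fun _ => (0 : ℂ)) (fun _ => (0 : ℂ))
        = ((V (2 * k) x T 0 / Real.log T ^ (k ^ 2) : ℝ) : ℂ) := by
      intro T
      have := shifted_real k x T 0
      simp only [zero_div, Complex.ofReal_zero] at this
      exact this
    have h1 : Tendsto (fun T : ℝ => V (2 * k) x T 0 / Real.log T ^ (k ^ 2)) atTop (𝓝 (f 0).re) := by
      have := (Complex.continuous_re.tendsto _).comp h0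
      refine this.congr fun T => ?_
      simp only [Function.comp_apply]
      rw [hre T, Complex.ofReal_re]
    have h2 : Tendsto (fun _ : ℝ => (0 : ℝ)) atTop (𝓝 (f 0).im) := by
      have := (Complex.continuous_im.tendsto _).comp h0
      refine this.congr fun T => ?_
      simp only [Function.comp_apply]
      rw [hre T, Complex.ofReal_im]
    refine ⟨?_, (tendsto_nhds_unique h2 tendsto_const_nhds)⟩
    refine lt_of_lt_of_le hc (ge_of_tendsto h1 ?_)
    filter_upwards [eventually_ge_atTop T0, eventually_ge_atTop (3 : ℝ)] with T hT hT3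
    have hL : 0 < Real.log T := Real.log_pos (by linarith)
    rw [le_div_iff₀ (by positivity)]
    have := hT0 T hT
    rwa [expo] at this
  · rintro k x S hk hS ⟨K, hKS⟩ hconv
    have hK : 0 ≤ K := by simpa using hS.1 _ hKS
    obtain ⟨l, hl⟩ := hconv (fun _ => (K : ℂ)) (fun _ => (K : ℂ)) (fun _ => hKS) (fun _ => hKS)
    have hb := bounded_of_tendsto hl
    -- the bound when one coordinate moves
    have key : ∀ (z w : Fin k → ℂ) (A : ℝ), ∃ C : ℝ, ∀ B : ℝ, ∃ T0 : ℝ, 3 ≤ T0 ∧ ∀ T : ℝ, T0 ≤ T →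
        ∀ (j : Fin k) (s : ℂ), -A ≤ s.re → ‖s‖ ≤ B →
        ‖shifted k x T (Function.update z j s) w‖ ≤ C ∧
        ‖shifted k x T z (Function.update w j s)‖ ≤ C := by
      intro z w A
      set N : ℝ := (∑ j, ‖z j‖) + ∑ j, ‖w j‖ with hN
      have hz : ∀ j, ‖z j‖ ≤ N := fun j => by
        have h1 := Finset.single_le_sum (f := fun j => ‖z j‖) (fun i _ => norm_nonneg _)
          (Finset.mem_univ j)
        have h2 : 0 ≤ ∑ j, ‖w j‖ := Finset.sum_nonneg fun i _ => norm_nonneg _
        linarith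
      have hw : ∀ j, ‖w j‖ ≤ N := fun j => by
        have h1 := Finset.single_le_sum (f := fun j => ‖w j‖) (fun i _ => norm_nonneg _)
          (Finset.mem_univ j)
        have h2 : 0 ≤ ∑ j, ‖z j‖ := Finset.sum_nonneg fun i _ => norm_nonneg _
        linarith
      obtain ⟨C, hC⟩ := shifted_bound r3 r5b hk hK hb (max A N)
      refine ⟨C, fun B => ?_⟩
      obtain ⟨T0, h3, hT0⟩ := hC (max B N)
      have hgen : ∀ y : Fin k → ℂ, (∀ j, ‖y j‖ ≤ N) → ∀ j, -(max A N) ≤ (y j).re ∧
          ‖y j‖ ≤ max B N := fun y hy j => by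
        have h1 := Complex.abs_re_le_norm (y j)
        have h2 := neg_abs_le (y j).re
        have h4 := le_max_right A N
        refine ⟨by linarith [hy j], (hy j).trans (le_max_right _ _)⟩
      have hupd : ∀ y : Fin k → ℂ, (∀ j, ‖y j‖ ≤ N) → ∀ (j : Fin k) (s : ℂ), -A ≤ s.re →
          ‖s‖ ≤ B → ∀ i, -(max A N) ≤ (Function.update y j s i).re ∧
          ‖Function.update y j s i‖ ≤ max B N := fun y hy j s hs hs' i => by
        by_cases hij : i = j
        · subst hij
          rw [Function.update_self]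
          exact ⟨by linarith [le_max_left A N], hs'.trans (le_max_left _ _)⟩
        · rw [Function.update_of_ne hij]
          exact hgen y hy i
      refine ⟨T0, h3, fun T hT j s hs hs' => ⟨?_, ?_⟩⟩
      · exact hT0 T hT _ _ (hupd z hz j s hs hs') (hgen w hw)
      · exact hT0 T hT _ _ (hgen z hz) (hupd w hw j s hs hs')
    -- holomorphy when one coordinate moves
    have hol : ∀ (z w : Fin k → ℂ) (j : Fin k) (R : ℝ), ∃ T0 : ℝ, ∀ T : ℝ, T0 ≤ T →
        DifferentiableOn ℂ (fun s => shifted k x T (Function.update z j s) w) (Metric.ball 0 R) ∧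
        DifferentiableOn ℂ (fun s => shifted k x T z (Function.update w j s)) (Metric.ball 0 R) := by
      intro z w j R
      set N : ℝ := (∑ j, ‖z j‖) + ∑ j, ‖w j‖ with hN
      have hz : ∀ j, ‖z j‖ ≤ N := fun j => by
        have h1 := Finset.single_le_sum (f := fun j => ‖z j‖) (fun i _ => norm_nonneg _)
          (Finset.mem_univ j)
        have h2 : 0 ≤ ∑ j, ‖w j‖ := Finset.sum_nonneg fun i _ => norm_nonneg _
        linarith
      have hw : ∀ j, ‖w j‖ ≤ N := fun j => by
        have h1 := Finset.single_le_sum (f := fun j => ‖w j‖) (fun i _ => norm_nonneg _)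
          (Finset.mem_univ j)
        have h2 : 0 ≤ ∑ j, ‖z j‖ := Finset.sum_nonneg fun i _ => norm_nonneg _
        linarith
      refine ⟨max 3 (Real.exp (2 * max R (N + 1))), fun T hT => ?_⟩
      have h3 : 3 ≤ T := (le_max_left _ _).trans hT
      have h4 := exp_le ((le_max_right _ _).trans hT)
      have h5 : R ≤ Real.log T / 2 := (le_max_left _ _).trans h4
      have h6 : N + 1 ≤ Real.log T / 2 := (le_max_right _ _).trans h4
      have h7 := r5a k x T h3 z w (fun j => by linarith [hz j]) (fun j => by linarith [hw j]) j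
      exact ⟨h7.1.mono (Metric.ball_subset_ball h5), h7.2.mono (Metric.ball_subset_ball h5)⟩
    -- free the first group of shifts
    have step1 : ∀ J : Finset (Fin k), ∀ z w : Fin k → ℂ, (∀ j, j ∉ J → z j ∈ S) →
        (∀ j, w j ∈ S) → ∃ l : ℂ, Tendsto (fun T => shifted k x T z w) atTop (𝓝 l) := by
      intro J
      induction J using Finset.induction_on with
      | empty => exact fun z w hz hw => hconv z w (fun j => hz j (Finset.notMem_empty _)) hw
      | insert j J hj ih =>
        intro z w hz hw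
        obtain ⟨f, -, hf⟩ := r8 S hS (fun T s => shifted k x T (Function.update z j s) w)
          (fun R => (hol z w j R).imp fun T0 h T hT => (h T hT).1)
          (fun A => (key z w A).imp fun C hC B => by
            obtain ⟨T0, _, h⟩ := hC B
            exact ⟨T0, fun T hT s hs hs' => (h T hT j s hs hs').1⟩)
          (fun s hs => ih _ _ (fun i hi => by
            by_cases hij : i = j
            · subst hij; rw [Function.update_self]; exact hs
            · rw [Function.update_of_ne hij]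
              exact hz i (by simp [hij, hi])) hw)
        have := hf (z j)
        simp only [Function.update_eq_self] at this
        exact ⟨_, this⟩
    have step2 : ∀ J : Finset (Fin k), ∀ z w : Fin k → ℂ, (∀ j, j ∉ J → w j ∈ S) →
        ∃ l : ℂ, Tendsto (fun T => shifted k x T z w) atTop (𝓝 l) := by
      intro J
      induction J using Finset.induction_on with
      | empty =>
        intro z w hw
        exact step1 Finset.univ z w (fun j hj => absurd (Finset.mem_univ j) hj)
          (fun j => hw j (Finset.notMem_empty _))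
      | insert j J hj ih =>
        intro z w hw
        obtain ⟨f, -, hf⟩ := r8 S hS (fun T s => shifted k x T z (Function.update w j s))
          (fun R => (hol z w j R).imp fun T0 h T hT => (h T hT).2)
          (fun A => (key z w A).imp fun C hC B => by
            obtain ⟨T0, _, h⟩ := hC B
            exact ⟨T0, fun T hT s hs hs' => (h T hT j s hs hs').2⟩)
          (fun s hs => ih _ _ (fun i hi => by
            by_cases hij : i = j
            · subst hij; rw [Function.update_self]; exact hs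
            · rw [Function.update_of_ne hij]
              exact hw i (by simp [hij, hi])))
        have := hf (w j)
        simp only [Function.update_eq_self] at this
        exact ⟨_, this⟩
    intro z w
    exact step2 Finset.univ z w (fun j hj => absurd (Finset.mem_univ j) hj)

end Pool.Agent.LFA
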