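import Mathlib

/-!
MP_f9aece, law from afar: families of functions analytic and bounded in growing parts of a
half-plane, which converge at nodes violating the Blaschke condition, converge everywhere.
-/

set_option autoImplicit false

namespace Pool.Agent.Lib.LFA

open Metric Set Filter Topology

/-- Division by nodes. -/
theorem exists_factor {U : Set ℂ} (hU : IsOpen U) (s : Finset ℂ) :
    ∀ f : ℂ → ℂ, DifferentiableOn ℂ f U → (∀ k ∈ s, k ∈ U) → (∀ k ∈ s, f k = 0) →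
      ∃ g : ℂ → ℂ, DifferentiableOn ℂ g U ∧ ∀ z, f z = (∏ k ∈ s, (z - k)) * g z := by
  classical
  induction s using Finset.induction_on with
  | empty =>
    intro f hf _ _
    exact ⟨f, hf, fun z => by simp⟩
  | insert a s ha ih =>
    intro f hf hsU hz
    have haU : a ∈ U := hsU a (Finset.mem_insert_self _ _)
    have hnhds : U ∈ 𝓝 a := hU.mem_nhds haU
    have hd : DifferentiableOn ℂ (dslope f a) U := (Complex.differentiableOn_dslope hnhds).2 hf
    have key : ∀ z, f z = (z - a) * dslope f a z := by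
      intro z
      have h := sub_smul_dslope f a z
      rw [hz a (Finset.mem_insert_self _ _), sub_zero, smul_eq_mul] at h
      exact h.symm
    obtain ⟨g, hg, hfg⟩ := ih (dslope f a) hd
      (fun k hk => hsU k (Finset.mem_insert_of_mem hk)) (by
        intro k hk
        have hne : k - a ≠ 0 := sub_ne_zero.2 (fun h => ha (h ▸ hk))
        have h1 := key k
        rw [hz k (Finset.mem_insert_of_mem hk)] at h1
        rcases mul_eq_zero.1 h1.symm with h | h
        · exact absurd h hne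
        · exact h)
    refine ⟨g, hg, fun z => ?_⟩
    rw [key z, hfg z, Finset.prod_insert ha]
    ring

/-- The interpolation polynomial. -/
noncomputable def lag (s : Finset ℂ) (d : ℂ → ℂ) (z : ℂ) : ℂ :=
  ∑ k ∈ s, d k * ∏ j ∈ s.erase k, (z - j) / (k - j)

theorem lag_node (s : Finset ℂ) (d : ℂ → ℂ) {k : ℂ} (hk : k ∈ s) : lag s d k = d k := by
  unfold lag
  rw [Finset.sum_eq_single k]
  · rw [Finset.prod_eq_one, mul_one]
    intro j hj
    exact div_self (sub_ne_zero.2 (Finset.ne_of_mem_erase hj).symm)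
  · intro b _ hbk
    rw [Finset.prod_eq_zero (i := k), mul_zero]
    · exact Finset.mem_erase.2 ⟨hbk.symm, hk⟩
    · simp
  · intro h
    exact absurd hk h

theorem lag_differentiable (s : Finset ℂ) (d : ℂ → ℂ) : Differentiable ℂ (lag s d) := by
  unfold lag
  fun_prop

theorem lag_bound (s : Finset ℂ) (R : ℝ) : ∃ Λ : ℝ, 0 ≤ Λ ∧ ∀ (d : ℂ → ℂ) (δ : ℝ), 0 ≤ δ →
    (∀ k ∈ s, ‖d k‖ ≤ δ) → ∀ z : ℂ, ‖z‖ ≤ R → ‖lag s d z‖ ≤ Λ * δ := by
  refine ⟨∑ k ∈ s, ∏ j ∈ s.erase k, (|R| + ‖j‖) / ‖k - j‖, ?_, ?_⟩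
  · exact Finset.sum_nonneg fun k _ => Finset.prod_nonneg fun j _ => by positivity
  · intro d δ hδ hd z hz
    unfold lag
    refine (norm_sum_le _ _).trans ?_
    rw [Finset.sum_mul]
    refine Finset.sum_le_sum fun k hk => ?_
    rw [norm_mul, norm_prod, mul_comm]
    refine mul_le_mul ?_ (hd k hk) (norm_nonneg _)
      (Finset.prod_nonneg fun j _ => by positivity)
    refine Finset.prod_le_prod (fun j _ => norm_nonneg _) fun j _ => ?_
    rw [norm_div]
    refine div_le_div_of_nonneg_right ?_ (norm_nonneg _)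
    refine (norm_sub_le _ _).trans ?_
    have : R ≤ |R| := le_abs_self R
    linarith

/-- A factor of the Blaschke product of the half-plane `Re z > -A`. -/
noncomputable def bf (A k : ℝ) (z : ℂ) : ℝ := ‖z - k‖ / ‖z + 2 * A + k‖

theorem norm_sub_sq (A k : ℝ) (z : ℂ) :
    ‖z + 2 * A + k‖ ^ 2 - ‖z - k‖ ^ 2 = 4 * (A + k) * (z.re + A) := by
  rw [Complex.sq_norm, Complex.sq_norm, Complex.normSq_apply, Complex.normSq_apply]
  simp
  ring

theorem norm_le_of_re {A k : ℝ} (hk : -A < k) {z : ℂ} (hz : -A ≤ z.re) :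
    ‖z - k‖ ≤ ‖z + 2 * A + k‖ := by
  have h := norm_sub_sq A k z
  have h1 : 0 ≤ 4 * (A + k) * (z.re + A) := by
    have : 0 < A + k := by linarith
    have : 0 ≤ z.re + A := by linarith
    positivity
  have h2 : ‖z - k‖ ^ 2 ≤ ‖z + 2 * A + k‖ ^ 2 := by linarith
  exact (le_abs_self _).trans (abs_le_of_sq_le_sq h2 (norm_nonneg _))

theorem norm_eq_of_re {A k : ℝ} {z : ℂ} (hz : z.re = -A) :
    ‖z - k‖ = ‖z + 2 * A + k‖ := by
  have h := norm_sub_sq A k z
  rw [hz] at h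
  have h2 : ‖z - k‖ ^ 2 = ‖z + 2 * A + k‖ ^ 2 := by linarith
  have h3 := abs_eq_abs.2 (sq_eq_sq_iff_eq_or_eq_neg.1 h2)
  rwa [abs_of_nonneg (norm_nonneg _), abs_of_nonneg (norm_nonneg _)] at h3

theorem bf_nonneg (A k : ℝ) (z : ℂ) : 0 ≤ bf A k z := by
  unfold bf
  positivity

theorem bf_le_one {A k : ℝ} (hk : -A < k) {z : ℂ} (hz : -A ≤ z.re) : bf A k z ≤ 1 := by
  unfold bf
  exact div_le_one_of_le₀ (norm_le_of_re hk hz) (norm_nonneg _)

/-- On a large circle the Blaschke product is at least one half. -/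
theorem exists_radius (A : ℝ) (s : Finset ℝ) : ∀ᶠ R : ℝ in atTop, ∀ z : ℂ, ‖z‖ = R →
    ∏ k ∈ s, ‖z + 2 * A + k‖ ≤ 2 * ∏ k ∈ s, ‖z - k‖ := by
  have h1 : Tendsto (fun R : ℝ => ∏ k ∈ s, (1 + (|2 * A + 2 * k|) / (R - |k|))) atTop
      (𝓝 (∏ k ∈ s, (1 + 0))) := by
    refine tendsto_finsetProd _ fun k _ => ?_
    refine Tendsto.add tendsto_const_nhds ?_
    refine Tendsto.div_atTop tendsto_const_nhds ?_
    exact tendsto_atTop_add_const_right _ _ tendsto_id
  have h2 : (∏ k ∈ s, ((1 : ℝ) + 0)) < 2 := by simp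
  have h3 := (tendsto_order.1 h1).2 2 h2
  have h4 : ∀ᶠ R : ℝ in atTop, ∀ k ∈ s, |k| < R := by
    rw [Finset.eventually_all]
    intro k _
    exact eventually_gt_atTop _
  filter_upwards [h3, h4] with R hR hk z hz
  have hpos : ∀ k ∈ s, 0 < ‖z - k‖ := by
    intro k hks
    have := norm_sub_norm_le z (k : ℂ)
    rw [hz, Complex.norm_real, Real.norm_eq_abs] at this
    have := hk k hks
    linarith
  have hfac : ∀ k ∈ s, ‖z + 2 * A + k‖ ≤ (1 + (|2 * A + 2 * k|) / (R - |k|)) * ‖z - k‖ := by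
    intro k hks
    have hk' := hk k hks
    have h5 : R - |k| ≤ ‖z - k‖ := by
      have := norm_sub_norm_le z (k : ℂ)
      rwa [hz, Complex.norm_real, Real.norm_eq_abs] at this
    have h6 : ‖z + 2 * A + k‖ ≤ ‖z - k‖ + |2 * A + 2 * k| := by
      have : z + 2 * A + k = (z - k) + ((2 * A + 2 * k : ℝ) : ℂ) := by
        push_cast
        ring
      rw [this]
      refine (norm_add_le _ _).trans ?_
      rw [Complex.norm_real, Real.norm_eq_abs]
    have h7 : |2 * A + 2 * k| ≤ (|2 * A + 2 * k|) / (R - |k|) * ‖z - k‖ := by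
      rw [div_mul_eq_mul_div, le_div_iff₀ (by linarith)]
      exact mul_le_mul_of_nonneg_left h5 (abs_nonneg _)
    linarith
  calc ∏ k ∈ s, ‖z + 2 * A + k‖ ≤ ∏ k ∈ s, ((1 + (|2 * A + 2 * k|) / (R - |k|)) * ‖z - k‖) :=
        Finset.prod_le_prod (fun k _ => norm_nonneg _) hfac
    _ = (∏ k ∈ s, (1 + (|2 * A + 2 * k|) / (R - |k|))) * ∏ k ∈ s, ‖z - k‖ :=
        Finset.prod_mul_distrib
    _ ≤ 2 * ∏ k ∈ s, ‖z - k‖ :=
        mul_le_mul_of_nonneg_right hR.le (Finset.prod_nonneg fun k _ => norm_nonneg _)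

/-- The two constants lemma with nodes. -/
theorem interp (A C : ℝ) (s : Finset ℝ) (hs : ∀ k ∈ s, -A < k) (z₀ : ℂ)
    (hz₀ : -A < z₀.re) (ε : ℝ) (hε : 0 < ε) :
    ∃ R : ℝ, 0 < R ∧ ∃ δ : ℝ, 0 < δ ∧ ∀ G : ℂ → ℂ, DifferentiableOn ℂ G (ball 0 R) →
      (∀ z ∈ ball (0 : ℂ) R, -A ≤ z.re → ‖G z‖ ≤ C) → (∀ k ∈ s, ‖G (k : ℂ)‖ ≤ δ) →
      ‖G z₀‖ ≤ 2 * C * ∏ k ∈ s, bf A k z₀ + ε := by
  classical
  have hev : ∀ᶠ R : ℝ in atTop, ∀ k ∈ s, |k| < R := by
    rw [Finset.eventually_all]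
    intro k _
    exact eventually_gt_atTop _
  obtain ⟨R, hR1, hR2, hR3, hR4⟩ := ((exists_radius A s).and
    ((eventually_gt_atTop ‖z₀‖).and (hev.and (eventually_gt_atTop (0 : ℝ))))).exists
  set S : Finset ℂ := s.image (fun k : ℝ => (k : ℂ)) with hS
  obtain ⟨Λ, hΛ0, hΛ⟩ := lag_bound S R
  refine ⟨R + 1, by linarith, ε / (3 * (Λ + 1)), by positivity, fun G hG hGC hGs => ?_⟩
  set δ := ε / (3 * (Λ + 1)) with hδ
  have hδ0 : 0 < δ := by positivity
  have hΛδ : Λ * δ ≤ ε / 3 := by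
    rw [hδ]
    rw [mul_div_assoc', div_le_div_iff₀ (by positivity) (by positivity)]
    nlinarith
  set P := lag S G with hP
  have hPb : ∀ z : ℂ, ‖z‖ ≤ R → ‖P z‖ ≤ ε / 3 := by
    intro z hz
    refine (hΛ G δ hδ0.le ?_ z hz).trans hΛδ
    intro k hk
    obtain ⟨k', hk', rfl⟩ := Finset.mem_image.1 hk
    exact hGs k' hk'
  have hnode : ∀ k ∈ s, ((k : ℝ) : ℂ) ∈ S := fun k hk => Finset.mem_image_of_mem _ hk
  obtain ⟨g, hg, hfg⟩ := exists_factor (isOpen_ball : IsOpen (ball (0 : ℂ) (R + 1))) S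
    (fun z => G z - P z) (hG.sub (lag_differentiable S G).differentiableOn) (by
      intro k hk
      obtain ⟨k', hk', rfl⟩ := Finset.mem_image.1 hk
      rw [mem_ball_zero_iff, Complex.norm_real, Real.norm_eq_abs]
      have := hR3 k' hk'
      linarith) (by
      intro k hk
      rw [hP, lag_node S G hk, sub_self])
  have hprod : ∀ z : ℂ, ∏ k ∈ S, (z - k) = ∏ k ∈ s, (z - (k : ℂ)) := by
    intro z
    rw [hS, Finset.prod_image]
    intro a _ b _ h
    exact Complex.ofReal_injective h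
  set h : ℂ → ℂ := fun z => g z * ∏ k ∈ s, (z + 2 * A + k) with hh
  set U : Set ℂ := {z | -A < z.re} ∩ ball 0 R with hU
  have hUo : IsOpen U :=
    (isOpen_lt continuous_const Complex.continuous_re).inter isOpen_ball
  have hclos : closure U ⊆ {z | -A ≤ z.re} ∩ closedBall 0 R := by
    refine closure_minimal ?_ ?_
    · intro z hz
      have h1 : -A < z.re := hz.1
      exact ⟨h1.le, ball_subset_closedBall hz.2⟩
    · exact (isClosed_le continuous_const Complex.continuous_re).inter isClosed_closedBall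
  have hUb : Bornology.IsBounded U := isBounded_ball.subset inter_subset_right
  have hdh : DiffContOnCl ℂ h U := by
    refine DifferentiableOn.diffContOnCl ?_
    have h1 : closure U ⊆ ball 0 (R + 1) := by
      intro z hz
      have := (hclos hz).2
      rw [mem_closedBall_zero_iff] at this
      rw [mem_ball_zero_iff]
      linarith
    refine (hg.mono h1).mul ?_
    refine Differentiable.differentiableOn ?_
    fun_prop
  have hfront : ∀ z ∈ frontier U, ‖h z‖ ≤ 2 * (C + ε / 3) := by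
    intro z hz
    rw [hUo.frontier_eq] at hz
    have hz1 := hclos hz.1
    have hzR : ‖z‖ ≤ R := by simpa using hz1.2
    have hzball : z ∈ ball (0 : ℂ) (R + 1) := by
      rw [mem_ball_zero_iff]
      linarith
    have hGP : ‖G z - P z‖ ≤ C + ε / 3 := by
      refine (norm_sub_le _ _).trans ?_
      exact add_le_add (hGC z hzball hz1.1) (hPb z hzR)
    have hfac : ‖G z - P z‖ = (∏ k ∈ s, ‖z - k‖) * ‖g z‖ := by
      rw [hfg z, hprod z, norm_mul, norm_prod]
    have hcases : ∏ k ∈ s, ‖z + 2 * A + k‖ ≤ 2 * ∏ k ∈ s, ‖z - k‖ := by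
      by_cases hc : ‖z‖ = R
      · exact hR1 z hc
      · have hlt : ‖z‖ < R := lt_of_le_of_ne hzR hc
        have hre : z.re = -A := by
          by_contra hne
          exact hz.2 ⟨lt_of_le_of_ne hz1.1 (fun h => hne h.symm), by simpa using hlt⟩
        have h1 : ∏ k ∈ s, ‖z + 2 * A + k‖ = ∏ k ∈ s, ‖z - k‖ :=
          Finset.prod_congr rfl fun k _ => (norm_eq_of_re hre).symm
        rw [h1]
        have : 0 ≤ ∏ k ∈ s, ‖z - k‖ := Finset.prod_nonneg fun k _ => norm_nonneg _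
        linarith
    calc ‖h z‖ = ‖g z‖ * ∏ k ∈ s, ‖z + 2 * A + k‖ := by
          rw [hh]
          simp only [norm_mul, norm_prod]
      _ ≤ ‖g z‖ * (2 * ∏ k ∈ s, ‖z - k‖) :=
          mul_le_mul_of_nonneg_left hcases (norm_nonneg _)
      _ = 2 * ‖G z - P z‖ := by rw [hfac]; ring
      _ ≤ 2 * (C + ε / 3) := by linarith
  have hz₀U : z₀ ∈ U := ⟨hz₀, by simpa using hR2⟩
  have hmax := Complex.norm_le_of_forall_mem_frontier_norm_le hUb hdh hfront
    (subset_closure hz₀U)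
  have hden : ∀ k ∈ s, 0 < ‖z₀ + 2 * A + k‖ := by
    intro k hk
    rw [norm_pos_iff]
    intro h0
    have := congrArg Complex.re h0
    simp at this
    have := hs k hk
    linarith
  have hB : ∏ k ∈ s, bf A k z₀ = (∏ k ∈ s, ‖z₀ - k‖) / ∏ k ∈ s, ‖z₀ + 2 * A + k‖ := by
    unfold bf
    rw [Finset.prod_div_distrib]
  have hdenp : 0 < ∏ k ∈ s, ‖z₀ + 2 * A + k‖ := Finset.prod_pos hden
  have hB0 : 0 ≤ ∏ k ∈ s, bf A k z₀ := Finset.prod_nonneg fun k _ => bf_nonneg _ _ _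
  have hB1 : ∏ k ∈ s, bf A k z₀ ≤ 1 :=
    Finset.prod_le_one (fun k _ => bf_nonneg _ _ _) fun k hk => bf_le_one (hs k hk) hz₀.le
  have h1 : ‖G z₀ - P z₀‖ = (∏ k ∈ s, bf A k z₀) * ‖h z₀‖ := by
    have h2 : ‖h z₀‖ = ‖g z₀‖ * ∏ k ∈ s, ‖z₀ + 2 * A + k‖ := by
      rw [hh]
      simp only [norm_mul, norm_prod]
    rw [h2, hB, hfg z₀, hprod z₀, norm_mul, norm_prod]
    field_simp
  have h3 : ‖G z₀‖ ≤ ‖G z₀ - P z₀‖ + ‖P z₀‖ := by
    have := norm_add_le (G z₀ - P z₀) (P z₀)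
    rwa [sub_add_cancel] at this
  have h4 : ‖P z₀‖ ≤ ε / 3 := hPb z₀ hR2.le
  have h5 : (∏ k ∈ s, bf A k z₀) * ‖h z₀‖ ≤ (∏ k ∈ s, bf A k z₀) * (2 * (C + ε / 3)) :=
    mul_le_mul_of_nonneg_left hmax hB0
  have h6 : (∏ k ∈ s, bf A k z₀) * (2 * (ε / 3)) ≤ 1 * (2 * (ε / 3)) :=
    mul_le_mul_of_nonneg_right hB1 (by positivity)
  rw [h1] at h3
  nlinarith

/-- The Blaschke product tends to zero when the nodes violate the Blaschke condition. -/
theorem bf_prod_tendsto (A η : ℝ) (hη : 0 < η) (K : ℕ → ℝ) (hK : ∀ j, -A + η ≤ K j)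
    (hdiv : ¬ Summable fun j => (1 + |K j|)⁻¹) (z : ℂ) (hz : -A < z.re) :
    Tendsto (fun n => ∏ j ∈ Finset.range n, bf A (K j) z) atTop (𝓝 0) := by
  set c1 : ℝ := ((1 + |A|) / η + 1)⁻¹ with hc1
  set c2 : ℝ := ‖z‖ + 2 * |A| + 1 with hc2
  have hc1p : 0 < c1 := by positivity
  have hc2p : 0 < c2 := by positivity
  set c : ℝ := 4 * c1 * (z.re + A) / c2 ^ 2 with hc
  have hzA : 0 < z.re + A := by linarith
  have hcp : 0 < c := by positivity
  have hsq : ∀ j, bf A (K j) z ^ 2 ≤ Real.exp (-(c * (1 + |K j|)⁻¹)) := by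
    intro j
    have h0 : η ≤ A + K j := by linarith [hK j]
    have h1 : c1 * (1 + |K j|) ≤ A + K j := by
      have h2 : |K j| ≤ (A + K j) + |A| := by
        have h3 : K j = (A + K j) + (-A) := by ring
        calc |K j| = |(A + K j) + (-A)| := by rw [← h3]
          _ ≤ |A + K j| + |-A| := abs_add_le _ _
          _ = (A + K j) + |A| := by rw [abs_neg, abs_of_pos (by linarith)]
      have h4 : 1 + |A| ≤ (1 + |A|) / η * (A + K j) := by
        rw [div_mul_eq_mul_div, le_div_iff₀ hη]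
        exact mul_le_mul_of_nonneg_left h0 (by positivity)
      have h5 : 1 + |K j| ≤ ((1 + |A|) / η + 1) * (A + K j) := by linarith
      rw [hc1, inv_mul_le_iff₀ (by positivity)]
      exact h5
    have hden : 0 < ‖z + 2 * A + K j‖ := by
      rw [norm_pos_iff]
      intro h0
      have h1 := congrArg Complex.re h0
      simp at h1
      linarith [hK j]
    have hden2 : ‖z + 2 * A + K j‖ ≤ c2 * (1 + |K j|) := by
      have h1 : ‖z + 2 * A + K j‖ ≤ ‖z‖ + 2 * |A| + |K j| := by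
        refine (norm_add_le _ _).trans ?_
        rw [Complex.norm_real, Real.norm_eq_abs]
        refine add_le_add ((norm_add_le _ _).trans ?_) le_rfl
        rw [norm_mul, Complex.norm_real, Real.norm_eq_abs]
        simp
      have h2 : 0 ≤ (‖z‖ + 2 * |A|) * |K j| := by positivity
      rw [hc2]
      nlinarith
    have h1 : bf A (K j) z ^ 2 = 1 - 4 * (A + K j) * (z.re + A) / ‖z + 2 * A + K j‖ ^ 2 := by
      unfold bf
      rw [div_pow, ← norm_sub_sq A (K j) z]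
      field_simp
      ring
    have h2 : c * (1 + |K j|)⁻¹ ≤ 4 * (A + K j) * (z.re + A) / ‖z + 2 * A + K j‖ ^ 2 := by
      have h3 : c * (1 + |K j|)⁻¹ = 4 * (c1 * (1 + |K j|)) * (z.re + A) /
          (c2 * (1 + |K j|)) ^ 2 := by
        rw [hc]
        have : (1 + |K j|) ≠ 0 := by positivity
        field_simp
      rw [h3]
      refine div_le_div₀ ?_ ?_ (by positivity) ?_
      · have : 0 < A + K j := by linarith
        positivity
      · refine mul_le_mul_of_nonneg_right ?_ hzA.le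
        linarith
      · exact pow_le_pow_left₀ (norm_nonneg _) hden2 2
    rw [h1]
    have h3 := Real.add_one_le_exp (-(c * (1 + |K j|)⁻¹))
    linarith
  have hsum : Tendsto (fun n => ∑ j ∈ Finset.range n, (1 + |K j|)⁻¹) atTop atTop :=
    (not_summable_iff_tendsto_nat_atTop_of_nonneg (fun j => by positivity)).1 hdiv
  have hexp : Tendsto (fun n => Real.exp (-(c * ∑ j ∈ Finset.range n, (1 + |K j|)⁻¹))) atTop
      (𝓝 0) := by
    refine Real.tendsto_exp_atBot.comp ?_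
    exact tendsto_neg_atTop_atBot.comp (Tendsto.const_mul_atTop hcp hsum)
  have hle : ∀ n, (∏ j ∈ Finset.range n, bf A (K j) z) ^ 2 ≤
      Real.exp (-(c * ∑ j ∈ Finset.range n, (1 + |K j|)⁻¹)) := by
    intro n
    rw [← Finset.prod_pow, Finset.mul_sum, ← Finset.sum_neg_distrib, Real.exp_sum]
    exact Finset.prod_le_prod (fun j _ => sq_nonneg _) fun j _ => hsq j
  have hsq0 : Tendsto (fun n => (∏ j ∈ Finset.range n, bf A (K j) z) ^ 2) atTop (𝓝 0) :=
    squeeze_zero (fun n => sq_nonneg _) hle hexp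
  have h := (Real.continuous_sqrt.tendsto 0).comp hsq0
  rw [Real.sqrt_zero] at h
  refine h.congr fun n => ?_
  simp only [Function.comp]
  rw [Real.sqrt_sq (Finset.prod_nonneg fun j _ => bf_nonneg _ _ _)]

/-- Convergence at the nodes `K j` implies convergence everywhere to the right of `-A`. -/
theorem tendsto_of_nodes (A C η : ℝ) (hη : 0 < η) (K : ℕ → ℝ) (hKinj : Function.Injective K)
    (hK : ∀ j, -A + η ≤ K j) (hdiv : ¬ Summable fun j => (1 + |K j|)⁻¹)
    (F : ℝ → ℂ → ℂ) (hF : ∀ R : ℝ, ∀ᶠ T in atTop, DifferentiableOn ℂ (F T) (ball 0 R) ∧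
      ∀ z ∈ ball (0 : ℂ) R, -A ≤ z.re → ‖F T z‖ ≤ C)
    (hconv : ∀ j, ∃ l : ℂ, Tendsto (fun T => F T (K j)) atTop (𝓝 l)) :
    ∀ z : ℂ, -A < z.re → ∃ l : ℂ, Tendsto (fun T => F T z) atTop (𝓝 l) := by
  classical
  intro z hz
  have hC : 0 ≤ C := by
    obtain ⟨T, hT⟩ := (hF (‖z‖ + 1)).exists
    refine (norm_nonneg _).trans (hT.2 z ?_ hz.le)
    simp
  refine cauchySeq_tendsto_of_complete ?_
  rw [Metric.cauchySeq_iff]
  intro ε hε
  have hB := bf_prod_tendsto A η hη K hK hdiv z hz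
  obtain ⟨n, hn⟩ := (((tendsto_order.1 hB).2 (ε / (4 * (2 * C) + 4)) (by positivity))).exists
  set s : Finset ℝ := (Finset.range n).image K with hs
  have hsK : ∀ k ∈ s, -A < k := by
    intro k hk
    obtain ⟨j, _, rfl⟩ := Finset.mem_image.1 hk
    linarith [hK j]
  obtain ⟨R, hR, δ, hδ, hint⟩ := interp A (2 * C) s hsK z hz (ε / 2) (by linarith)
  obtain ⟨T₀, hT₀⟩ := eventually_atTop.1 (hF R)
  have hnode : ∀ j : ℕ, ∃ T₁ : ℝ, ∀ T ≥ T₁, ∀ T' ≥ T₁, ‖F T (K j) - F T' (K j)‖ ≤ δ := by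
    intro j
    obtain ⟨l, hl⟩ := hconv j
    obtain ⟨T₁, hT₁⟩ := Metric.cauchySeq_iff.1 hl.cauchySeq δ hδ
    refine ⟨T₁, fun T hT T' hT' => ?_⟩
    have := hT₁ T hT T' hT'
    rw [dist_eq_norm] at this
    exact this.le
  choose T₁ hT₁ using hnode
  obtain ⟨T₂, hT₂⟩ : ∃ T₂ : ℝ, ∀ j ∈ Finset.range n, T₁ j ≤ T₂ := by
    obtain ⟨M, hM⟩ := ((Finset.range n).image T₁).exists_le
    exact ⟨M, fun j hj => hM _ (Finset.mem_image_of_mem _ hj)⟩
  refine ⟨max T₀ T₂, fun T hT T' hT' => ?_⟩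
  have hTa := hT₀ T ((le_max_left _ _).trans hT)
  have hTb := hT₀ T' ((le_max_left _ _).trans hT')
  have h := hint (fun w => F T w - F T' w) (hTa.1.sub hTb.1) (by
    intro w hw hwre
    refine (norm_sub_le _ _).trans ?_
    have h1 := hTa.2 w hw hwre
    have h2 := hTb.2 w hw hwre
    linarith) (by
    intro k hk
    obtain ⟨j, hj, rfl⟩ := Finset.mem_image.1 hk
    exact hT₁ j T ((hT₂ j hj).trans ((le_max_right _ _).trans hT)) T'
      ((hT₂ j hj).trans ((le_max_right _ _).trans hT')))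
  have hprod : ∏ k ∈ s, bf A k z = ∏ j ∈ Finset.range n, bf A (K j) z := by
    rw [hs, Finset.prod_image]
    intro a _ b _ hab
    exact hKinj hab
  rw [hprod] at h
  rw [dist_eq_norm]
  refine lt_of_le_of_lt h ?_
  have h1 : 2 * (2 * C) * ∏ j ∈ Finset.range n, bf A (K j) z ≤
      2 * (2 * C) * (ε / (4 * (2 * C) + 4)) :=
    mul_le_mul_of_nonneg_left hn.le (by positivity)
  have h2 : 2 * (2 * C) * (ε / (4 * (2 * C) + 4)) < ε / 2 := by
    rw [mul_div_assoc', div_lt_div_iff₀ (by positivity) (by positivity)]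
    nlinarith
  linarith

end Pool.Agent.Lib.LFA
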